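import Mathlib
import Pool.Agent.Lib.MP_ae5b4e_an_GENC.Table

/-!
# MP_ae5b4e_an: tables on algebraic curves with an algebraic field of projective involutions

Let `γ` be a closed real-analytic convex curve of positive curvature on a real algebraic curve
`P = 0`, and let a one-sided neighbourhood of `γ`, arbitrarily thin, be filled by closed curves
`L_c = {γ(t) + S(c, t) γ'(t)}` such that every involution `σ_t` of the tangent line at `γ(t)`
defined by the `L_c` is projective, `1 / s + 1 / s' = κ(t)`, and depends algebraically on the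
point of `γ`.  Assume that the complex projective curve `P = 0` is nonsingular (of any degree), or
irreducible of degree at least `4` and all of its branches are ordinary points (type `(1, 2)`),
simple flexes (type `(1, 3)`) or, if the degree is at least `5`, ordinary cusps (type `(2, 3)`);
several branches may pass through one point in an arbitrary way.  If the degree is at least `3` we
also assume that the `L_c` have an analytic first integral near one point of `γ`.  Then the degree
is `2`, `γ` is an ellipse and the `L_c` are ellipses of one pencil.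

Idea of the proof.  The first integral is analytic near one complex point of the curve, hence
(identity theorem for the coefficients of its slope, which are differential polynomials of the
curve and the field) near every regular point of the curve and of the field.  At a place of type
`(a, b)` it has a homogeneous limit with an exponent `d`; the group generated by the involution of
a tangent line and the exchange of the two tangent lines through a point gives an entire function
and the bounds `Re d ≤ 1` for `(1, 2)`, `Re d ≤ 1/2` for `(1, 3)` and `(2, 3)`, `Re d < b/3` for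
`(1, b)`.  The exponents satisfy two linear relations, by the residue theorem on the (compact)
Riemann surface of the pair curve, field: the sum of `1 - d` is the Euler characteristic and the
sum of `(a + b) / 3 - d` is the degree of the curve (times the degree of the covering).  The bounds
contradict the relations.  For conics the theorem on algebraic fields over conics applies.
-/

set_option autoImplicit false

noncomputable section

namespace Pool.Agent.MP_ae5b4e_an_Out.AlgebraicTablesVariant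

open Filter Topology Set
open scoped Polynomial ContDiff
open Polynomial (evalEval)
open Pool.Agent.MP_ae5b4e_an_hopf
open Pool.Agent.MP_ae5b4e_an_GEN (SmoothCurve)
open Pool.Agent.MP_ae5b4e_an_GENC (Branches Mild)

/-- A table on a nonsingular algebraic curve, or on an irreducible curve with simple flexes and
cusps, with an algebraic field of projective involutions is an ellipse, and the leaves are ellipses
of one pencil. -/
theorem result (γ : ConvexCurve) (hx : ∀ t, AnalyticAt ℝ γ.x t)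
    (hy : ∀ t, AnalyticAt ℝ γ.y t) {P : MvPolynomial (Fin 3) ℝ} {n : ℕ}
    (hP : SmoothCurve (P.map (algebraMap ℝ ℂ)) n ∨
      ((P.map (algebraMap ℝ ℂ)).IsHomogeneous n ∧ Irreducible (P.map (algebraMap ℝ ℂ)) ∧ 4 ≤ n ∧
        Branches (P.map (algebraMap ℝ ℂ))
          (Mild n)))
    (hPγ : ∀ t, MvPolynomial.eval ![γ.x t, γ.y t, 1] P = 0)
    (S : ℝ → ℝ → ℝ) (κ : ℝ → ℝ) (t₀ : ℝ) (hκ : Continuous κ)
    (halg : ∃ G : ℝ[X][X], G ≠ 0 ∧
      ∀ t, deriv γ.x t ≠ 0 → evalEval (γ.x t) (κ t / deriv γ.x t) G = 0)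
    (hsmooth : ContDiffOn ℝ 1 (fun q : ℝ × ℝ => S q.1 q.2) (Ioo 0 1 ×ˢ univ))
    (hpos : ∀ c ∈ Ioo (0:ℝ) 1, ∀ t, 0 < S c t)
    (hper : ∀ c ∈ Ioo (0:ℝ) 1, ∀ t, S c (t + γ.T) = S c t)
    (hsimple : ∀ c ∈ Ioo (0:ℝ) 1, ∀ t t',
      γ.x t + S c t * deriv γ.x t = γ.x t' + S c t' * deriv γ.x t' →
      γ.y t + S c t * deriv γ.y t = γ.y t' + S c t' * deriv γ.y t' → ∃ n : ℤ, t' = t + n * γ.T)
    (hmono : ∀ c ∈ Ioo (0:ℝ) 1, ∀ t, 0 < deriv (fun r => S r t) c)
    (hlim : ∀ t, Tendsto (fun c => S c t) (𝓝[>] 0) (𝓝 0))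
    (hproj : ∀ c ∈ Ioo (0:ℝ) 1, ∀ t s s' t₁ t₂, s ≠ s' →
      γ.x t + s * deriv γ.x t = γ.x t₁ + S c t₁ * deriv γ.x t₁ →
      γ.y t + s * deriv γ.y t = γ.y t₁ + S c t₁ * deriv γ.y t₁ →
      γ.x t + s' * deriv γ.x t = γ.x t₂ + S c t₂ * deriv γ.x t₂ →
      γ.y t + s' * deriv γ.y t = γ.y t₂ + S c t₂ * deriv γ.y t₂ → s⁻¹ + s'⁻¹ = κ t)
    (hana : 3 ≤ n → ∃ (F : ℝ × ℝ → ℝ) (f : ℝ → ℝ), AnalyticAt ℝ F (γ.x t₀, γ.y t₀) ∧
      fderiv ℝ F (γ.x t₀, γ.y t₀) ≠ 0 ∧ ∀ᶠ q in 𝓝 ((0, t₀) : ℝ × ℝ), 0 < q.1 →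
        F (γ.x q.2 + S q.1 q.2 * deriv γ.x q.2, γ.y q.2 + S q.1 q.2 * deriv γ.y q.2) = f q.1) :
    n = 2 ∧ ∃ x₀ y₀ a b c a₁ b₁ d₁ a₂ b₂ d₂ : ℝ, 0 < a ∧ b ^ 2 < a * c ∧
      (∀ x y : ℝ, a * (x - x₀) ^ 2 + 2 * b * (x - x₀) * (y - y₀) + c * (y - y₀) ^ 2 = 1 ↔
        ∃ t, γ.x t = x ∧ γ.y t = y) ∧
      (∀ x y : ℝ, a * (x - x₀) ^ 2 + 2 * b * (x - x₀) * (y - y₀) + c * (y - y₀) ^ 2 ≤ 1 →
        0 < a₁ * x + b₁ * y + d₁ ∧ 0 < a₂ * x + b₂ * y + d₂) ∧
      ∀ r ∈ Ioo (0:ℝ) 1, ∃ l : ℝ, 0 < l ∧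
        (∀ x y : ℝ, (x, y) ≠ (0, 0) → (a₁ * x + b₁ * y) * (a₂ * x + b₂ * y) <
          l * (a * x ^ 2 + 2 * b * x * y + c * y ^ 2)) ∧
        ∀ x y : ℝ, ((a₁ * x + b₁ * y + d₁) * (a₂ * x + b₂ * y + d₂) =
          l * (a * (x - x₀) ^ 2 + 2 * b * (x - x₀) * (y - y₀) + c * (y - y₀) ^ 2 - 1) ↔
          ∃ t, γ.x t + S r t * deriv γ.x t = x ∧ γ.y t + S r t * deriv γ.y t = y) :=
  Pool.Agent.MP_ae5b4e_an_GEN.alg_table γ hx hy hP hPγ S κ t₀ hκ halg hsmooth hpos hper hsimple hmono
    hlim hproj hana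

end Pool.Agent.MP_ae5b4e_an_Out.AlgebraicTablesVariant
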