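import Mathlib
import Pool.Agent.Lib.MP_ae5b4e_an_ALM.Fin
import Pool.Agent.Lib.MP_ae5b4e_an_ALM.Dini
import Pool.Agent.Lib.MP_ae5b4e_an_ALM.Bd
import Pool.Agent.Lib.MP_ae5b4e_an_ALM.Tot
import Pool.Agent.Lib.MP_ae5b4e_an_RIG.GEx

/-!
# MP_ae5b4e_an: foliations of almost the whole exterior of a convex curve

A solution (`Sol`) is a smooth closed convex curve `γ` of positive curvature together with closed
curves `L_c`, `0 < c < 1`, which fill a one-sided neighbourhood of `γ`, such that all the involutions
of the tangent lines are projective: in the coordinate `u` of the point `γ t + γ' t / u` of the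
tangent line at `t` (`u = ∞` is the tangency point) they are the maps `u ↦ κ t - u`.

Every solution has a normal form (`Normal`): a parameter `x` of period one and a lift
`P = lam (γ, 1)` with `det (P, P', P'') = 1` for which the involution of the tangent line at `x`
exchanges `P' + v P` and `P' - v P`.  The periodic functions `r`, `m` with `P''' + r P' + m P = 0`
determine the curve and the field of involutions up to projective maps, and they are projective
invariants.

The map: from a point of the leaf one goes along the tangent line to the second point of this line on
the same leaf; the tangency parameters of the successive tangent lines are `x < y < z`.  The leaf is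
almost total if two steps go around the curve up to `η`: `z ≥ x + 1 - η` for all `x` (`Reach2`).  For
two points of the leaf on one tangent line this says that the second tangent lines through them
touch `γ` at parameters which differ by at most `η`: the region outside of the leaf is a thin
Moebius band.  If the leaves fill the whole exterior of `γ` (total case) then there are such leaves
for every `η > 0`.

THEOREM.  For every `K` there is `η > 0` such that every solution with smooth leaves with
`|r|, …, |r'''|, |m|, |m'|, |m''| ≤ K` and one leaf which is almost total (up to `η`), is a pencil of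
conics.

Idea of the proof.  (1) Hopf's method.  Let `D (x, y) = det (P x, P y, P' y)`.  Each leaf gives an
inequality for the second derivatives of `log D` along the orbits of the map.  Integrated with a
suitable weight over the leaves between `γ` and the almost total leaf it bounds the integral of a
density by its integral over the thin band outside of the leaf, i.e. by `C η`.  With a
null-Lagrangian (the boundary terms on the diagonal are computed) and an explicit certificate for
quadratic forms the left side becomes the integral of a nonnegative density `Q`.

(2) Compactness.  For a sequence of solutions with `η → 0` the first step of the map on the almost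
total leaves is bounded from below in terms of `K`.  By the estimates for the closed polygons with
`q` vertices, `q → ∞`, the functions `r`, `m` are real-analytic, with a width of the strip which
depends only on `K` and this bound; so a subsequence converges, with all derivatives, after
projective maps; the limit is a strictly convex curve and its density `Q` vanishes.

(3) If `Q = 0` then `D (x, y)` is symmetric and depends only on `y - x`; hence `r` is constant and
`m = 0`, and the limit is the circle, `r = 4 π ^ 2`.

(4) Solutions near the circle with rotation numbers up to `11 / 25 > 3 / 7` are pencils (see the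
hand-in `NearPencil`, part (4) of the proof).
-/

noncomputable section

namespace Pool.Agent.MP_ae5b4e_an_Out.AlmostTotalVariant

open Real Set Filter Topology
open scoped ContDiff
open Pool.Agent.MP_ae5b4e_an_hopf (ConvexCurve circ)
open Pool.Agent.MP_ae5b4e_an_RG (Pencil)
open Pool.Agent.MP_ae5b4e_an_RIG (Sol Normal Bnd)
open Pool.Agent.MP_ae5b4e_an_ALM (Reach2)

/-- Every solution has a normal form with bounded coefficients; and for every bound `K` there is
`η > 0` such that every solution with smooth leaves and one leaf which is almost total up to `η`
(in particular every solution which fills the whole exterior) is a pencil of conics.  If the leaves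
fill the whole exterior then they are concentric circles in suitable projective coordinates. -/
theorem result :
    (∀ (γ : ConvexCurve) (U : ℝ → ℝ → ℝ) (κ : ℝ → ℝ), Sol γ U κ →
      ∃ σ lam r m : ℝ → ℝ, Normal γ κ σ lam r m ∧ ∃ K, Bnd K r m) ∧
    ∀ K : ℝ, ∃ η > 0, ∀ (γ : ConvexCurve) (U : ℝ → ℝ → ℝ) (κ σ lam r m : ℝ → ℝ), Sol γ U κ →
      ContDiffOn ℝ ∞ (fun q : ℝ × ℝ => U q.1 q.2) (Ioo 0 1 ×ˢ univ) →
      (∀ c ∈ Ioo (0:ℝ) 1, ∀ t, deriv (fun r => U r t) c < 0) →
      Normal γ κ σ lam r m → Bnd K r m →
      (Reach2 γ U σ (1 - η) ∨ ∀ t, Tendsto (fun c => U c t) (𝓝[<] 1) (𝓝 (κ t / 2))) →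
      Pencil γ U ∧ ((∀ t, Tendsto (fun c => U c t) (𝓝[<] 1) (𝓝 (κ t / 2))) →
        ∃ g : (Fin 3 → ℝ) ≃ₗ[ℝ] (Fin 3 → ℝ), γ.trace = circ g 1 ∧
          ∀ c ∈ Ioo (0:ℝ) 1, ∃ R : ℝ, 1 < R ∧ γ.leaf U c = circ g R) := by
  refine ⟨fun γ U κ h => ?_, fun K => ?_⟩
  · obtain ⟨σ, lam, r, m, hN⟩ := h.exists_normal
    exact ⟨σ, lam, r, m, hN, Pool.Agent.MP_ae5b4e_an_ALM.exists_bnd hN⟩
  · obtain ⟨η, hη, H⟩ := Pool.Agent.MP_ae5b4e_an_ALM.almost_total K
    refine ⟨η, hη, fun γ U κ σ lam r m h hs hm hN hB hR => ⟨?_, fun htot => ?_⟩⟩
    · refine H γ U κ σ lam r m h hs hm hN hB (hR.elim id fun htot => ?_)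
      exact Pool.Agent.MP_ae5b4e_an_ALM.reach2_of_total h hs hm hN htot hη
    · exact Pool.Agent.MP_ae5b4e_an_ALM.total_circ h hs hm htot

end Pool.Agent.MP_ae5b4e_an_Out.AlmostTotalVariant
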