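import Mathlib
import Pool.Agent.Lib.MP_ae5b4e_an_total.Wirt

/-!
The planar Blaschke-Santalo inequality for the product `∫ h ρ * ∫ h⁻²` (area of the body times area
of the polar body) under the centring condition.
-/

noncomputable section

namespace Pool.Agent.MP_ae5b4e_an.Out

open Real Set Filter Topology MeasureTheory

open Pool.Agent.MP_ae5b4e_an_total in
/-- Blaschke-Santalo with the centring condition -/
theorem santalo_product {h k ρ : ℝ → ℝ} (hh : ∀ θ, HasDerivAt h (k θ) θ)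
    (hk : ∀ θ, HasDerivAt k (ρ θ - h θ) θ) (hρ : Continuous ρ) (hρ0 : ∀ θ, 0 < ρ θ)
    (hper : ∀ θ, h (θ + 2 * π) = h θ) (hpos : ∀ θ, 0 < h θ)
    (hc : ∫ θ in (0:ℝ)..(2 * π), (h θ ^ 3)⁻¹ * cos θ = 0)
    (hs : ∫ θ in (0:ℝ)..(2 * π), (h θ ^ 3)⁻¹ * sin θ = 0) :
    (∫ θ in (0:ℝ)..(2 * π), h θ * ρ θ) * (∫ θ in (0:ℝ)..(2 * π), (h θ ^ 2)⁻¹) ≤
      (2 * π) ^ 2 := by
  have hwc : Continuous h := continuous_iff_continuousAt.2 fun θ => (hh θ).continuousAt
  have hkc : Continuous k := continuous_iff_continuousAt.2 fun θ => (hk θ).continuousAt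
  have hkper : ∀ θ, k (θ + 2 * π) = k θ := by
    intro θ
    have h1 : HasDerivAt (fun x => h (x + 2 * π)) (k (θ + 2 * π)) θ := by
      simpa using (hh (θ + 2 * π)).comp_add_const θ (2 * π)
    have h2 : (fun x => h (x + 2 * π)) = h := funext hper
    rw [h2] at h1
    exact h1.unique (hh θ)
  have hpi : (0:ℝ) < 2 * π := by positivity
  have hρc : Continuous fun θ => (h θ ^ 3)⁻¹ :=
    (hwc.pow 3).inv₀ fun θ => (pow_pos (hpos θ) 3).ne'
  have hic : Continuous fun θ => (h θ ^ 2)⁻¹ :=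
    (hwc.pow 2).inv₀ fun θ => (pow_pos (hpos θ) 2).ne'
  have hjc : Continuous fun θ => (h θ)⁻¹ := hwc.inv₀ fun θ => (hpos θ).ne'
  have ii : ∀ {g : ℝ → ℝ}, Continuous g → IntervalIntegrable g volume 0 (2 * π) :=
    fun hg => hg.intervalIntegrable _ _
  obtain ⟨z, z', hz, hz', hzper, hzz⟩ := exists_body hρc (fun θ => by simp only [hper])
    (fun θ => inv_pos.2 (pow_pos (hpos θ) 3)) hc hs
  have hρpos : 0 < ∫ θ in (0:ℝ)..(2 * π), (h θ ^ 3)⁻¹ :=
    intervalIntegral.intervalIntegral_pos_of_pos (ii hρc)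
      (fun θ => inv_pos.2 (pow_pos (hpos θ) 3)) hpi
  set T := ∫ θ in (0:ℝ)..(2 * π), (h θ ^ 2)⁻¹ with hT
  have hTpos : 0 < T :=
    intervalIntegral.intervalIntegral_pos_of_pos (ii hic)
      (fun θ => inv_pos.2 (pow_pos (hpos θ) 2)) hpi
  set a := 2 * π / T with ha
  have hapos : 0 < a := by positivity
  have haT : a * T = 2 * π := by rw [ha]; field_simp
  set t : ℝ → ℝ := fun θ => a * ∫ s in (0:ℝ)..θ, (h s ^ 2)⁻¹ with ht
  have htd : ∀ θ, HasDerivAt t (a * (h θ ^ 2)⁻¹) θ := fun θ =>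
    (intervalIntegral.integral_hasDerivAt_right (hic.intervalIntegrable _ _)
      hic.aestronglyMeasurable.stronglyMeasurableAtFilter hic.continuousAt).const_mul a
  have htc : Continuous t := continuous_iff_continuousAt.2 fun θ => (htd θ).continuousAt
  have htper : ∀ θ, t (θ + 2 * π) = t θ + 2 * π := by
    intro θ
    have hp : Function.Periodic (fun s => (h s ^ 2)⁻¹) (2 * π) := by
      intro s; simp only [hper]
    have h1 := hp.intervalIntegral_add_eq 0 θ
    rw [zero_add] at h1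
    simp only [ht]
    rw [← intervalIntegral.integral_add_adjacent_intervals (hic.intervalIntegrable 0 θ)
      (hic.intervalIntegrable θ (θ + 2 * π)), ← h1, ← hT, mul_add, haT]
  -- the two test functions
  have hf1 : ∀ θ, HasDerivAt (fun θ => h θ * cos (t θ))
      (k θ * cos (t θ) - a * (h θ)⁻¹ * sin (t θ)) θ := by
    intro θ
    refine ((hh θ).mul ((hasDerivAt_cos (t θ)).comp θ (htd θ))).congr_deriv ?_
    have := (hpos θ).ne'
    simp only [Function.comp]
    field_simp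
    ring
  have hf2 : ∀ θ, HasDerivAt (fun θ => h θ * sin (t θ))
      (k θ * sin (t θ) + a * (h θ)⁻¹ * cos (t θ)) θ := by
    intro θ
    refine ((hh θ).mul ((hasDerivAt_sin (t θ)).comp θ (htd θ))).congr_deriv ?_
    have := (hpos θ).ne'
    simp only [Function.comp]
    field_simp
  have o1 : ∫ θ in (0:ℝ)..(2 * π), h θ * cos (t θ) * (h θ ^ 3)⁻¹ = 0 := by
    have h1 : ∫ θ in (0:ℝ)..(2 * π), (cos (t θ) * (a * (h θ ^ 2)⁻¹)) = 0 := by
      refine integral_deriv_per (g := fun θ => sin (t θ)) (fun θ =>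
        (hasDerivAt_sin (t θ)).comp θ (htd θ)) (by fun_prop) ?_
      have := htper 0
      rw [zero_add] at this
      rw [this, sin_add_two_pi]
    have h2 : ∀ θ, h θ * cos (t θ) * (h θ ^ 3)⁻¹ = a⁻¹ * (cos (t θ) * (a * (h θ ^ 2)⁻¹)) := by
      intro θ
      have := (hpos θ).ne'
      field_simp
    simp_rw [h2]
    rw [intervalIntegral.integral_const_mul, h1, mul_zero]
  have o2 : ∫ θ in (0:ℝ)..(2 * π), h θ * sin (t θ) * (h θ ^ 3)⁻¹ = 0 := by
    have h1 : ∫ θ in (0:ℝ)..(2 * π), (-sin (t θ) * (a * (h θ ^ 2)⁻¹)) = 0 := by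
      refine integral_deriv_per (g := fun θ => cos (t θ)) (fun θ =>
        (hasDerivAt_cos (t θ)).comp θ (htd θ)) (by fun_prop) ?_
      have := htper 0
      rw [zero_add] at this
      rw [this, cos_add_two_pi]
    have h2 : ∀ θ, h θ * sin (t θ) * (h θ ^ 3)⁻¹ =
        -a⁻¹ * (-sin (t θ) * (a * (h θ ^ 2)⁻¹)) := by
      intro θ
      have := (hpos θ).ne'
      field_simp
    simp_rw [h2]
    rw [intervalIntegral.integral_const_mul, h1, mul_zero]
  have m1 := minkowski hf1 (by fun_prop) (fun θ => by simp only [hper, htper, cos_add_two_pi])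
    hρc hz hz' hzper hzz hρpos o1
  have m2 := minkowski hf2 (by fun_prop) (fun θ => by simp only [hper, htper, sin_add_two_pi])
    hρc hz hz' hzper hzz hρpos o2
  -- the area of the body
  have harea : ∫ θ in (0:ℝ)..(2 * π), h θ * ρ θ ≤ a * (2 * π) := by
    have h1 : ∫ θ in (0:ℝ)..(2 * π), (k θ * k θ + h θ * (ρ θ - h θ)) = 0 := by
      refine integral_deriv_per (g := fun θ => h θ * k θ) (fun θ => (hh θ).mul (hk θ))
        (by fun_prop) ?_
      have e1 := hper 0
      have e2 := hkper 0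
      rw [zero_add] at e1 e2
      rw [e1, e2]
    have h2 : (∫ θ in (0:ℝ)..(2 * π), ((h θ * cos (t θ)) ^ 2 -
          (k θ * cos (t θ) - a * (h θ)⁻¹ * sin (t θ)) ^ 2)) +
        (∫ θ in (0:ℝ)..(2 * π), ((h θ * sin (t θ)) ^ 2 -
          (k θ * sin (t θ) + a * (h θ)⁻¹ * cos (t θ)) ^ 2)) =
        (∫ θ in (0:ℝ)..(2 * π), h θ * ρ θ) -
        (∫ θ in (0:ℝ)..(2 * π), (k θ * k θ + h θ * (ρ θ - h θ))) -
        a ^ 2 * T := by
      rw [hT, ← intervalIntegral.integral_const_mul, ← intervalIntegral.integral_add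
        (ii (by fun_prop)) (ii (by fun_prop)), ← intervalIntegral.integral_sub
        (ii (by fun_prop)) (ii (by fun_prop)), ← intervalIntegral.integral_sub
        (ii (by fun_prop)) (ii (by fun_prop))]
      refine intervalIntegral.integral_congr fun θ _ => ?_
      have hcs := sin_sq_add_cos_sq (t θ)
      have e1 : (h θ ^ 2)⁻¹ = ((h θ)⁻¹) ^ 2 := by rw [inv_pow]
      simp only [e1]
      linear_combination (h θ ^ 2 - k θ ^ 2 - a ^ 2 * ((h θ)⁻¹) ^ 2) * hcs
    rw [h1, sub_zero] at h2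
    have h3 : a ^ 2 * T = a * (2 * π) := by rw [← haT]; ring
    linarith
  calc (∫ θ in (0:ℝ)..(2 * π), h θ * ρ θ) * T ≤ (a * (2 * π)) * T :=
        mul_le_mul_of_nonneg_right harea hTpos.le
    _ = (2 * π) ^ 2 := by rw [← haT]; ring

end Pool.Agent.MP_ae5b4e_an.Out
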