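import Mathlib

/-!
# MP_ae5b4e_an: existence of the Santalo point by minimisation
-/

noncomputable section

namespace Pool.Agent.MP_ae5b4e_an.Out

open Real Set Filter Topology MeasureTheory

/-- first order condition at a minimum of `∫ (w - t s)⁻²` -/
theorem centre_first_order {w s : ℝ → ℝ} (hw : Continuous w) (hs : Continuous s)
    (hs1 : ∀ θ, |s θ| ≤ 1) {m ε : ℝ} (hm : 0 < m) (hε : 0 < ε) (hwm : ∀ θ, m + ε ≤ w θ)
    (hmin : ∀ t, |t| < ε → ∫ θ in (0:ℝ)..(2 * π), ((w θ) ^ 2)⁻¹ ≤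
      ∫ θ in (0:ℝ)..(2 * π), ((w θ - t * s θ) ^ 2)⁻¹) :
    ∫ θ in (0:ℝ)..(2 * π), ((w θ) ^ 3)⁻¹ * s θ = 0 := by
  have hlow : ∀ t, |t| < ε → ∀ θ, m ≤ w θ - t * s θ := by
    intro t ht θ
    have h1 : |t * s θ| ≤ ε := by
      rw [abs_mul]
      calc |t| * |s θ| ≤ ε * 1 := mul_le_mul ht.le (hs1 θ) (abs_nonneg _) hε.le
        _ = ε := mul_one _
    have h2 := (abs_le.mp h1).2
    have h3 := hwm θ
    linarith
  have hcont : ∀ t, |t| < ε → Continuous fun θ => ((w θ - t * s θ) ^ 2)⁻¹ := by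
    intro t ht
    refine Continuous.inv₀ (by fun_prop) ?_
    intro θ
    have h1 := hlow t ht θ
    have h2 : 0 < w θ - t * s θ := by linarith
    positivity
  have hball : Metric.ball (0:ℝ) ε ∈ 𝓝 (0:ℝ) := Metric.ball_mem_nhds _ hε
  have key := intervalIntegral.hasDerivAt_integral_of_dominated_loc_of_deriv_le
    (μ := volume) (a := 0) (b := 2 * π)
    (F := fun t θ => ((w θ - t * s θ) ^ 2)⁻¹)
    (F' := fun t θ => 2 * (((w θ - t * s θ) ^ 3)⁻¹ * s θ)) (x₀ := (0:ℝ))
    (s := Metric.ball (0:ℝ) ε) (bound := fun _ => 2 * (m ^ 3)⁻¹) hball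
    (by
      filter_upwards [hball] with t ht
      have ht' : |t| < ε := by simpa using ht
      exact (hcont t ht').aestronglyMeasurable)
    ((hcont 0 (by simpa using hε)).intervalIntegrable _ _)
    (by
      have h0 : Continuous fun θ => 2 * (((w θ - 0 * s θ) ^ 3)⁻¹ * s θ) := by
        refine continuous_const.mul (Continuous.mul (Continuous.inv₀ (by fun_prop) ?_) hs)
        intro θ
        have h1 := hlow 0 (by simpa using hε) θ
        have h2 : 0 < w θ - 0 * s θ := by linarith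
        positivity
      exact h0.aestronglyMeasurable)
    (by
      refine Eventually.of_forall fun θ _ t ht => ?_
      have ht' : |t| < ε := by simpa using ht
      have h1 := hlow t ht' θ
      have h2 : (0:ℝ) < w θ - t * s θ := by linarith
      rw [norm_mul, norm_mul, Real.norm_eq_abs, Real.norm_eq_abs, Real.norm_eq_abs,
        abs_of_pos (by norm_num : (0:ℝ) < 2), abs_of_pos (by positivity)]
      have h3 : ((w θ - t * s θ) ^ 3)⁻¹ ≤ (m ^ 3)⁻¹ := by
        apply inv_anti₀ (by positivity)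
        exact pow_le_pow_left₀ hm.le h1 3
      have h4 : ((w θ - t * s θ) ^ 3)⁻¹ * |s θ| ≤ (m ^ 3)⁻¹ * 1 :=
        mul_le_mul h3 (hs1 θ) (abs_nonneg _) (by positivity)
      linarith)
    (intervalIntegrable_const)
    (by
      refine Eventually.of_forall fun θ _ t ht => ?_
      have ht' : |t| < ε := by simpa using ht
      have h1 := hlow t ht' θ
      have h2 : (w θ - t * s θ) ≠ 0 := by
        have : (0:ℝ) < w θ - t * s θ := by linarith
        exact this.ne'
      have h3 : HasDerivAt (fun t => w θ - t * s θ) (-(1 * s θ)) t :=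
        ((hasDerivAt_id' t).mul_const (s θ)).const_sub (w θ)
      have h4 := (h3.fun_pow 2).fun_inv (pow_ne_zero 2 h2)
      refine h4.congr_deriv ?_
      field_simp
      ring)
  have hloc : IsLocalMin (fun t => ∫ θ in (0:ℝ)..(2 * π), ((w θ - t * s θ) ^ 2)⁻¹) 0 := by
    filter_upwards [hball] with t ht
    have ht' : |t| < ε := by simpa using ht
    simpa using hmin t ht'
  have hz := hloc.hasDerivAt_eq_zero key.2
  have h5 : ∫ θ in (0:ℝ)..(2 * π), 2 * (((w θ - 0 * s θ) ^ 3)⁻¹ * s θ) =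
      2 * ∫ θ in (0:ℝ)..(2 * π), ((w θ) ^ 3)⁻¹ * s θ := by
    rw [← intervalIntegral.integral_const_mul]
    simp
  rw [h5] at hz
  linarith

/-- a `C²` function with `w'' ≤ C` near a minimum -/
theorem centre_taylor {w w' w'' : ℝ → ℝ} (h1 : ∀ θ, HasDerivAt w (w' θ) θ)
    (h2 : ∀ θ, HasDerivAt w' (w'' θ) θ) {θ₀ C : ℝ} (h0 : w' θ₀ = 0)
    (hC : ∀ x ∈ Icc θ₀ (θ₀ + 1), w'' x ≤ C) :
    ∀ x ∈ Icc θ₀ (θ₀ + 1), w x ≤ w θ₀ + C * (x - θ₀) ^ 2 / 2 := by
  have hA : AntitoneOn (fun x => w' x - C * (x - θ₀)) (Icc θ₀ (θ₀ + 1)) := by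
    have hd : ∀ x, HasDerivAt (fun x => w' x - C * (x - θ₀)) (w'' x - C) x := by
      intro x
      have := (h2 x).fun_sub (((hasDerivAt_id' x).sub_const θ₀).const_mul C)
      refine this.congr_deriv ?_
      ring
    apply antitoneOn_of_deriv_nonpos (convex_Icc _ _)
    · exact fun x _ => (hd x).continuousAt.continuousWithinAt
    · exact fun x _ => (hd x).differentiableAt.differentiableWithinAt
    · intro x hx
      rw [(hd x).deriv]
      have := hC x (interior_subset hx)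
      linarith
  have hA' : ∀ x ∈ Icc θ₀ (θ₀ + 1), w' x - C * (x - θ₀) ≤ 0 := by
    intro x hx
    have := hA (left_mem_Icc.mpr (by linarith)) hx hx.1
    simpa [h0] using this
  have hB : AntitoneOn (fun x => w x - C * (x - θ₀) ^ 2 / 2) (Icc θ₀ (θ₀ + 1)) := by
    have hd : ∀ x, HasDerivAt (fun x => w x - C * (x - θ₀) ^ 2 / 2)
        (w' x - C * (x - θ₀)) x := by
      intro x
      have h3 := (((hasDerivAt_id' x).sub_const θ₀).fun_pow 2).const_mul C
      have h4 := (h1 x).fun_sub (h3.div_const 2)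
      refine h4.congr_deriv ?_
      ring
    apply antitoneOn_of_deriv_nonpos (convex_Icc _ _)
    · exact fun x _ => (hd x).continuousAt.continuousWithinAt
    · exact fun x _ => (hd x).differentiableAt.differentiableWithinAt
    · intro x hx
      rw [(hd x).deriv]
      exact hA' x (interior_subset hx)
  intro x hx
  have := hB (left_mem_Icc.mpr (by linarith)) hx hx.1
  simp only [sub_self] at this
  nlinarith [this]

/-- the Santalo point -/
theorem exists_centre {h k ρ : ℝ → ℝ} (hh : ∀ θ, HasDerivAt h (k θ) θ)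
    (hk : ∀ θ, HasDerivAt k (ρ θ - h θ) θ) (hρ : Continuous ρ)
    (hper : ∀ θ, h (θ + 2 * π) = h θ) (hpos : ∀ θ, 0 < h θ) :
    ∃ o1 o2 : ℝ, (∀ θ, 0 < h θ - (o1 * cos θ + o2 * sin θ)) ∧
      (∫ θ in (0:ℝ)..(2 * π), ((h θ - (o1 * cos θ + o2 * sin θ)) ^ 3)⁻¹ * cos θ = 0) ∧
      (∫ θ in (0:ℝ)..(2 * π), ((h θ - (o1 * cos θ + o2 * sin θ)) ^ 3)⁻¹ * sin θ = 0) := by
  have hπ : (0:ℝ) < π := Real.pi_pos
  have hπ3 : (3:ℝ) < π := Real.pi_gt_three
  have hπ4 : π < 3.15 := Real.pi_lt_d2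
  have hhc : Continuous h := continuous_iff_continuousAt.mpr fun x => (hh x).continuousAt
  -- every angle can be reduced to `[0, 2π]`
  have hred : ∀ f : ℝ → ℝ, (∀ θ, f (θ + 2 * π) = f θ) → ∀ θ, ∃ θ' ∈ Icc (0:ℝ) (2 * π),
      f θ' = f θ := by
    intro f hf θ
    have hp : Function.Periodic f (2 * π) := hf
    obtain ⟨y, hy, hy2⟩ := hp.exists_mem_Ico₀ (by positivity) θ
    exact ⟨y, ⟨hy.1, hy.2.le⟩, hy2.symm⟩
  -- bounds
  obtain ⟨xm, hxm, hxm2⟩ := (isCompact_Icc (a := (0:ℝ)) (b := 2 * π)).exists_isMinOn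
    ⟨0, by constructor <;> linarith⟩ hhc.continuousOn
  obtain ⟨xM, hxM, hxM2⟩ := (isCompact_Icc (a := (0:ℝ)) (b := 2 * π)).exists_isMaxOn
    ⟨0, by constructor <;> linarith⟩ hhc.continuousOn
  obtain ⟨xR, hxR, hxR2⟩ := (isCompact_Icc (a := (0:ℝ)) (b := 2 * π + 1)).exists_isMaxOn
    ⟨0, by constructor <;> linarith⟩ hρ.continuousOn
  set μ := h xm with hμ
  set M := h xM with hM
  have hμpos : 0 < μ := hpos _
  have hμle : ∀ θ, μ ≤ h θ := by
    intro θ
    obtain ⟨θ', h1, h2⟩ := hred h hper θ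
    rw [← h2]; exact hxm2 h1
  have hMge : ∀ θ, h θ ≤ M := by
    intro θ
    obtain ⟨θ', h1, h2⟩ := hred h hper θ
    rw [← h2]; exact hxM2 h1
  have hMpos : 0 < M := hpos _
  set R := |ρ xR| with hR
  have hRge : ∀ θ ∈ Icc (0:ℝ) (2 * π + 1), ρ θ ≤ R := fun θ hθ =>
    le_trans (hxR2 hθ) (le_abs_self _)
  set C := R + 2 * M with hCdef
  have hCnn : 0 ≤ C := by positivity
  set D := 1 + C / 2 with hD
  have hDpos : 1 ≤ D := by linarith
  set δ := min 1 (min μ (μ ^ 2 / (7 * D ^ 2))) with hδ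
  have hδpos : 0 < δ := by
    apply lt_min one_pos (lt_min hμpos _)
    positivity
  have hδ1 : δ ≤ 1 := min_le_left _ _
  have hδμ : δ ≤ μ := le_trans (min_le_right _ _) (min_le_left _ _)
  have hδD : δ * (7 * D ^ 2) ≤ μ ^ 2 := by
    have : δ ≤ μ ^ 2 / (7 * D ^ 2) := le_trans (min_le_right _ _) (min_le_right _ _)
    rwa [le_div_iff₀ (by positivity)] at this
  set m := δ ^ 2 with hm
  have hmpos : 0 < m := by positivity
  have hmμ : m ≤ μ := by nlinarith
  -- the functions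
  let W : ℝ × ℝ → ℝ → ℝ := fun o θ => h θ - (o.1 * cos θ + o.2 * sin θ)
  have hWdef : ∀ o θ, W o θ = h θ - (o.1 * cos θ + o.2 * sin θ) := fun _ _ => rfl
  have hWc2 : Continuous (Function.uncurry W) := by
    have : Function.uncurry W = fun p : (ℝ × ℝ) × ℝ => h p.2 - (p.1.1 * cos p.2 + p.1.2 * sin p.2) := by
      ext p; rfl
    rw [this]
    fun_prop
  have hWc : ∀ o, Continuous (W o) := by
    intro o
    show Continuous fun θ => h θ - (o.1 * cos θ + o.2 * sin θ)
    fun_prop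
  have hWper : ∀ o θ, W o (θ + 2 * π) = W o θ := by
    intro o θ
    rw [hWdef, hWdef, hper, cos_add_two_pi, sin_add_two_pi]
  let Ψ : ℝ × ℝ → ℝ := fun o => ∫ θ in (0:ℝ)..(2 * π), ((max (W o θ) m) ^ 2)⁻¹
  have hΨc : Continuous Ψ := by
    apply intervalIntegral.continuous_parametric_intervalIntegral_of_continuous'
    refine Continuous.inv₀ ((hWc2.max continuous_const).pow 2) ?_
    intro p
    have : 0 < max (Function.uncurry W p) m := lt_max_of_lt_right hmpos
    positivity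
  let K : Set (ℝ × ℝ) := {o | ∀ θ, m ≤ W o θ}
  have hKclosed : IsClosed K := by
    have : K = ⋂ θ, {o | m ≤ W o θ} := by ext o; simp [K]
    rw [this]
    apply isClosed_iInter
    intro θ
    apply isClosed_le continuous_const
    show Continuous fun o : ℝ × ℝ => h θ - (o.1 * cos θ + o.2 * sin θ)
    fun_prop
  have hKbd : ∀ o ∈ K, |o.1| ≤ M ∧ |o.2| ≤ M := by
    intro o ho
    have e1 := ho 0
    have e2 := ho π
    have e3 := ho (π / 2)
    have e4 := ho (-(π / 2))
    simp only [W, cos_zero, sin_zero, cos_pi, sin_pi, cos_pi_div_two, sin_pi_div_two, cos_neg,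
      sin_neg] at e1 e2 e3 e4
    have f1 := hMge 0
    have f2 := hMge π
    have f3 := hMge (π / 2)
    have f4 := hMge (-(π / 2))
    constructor <;> rw [abs_le] <;> constructor <;> linarith
  have hKcompact : IsCompact K := by
    apply Metric.isCompact_of_isClosed_isBounded hKclosed
    rw [Metric.isBounded_iff_subset_closedBall (0 : ℝ × ℝ)]
    refine ⟨M, fun o ho => ?_⟩
    rw [mem_closedBall_zero_iff]
    have := hKbd o ho
    rw [Prod.norm_def]
    exact max_le this.1 this.2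
  have h0K : (0 : ℝ × ℝ) ∈ K := by
    intro θ
    simp only [W, Prod.fst_zero, Prod.snd_zero, zero_mul, add_zero, sub_zero]
    exact le_trans hmμ (hμle θ)
  obtain ⟨o, hoK, homin⟩ := hKcompact.exists_isMinOn ⟨0, h0K⟩ hΨc.continuousOn
  have hΨK : ∀ p ∈ K, Ψ p = ∫ θ in (0:ℝ)..(2 * π), ((W p θ) ^ 2)⁻¹ := by
    intro p hp
    apply intervalIntegral.integral_congr
    intro θ _
    show ((max (W p θ) m) ^ 2)⁻¹ = ((W p θ) ^ 2)⁻¹
    rw [max_eq_left (hp θ)]
  have hΨ0 : Ψ 0 ≤ 2 * π * (μ ^ 2)⁻¹ := by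
    rw [hΨK 0 h0K]
    have : ∫ θ in (0:ℝ)..(2 * π), ((W 0 θ) ^ 2)⁻¹ ≤ ∫ _θ in (0:ℝ)..(2 * π), (μ ^ 2)⁻¹ := by
      apply intervalIntegral.integral_mono_on (by positivity)
      · apply Continuous.intervalIntegrable
        refine Continuous.inv₀ ((hWc 0).pow 2) ?_
        intro θ
        have := h0K θ
        have : 0 < W 0 θ := by linarith
        positivity
      · exact intervalIntegrable_const
      · intro θ _
        apply inv_anti₀ (by positivity)
        apply pow_le_pow_left₀ hμpos.le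
        simp only [W, Prod.fst_zero, Prod.snd_zero, zero_mul, add_zero, sub_zero]
        exact hμle θ
    simpa using this
  have hΨo : Ψ o ≤ Ψ 0 := homin h0K
  -- the barrier
  have hstrict : ∀ θ, m < W o θ := by
    by_contra hcon
    push Not at hcon
    obtain ⟨θ₁, hθ₁⟩ := hcon
    obtain ⟨θ₀, hθ₀, hθ₀2⟩ := hred (W o) (hWper o) θ₁
    have hW0 : W o θ₀ = m := le_antisymm (by rw [hθ₀2]; exact hθ₁) (hoK θ₀)
    have hd1 : ∀ θ, HasDerivAt (W o) (k θ - (o.1 * (-sin θ) + o.2 * cos θ)) θ := fun θ =>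
      (hh θ).sub (((hasDerivAt_cos θ).const_mul o.1).add ((hasDerivAt_sin θ).const_mul o.2))
    have hd2 : ∀ θ, HasDerivAt (fun θ => k θ - (o.1 * (-sin θ) + o.2 * cos θ))
        ((ρ θ - h θ) - (o.1 * (-cos θ) + o.2 * (-sin θ))) θ := fun θ =>
      (hk θ).sub (((hasDerivAt_sin θ).neg.const_mul o.1).add
        ((hasDerivAt_cos θ).const_mul o.2))
    have hmin0 : IsLocalMin (W o) θ₀ := by
      apply Eventually.of_forall
      intro x
      show W o θ₀ ≤ W o x
      rw [hW0]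
      exact hoK x
    have hder0 := hmin0.hasDerivAt_eq_zero (hd1 θ₀)
    have hCb : ∀ x ∈ Icc θ₀ (θ₀ + 1), (ρ x - h x) - (o.1 * (-cos x) + o.2 * (-sin x)) ≤ C := by
      intro x hx
      have g1 := hRge x ⟨by linarith [hθ₀.1, hx.1], by linarith [hθ₀.2, hx.2]⟩
      have g2 := hpos x
      obtain ⟨b1, b2⟩ := hKbd o hoK
      have g3 : o.1 * cos x ≤ M := by
        calc o.1 * cos x ≤ |o.1 * cos x| := le_abs_self _
          _ = |o.1| * |cos x| := abs_mul _ _
          _ ≤ M * 1 := mul_le_mul b1 (abs_cos_le_one x) (abs_nonneg _) hMpos.le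
          _ = M := mul_one _
      have g4 : o.2 * sin x ≤ M := by
        calc o.2 * sin x ≤ |o.2 * sin x| := le_abs_self _
          _ = |o.2| * |sin x| := abs_mul _ _
          _ ≤ M * 1 := mul_le_mul b2 (abs_sin_le_one x) (abs_nonneg _) hMpos.le
          _ = M := mul_one _
      rw [hCdef]
      linarith
    have htay := centre_taylor hd1 hd2 hder0 hCb
    have hup : ∀ x ∈ Icc θ₀ (θ₀ + δ), W o x ≤ m * D := by
      intro x hx
      have hx' : x ∈ Icc θ₀ (θ₀ + 1) := ⟨hx.1, by linarith [hx.2]⟩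
      have := htay x hx'
      rw [hW0] at this
      have hx2 : (x - θ₀) ^ 2 ≤ m := by
        rw [hm]
        apply pow_le_pow_left₀ (by linarith [hx.1])
        linarith [hx.2]
      have : C * (x - θ₀) ^ 2 ≤ C * m := mul_le_mul_of_nonneg_left hx2 hCnn
      rw [hD]
      nlinarith
    have hWinv : Continuous fun θ => ((W o θ) ^ 2)⁻¹ := by
      refine Continuous.inv₀ ((hWc o).pow 2) ?_
      intro θ
      have := hoK θ
      have : 0 < W o θ := by linarith
      positivity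
    have hshift : ∫ θ in (0:ℝ)..(2 * π), ((W o θ) ^ 2)⁻¹ =
        ∫ θ in θ₀..(θ₀ + 2 * π), ((W o θ) ^ 2)⁻¹ := by
      have hp : Function.Periodic (fun θ => ((W o θ) ^ 2)⁻¹) (2 * π) := by
        intro θ
        show ((W o (θ + 2 * π)) ^ 2)⁻¹ = ((W o θ) ^ 2)⁻¹
        rw [hWper]
      have := hp.intervalIntegral_add_eq 0 θ₀
      simpa using this
    have hlow1 : ∫ θ in θ₀..(θ₀ + δ), ((W o θ) ^ 2)⁻¹ ≤
        ∫ θ in θ₀..(θ₀ + 2 * π), ((W o θ) ^ 2)⁻¹ := by
      apply intervalIntegral.integral_mono_interval le_rfl (by linarith) (by linarith)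
      · apply Eventually.of_forall
        intro θ
        show (0:ℝ) ≤ ((W o θ) ^ 2)⁻¹
        positivity
      · exact hWinv.intervalIntegrable _ _
    have hlow2 : δ * ((m * D) ^ 2)⁻¹ ≤ ∫ θ in θ₀..(θ₀ + δ), ((W o θ) ^ 2)⁻¹ := by
      have : ∫ _θ in θ₀..(θ₀ + δ), ((m * D) ^ 2)⁻¹ ≤ ∫ θ in θ₀..(θ₀ + δ), ((W o θ) ^ 2)⁻¹ := by
        apply intervalIntegral.integral_mono_on (by linarith) intervalIntegrable_const
          (hWinv.intervalIntegrable _ _)
        intro θ hθ
        have h1 := hoK θ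
        have h2 : 0 < W o θ := by linarith
        apply inv_anti₀ (by positivity)
        exact pow_le_pow_left₀ h2.le (hup θ hθ) 2
      simpa using this
    have hfin : δ * ((m * D) ^ 2)⁻¹ ≤ 2 * π * (μ ^ 2)⁻¹ := by
      calc δ * ((m * D) ^ 2)⁻¹ ≤ _ := hlow2
        _ ≤ _ := hlow1
        _ = Ψ o := by rw [hΨK o hoK, hshift]
        _ ≤ _ := hΨo.trans hΨ0
    rw [← div_eq_mul_inv, ← div_eq_mul_inv, div_le_div_iff₀ (by positivity) (by positivity)]
      at hfin
    -- `δ μ² ≤ 2π δ⁴ D²`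
    have h1 : δ * μ ^ 2 ≤ 2 * π * (δ ^ 2 * D) ^ 2 := hfin
    have h2 : μ ^ 2 ≤ 2 * π * (δ ^ 3 * D ^ 2) := by
      have : δ * μ ^ 2 ≤ δ * (2 * π * (δ ^ 3 * D ^ 2)) := by
        calc δ * μ ^ 2 ≤ 2 * π * (δ ^ 2 * D) ^ 2 := h1
          _ = δ * (2 * π * (δ ^ 3 * D ^ 2)) := by ring
      exact le_of_mul_le_mul_left this hδpos
    have h3 : δ ^ 3 ≤ δ := by
      calc δ ^ 3 = δ * δ ^ 2 := by ring
        _ ≤ δ * 1 := by
            apply mul_le_mul_of_nonneg_left _ hδpos.le
            nlinarith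
        _ = δ := mul_one _
    have h4 : 2 * π * (δ ^ 3 * D ^ 2) ≤ 2 * π * (δ * D ^ 2) := by
      apply mul_le_mul_of_nonneg_left _ (by positivity)
      exact mul_le_mul_of_nonneg_right h3 (by positivity)
    have h5 : 0 < δ * D ^ 2 := by positivity
    have h6 : 2 * π * (δ * D ^ 2) < 7 * (δ * D ^ 2) := by
      apply mul_lt_mul_of_pos_right _ h5
      linarith
    linarith
  -- room around the minimiser
  obtain ⟨y, hy, hy2⟩ := (isCompact_Icc (a := (0:ℝ)) (b := 2 * π)).exists_isMinOn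
    ⟨0, by constructor <;> linarith⟩ (hWc o).continuousOn
  have hyle : ∀ θ, W o y ≤ W o θ := by
    intro θ
    obtain ⟨θ', h1, h2⟩ := hred (W o) (hWper o) θ
    rw [← h2]; exact hy2 h1
  set ε := W o y - m with hε
  have hεpos : 0 < ε := by have := hstrict y; linarith
  have hroom : ∀ θ, m + ε ≤ W o θ := by
    intro θ
    have := hyle θ
    linarith
  refine ⟨o.1, o.2, fun θ => lt_of_lt_of_le hmpos (hoK θ), ?_, ?_⟩
  · apply centre_first_order (w := W o) (hWc o) continuous_cos abs_cos_le_one hmpos hεpos hroom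
    intro t ht
    have hmem : (o.1 + t, o.2) ∈ K := by
      intro θ
      have h1 := hroom θ
      have h2 : t * cos θ ≤ ε := by
        calc t * cos θ ≤ |t * cos θ| := le_abs_self _
          _ = |t| * |cos θ| := abs_mul _ _
          _ ≤ ε * 1 := mul_le_mul ht.le (abs_cos_le_one θ) (abs_nonneg _) hεpos.le
          _ = ε := mul_one _
      simp only [W] at h1 ⊢
      linarith
    have h1 : Ψ o ≤ Ψ (o.1 + t, o.2) := homin hmem
    rw [hΨK _ hoK, hΨK _ hmem] at h1
    have h2 : ∀ θ, W (o.1 + t, o.2) θ = W o θ - t * cos θ := by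
      intro θ
      simp only [W]
      ring
    simpa only [h2] using h1
  · apply centre_first_order (w := W o) (hWc o) continuous_sin abs_sin_le_one hmpos hεpos hroom
    intro t ht
    have hmem : (o.1, o.2 + t) ∈ K := by
      intro θ
      have h1 := hroom θ
      have h2 : t * sin θ ≤ ε := by
        calc t * sin θ ≤ |t * sin θ| := le_abs_self _
          _ = |t| * |sin θ| := abs_mul _ _
          _ ≤ ε * 1 := mul_le_mul ht.le (abs_sin_le_one θ) (abs_nonneg _) hεpos.le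
          _ = ε := mul_one _
      simp only [W] at h1 ⊢
      linarith
    have h1 : Ψ o ≤ Ψ (o.1, o.2 + t) := homin hmem
    rw [hΨK _ hoK, hΨK _ hmem] at h1
    have h2 : ∀ θ, W (o.1, o.2 + t) θ = W o θ - t * sin θ := by
      intro θ
      simp only [W]
      ring
    simpa only [h2] using h1

end Pool.Agent.MP_ae5b4e_an.Out
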