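import Mathlib

/-!
MP_ae5b4e_an, theorem on outer billiards (all `σ_p` are point reflections): common definitions.
-/

noncomputable section

namespace Pool.Agent.MP_ae5b4e_an.Out

open Real Set Filter Topology MeasureTheory

/-- One invariant curve of the outer billiard about the curve `γ` with the support function `h`
(`k = h'`, `ρ = h + h''`).  The point of the invariant curve on the tangent ray of `γ` at the angle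
`θ` has the distance `r θ` from the tangency point, and `τ θ` is the angle of the other tangent
line through this point. -/
structure Leaf (h k ρ r r' τ τ' : ℝ → ℝ) : Prop where
  h_deriv : ∀ θ, HasDerivAt h (k θ) θ
  k_deriv : ∀ θ, HasDerivAt k (ρ θ - h θ) θ
  ρ_cont : Continuous ρ
  ρ_pos : ∀ θ, 0 < ρ θ
  h_per : ∀ θ, h (θ + 2 * π) = h θ
  r_deriv : ∀ θ, HasDerivAt r (r' θ) θ
  r'_cont : Continuous r'
  τ_deriv : ∀ θ, HasDerivAt τ (τ' θ) θ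
  τ'_cont : Continuous τ'
  r_per : ∀ θ, r (θ + 2 * π) = r θ
  τ_per : ∀ θ, τ (θ + 2 * π) = τ θ + 2 * π
  r_pos : ∀ θ, 0 < r θ
  τ_mem : ∀ θ, τ θ ∈ Ioo θ (θ + π)
  eq_x : ∀ θ, h θ * cos θ - (k θ + r θ) * sin θ =
    h (τ θ) * cos (τ θ) - (k (τ θ) - r (τ θ)) * sin (τ θ)
  eq_y : ∀ θ, h θ * sin θ + (k θ + r θ) * cos θ =
    h (τ θ) * sin (τ θ) + (k (τ θ) - r (τ θ)) * cos (τ θ)

/-- A family of invariant curves of the outer billiard. -/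
structure Fam (h k ρ : ℝ → ℝ) (r τ : ℝ → ℝ → ℝ) : Prop where
  h_deriv : ∀ θ, HasDerivAt h (k θ) θ
  k_deriv : ∀ θ, HasDerivAt k (ρ θ - h θ) θ
  ρ_cont : Continuous ρ
  ρ_pos : ∀ θ, 0 < ρ θ
  h_per : ∀ θ, h (θ + 2 * π) = h θ
  r_smooth : ContDiffOn ℝ 1 (fun q : ℝ × ℝ => r q.1 q.2) (Ioo 0 1 ×ˢ univ)
  τ_smooth : ContDiffOn ℝ 1 (fun q : ℝ × ℝ => τ q.1 q.2) (Ioo 0 1 ×ˢ univ)
  r_per : ∀ c ∈ Ioo (0:ℝ) 1, ∀ θ, r c (θ + 2 * π) = r c θ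
  τ_per : ∀ c ∈ Ioo (0:ℝ) 1, ∀ θ, τ c (θ + 2 * π) = τ c θ + 2 * π
  r_pos : ∀ c ∈ Ioo (0:ℝ) 1, ∀ θ, 0 < r c θ
  τ_mem : ∀ c ∈ Ioo (0:ℝ) 1, ∀ θ, τ c θ ∈ Ioo θ (θ + π)
  r_mono : ∀ c ∈ Ioo (0:ℝ) 1, ∀ θ, 0 < deriv (fun x => r x θ) c
  r_lim : ∀ θ, Tendsto (fun c => r c θ) (𝓝[>] 0) (𝓝 0)
  eq_x : ∀ c ∈ Ioo (0:ℝ) 1, ∀ θ, h θ * cos θ - (k θ + r c θ) * sin θ =
    h (τ c θ) * cos (τ c θ) - (k (τ c θ) - r c (τ c θ)) * sin (τ c θ)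
  eq_y : ∀ c ∈ Ioo (0:ℝ) 1, ∀ θ, h θ * sin θ + (k θ + r c θ) * cos θ =
    h (τ c θ) * sin (τ c θ) + (k (τ c θ) - r c (τ c θ)) * cos (τ c θ)

/-- The integrand of the Hopf functional. -/
def GG (h k ρ : ℝ → ℝ) (r θ : ℝ) : ℝ :=
  2 * √(ρ θ / h θ) * arctan (r / √(ρ θ * h θ)) -
    (arctan ((k θ + r) / h θ) - arctan ((k θ - r) / h θ)) -
    k θ / h θ * (log (h θ ^ 2 + (k θ + r) ^ 2) / 2 - log (h θ ^ 2 + (k θ - r) ^ 2) / 2)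

/-- The Hopf functional of a leaf. -/
def EE (h k ρ r : ℝ → ℝ) : ℝ := ∫ θ in (0:ℝ)..(2 * π), GG h k ρ (r θ) θ

end Pool.Agent.MP_ae5b4e_an.Out
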