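import Mathlib

/-!
# Two primitives on the strip `0 < Im < π`
-/

noncomputable section

namespace Pool.Agent.MP_ae5b4e_an.Out

open Real Set Filter Topology MeasureTheory

/-- The open strip `0 < Im z < π`. -/
def primStrip : Set ℂ := {z : ℂ | 0 < z.im} ∩ {z : ℂ | z.im < π}

theorem primStrip_open : IsOpen primStrip :=
  (isOpen_lt continuous_const Complex.continuous_im).inter
    (isOpen_lt Complex.continuous_im continuous_const)

theorem primStrip_convex : Convex ℝ primStrip :=
  (convex_halfSpace_im_gt 0).inter (convex_halfSpace_im_lt π)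

theorem exists_primitive_of_differentiableOn {f : ℂ → ℂ}
    (hf : ∀ z : ℂ, 0 < z.im → z.im < π → DifferentiableAt ℂ f z) :
    ∃ F : ℂ → ℂ, ∀ z : ℂ, 0 < z.im → z.im < π → HasDerivAt F (f z) z := by
  obtain ⟨F, hF⟩ := primStrip_convex.exists_forall_hasDerivWithinAt (f := f)
    (fun z hz => (hf z hz.1 hz.2).differentiableWithinAt)
  exact ⟨F, fun z h1 h2 => (hF z ⟨h1, h2⟩).hasDerivAt (primStrip_open.mem_nhds ⟨h1, h2⟩)⟩

theorem exp_im_pos {z : ℂ} (h1 : 0 < z.im) (h2 : z.im < π) : 0 < (Complex.exp z).im := by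
  rw [Complex.exp_im]
  exact mul_pos (Real.exp_pos _) (Real.sin_pos_of_pos_of_lt_pi h1 h2)

theorem exists_primitive_one : ∃ F : ℂ → ℂ, ∀ U : ℂ, 0 < U.im → U.im < π →
    HasDerivAt F (U * Complex.exp U / (Complex.exp U - 1)) U := by
  refine exists_primitive_of_differentiableOn fun z h1 h2 => ?_
  have h3 := exp_im_pos h1 h2
  have h4 : Complex.exp z - 1 ≠ 0 := by
    intro h
    have := congrArg Complex.im h
    simp only [Complex.sub_im, Complex.one_im, sub_zero, Complex.zero_im] at this
    linarith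
  fun_prop (disch := exact h4)

theorem exists_primitive_two : ∃ G : ℂ → ℂ, ∀ A : ℂ, 0 < A.im → A.im < π →
    HasDerivAt G (Complex.log (-1 - Complex.exp (-A))) A := by
  refine exists_primitive_of_differentiableOn fun z h1 h2 => ?_
  have h3 : (-1 - Complex.exp (-z)) ∈ Complex.slitPlane := by
    rw [Complex.mem_slitPlane_iff]
    right
    rw [Complex.sub_im, Complex.exp_im, Complex.neg_im, Complex.neg_im, Real.sin_neg]
    have := mul_pos (Real.exp_pos (-z).re) (Real.sin_pos_of_pos_of_lt_pi h1 h2)
    simp only [Complex.one_im, neg_zero, zero_sub]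
    intro h
    linarith
  fun_prop (disch := exact h3)

end Pool.Agent.MP_ae5b4e_an.Out
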