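import Mathlib
import Pool.Agent.Lib.MP_ae5b4e_an.Out.Prim

/-!
MP_ae5b4e_an, theorem on outer billiards: the integral identity along a closed path of triangles.
-/

noncomputable section

namespace Pool.Agent.MP_ae5b4e_an.Out

open Real Set Filter Topology MeasureTheory

/-- real functions of a real variable, seen as complex valued -/
theorem hasDerivAt_mk {l a : ℝ → ℝ} {l' a' s : ℝ} (hl : HasDerivAt l l' s)
    (ha : HasDerivAt a a' s) :
    HasDerivAt (fun s => (l s : ℂ) + a s * Complex.I) ((l' : ℂ) + a' * Complex.I) s :=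
  hl.ofReal_comp.add (ha.ofReal_comp.mul_const Complex.I)

/-- logarithmic derivative of one side -/
theorem side_rel {S : ℝ} {w w0 : ℝ → ℂ} {w' w0' : ℂ} {P e t : ℝ → ℝ} {P' e' t' s : ℝ}
    (hw : HasDerivAt w w' s) (hw0 : HasDerivAt w0 w0' s) (hP : HasDerivAt P P' s)
    (he : HasDerivAt e e' s) (ht : HasDerivAt t t' s)
    (side : ∀ s, Complex.exp (w s) - Complex.exp (w0 s) =
      2 * Complex.I * S * Complex.exp (P s - e s + t s * Complex.I))
    (hne : Complex.exp (w s - w0 s) - 1 ≠ 0) :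
    (w' - w0') * (Complex.exp (w s - w0 s) / (Complex.exp (w s - w0 s) - 1)) =
      ((P' : ℂ) - e' + t' * Complex.I) - w0' := by
  have h1 : HasDerivAt (fun s => Complex.exp (w s) - Complex.exp (w0 s))
      (Complex.exp (w s) * w' - Complex.exp (w0 s) * w0') s :=
    hw.cexp.sub hw0.cexp
  have h2 : HasDerivAt (fun s => 2 * Complex.I * S * Complex.exp (P s - e s + t s * Complex.I))
      (2 * Complex.I * S * (Complex.exp (P s - e s + t s * Complex.I) *
        ((P' : ℂ) - e' + t' * Complex.I))) s := by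
    have h3 : HasDerivAt (fun s => ((P s : ℂ) - e s + t s * Complex.I))
        ((P' : ℂ) - e' + t' * Complex.I) s :=
      (hP.ofReal_comp.sub he.ofReal_comp).add (ht.ofReal_comp.mul_const Complex.I)
    exact h3.cexp.const_mul _
  have h4 : (fun s => Complex.exp (w s) - Complex.exp (w0 s)) =
      (fun s => 2 * Complex.I * S * Complex.exp (P s - e s + t s * Complex.I)) := funext side
  rw [h4] at h1
  have h5 := h1.unique h2
  have h6 : Complex.exp (w s) * w' - Complex.exp (w0 s) * w0' =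
      (Complex.exp (w s) - Complex.exp (w0 s)) * ((P' : ℂ) - e' + t' * Complex.I) := by
    rw [h5, side s]; ring
  have hE : Complex.exp (w s) = Complex.exp (w0 s) * Complex.exp (w s - w0 s) := by
    rw [← Complex.exp_add]; congr 1; ring
  have h0 : Complex.exp (w0 s) ≠ 0 := Complex.exp_ne_zero _
  rw [hE] at h6
  have h7 : Complex.exp (w s - w0 s) * w' - w0' =
      (Complex.exp (w s - w0 s) - 1) * ((P' : ℂ) - e' + t' * Complex.I) := by
    apply mul_left_cancel₀ h0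
    linear_combination h6
  rw [mul_div_assoc', div_eq_iff hne]
  linear_combination h7

/-- `exp U ≠ 1` in the strip -/
theorem exp_sub_one_ne {U : ℂ} (h0 : 0 < U.im) (h1 : U.im < π) : Complex.exp U - 1 ≠ 0 := by
  intro h
  have h2 : (Complex.exp U).im = 0 := by
    rw [sub_eq_zero] at h
    rw [h]; simp
  rw [Complex.exp_im] at h2
  have h3 : 0 < Real.sin U.im := Real.sin_pos_of_pos_of_lt_pi h0 h1
  have h4 : 0 < Real.exp U.re * Real.sin U.im := mul_pos (Real.exp_pos _) h3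
  exact absurd h2 h4.ne'

/-- the primitive along a path in the strip -/
theorem comp_prim {F f : ℂ → ℂ} {U : ℝ → ℂ} {U' : ℂ} {s : ℝ}
    (hF : HasDerivAt F (f (U s)) (U s)) (hU : HasDerivAt U U' s) :
    HasDerivAt (fun s => F (U s)) (f (U s) * U') s :=
  hF.comp s hU

theorem re_deriv {Φ : ℝ → ℂ} {Φ' : ℂ} {s : ℝ} (h : HasDerivAt Φ Φ' s) :
    HasDerivAt (fun s => (Φ s).re) Φ'.re s :=
  Complex.reCLM.hasFDerivAt.comp_hasDerivAt s h

set_option linter.unusedVariables false in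
/-- `l j + i a j` are the logarithms of the vertices `Z j` of a triangle, `n j = exp (-e j + i t j)`
the dual points of its sides, `exp (P j) = p j` the barycentric coordinates of the origin. -/
theorem dilog_identity {T S : ℝ} (hS : S ≠ 0)
    {l1 l2 l3 a1 a2 a3 e1 e2 e3 t1 t2 t3 P1 P2 P3 : ℝ → ℝ}
    {l1' l2' l3' a1' a2' a3' e1' e2' e3' t1' t2' t3' P1' P2' P3' : ℝ → ℝ}
    (dl1 : ∀ s, HasDerivAt l1 (l1' s) s) (dl2 : ∀ s, HasDerivAt l2 (l2' s) s)
    (dl3 : ∀ s, HasDerivAt l3 (l3' s) s)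
    (da1 : ∀ s, HasDerivAt a1 (a1' s) s) (da2 : ∀ s, HasDerivAt a2 (a2' s) s)
    (da3 : ∀ s, HasDerivAt a3 (a3' s) s)
    (de1 : ∀ s, HasDerivAt e1 (e1' s) s) (de2 : ∀ s, HasDerivAt e2 (e2' s) s)
    (de3 : ∀ s, HasDerivAt e3 (e3' s) s)
    (dt1 : ∀ s, HasDerivAt t1 (t1' s) s) (dt2 : ∀ s, HasDerivAt t2 (t2' s) s)
    (dt3 : ∀ s, HasDerivAt t3 (t3' s) s)
    (dP1 : ∀ s, HasDerivAt P1 (P1' s) s) (dP2 : ∀ s, HasDerivAt P2 (P2' s) s)
    (dP3 : ∀ s, HasDerivAt P3 (P3' s) s)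
    (cl1 : Continuous l1') (cl2 : Continuous l2') (cl3 : Continuous l3')
    (ca1 : Continuous a1') (ca2 : Continuous a2') (ca3 : Continuous a3')
    (ce1 : Continuous e1') (ce2 : Continuous e2') (ce3 : Continuous e3')
    (ct1 : Continuous t1') (ct2 : Continuous t2') (ct3 : Continuous t3')
    (cP1 : Continuous P1') (cP2 : Continuous P2') (cP3 : Continuous P3')
    -- the sides
    (side1 : ∀ s, Complex.exp (l1 s + a1 s * Complex.I) - Complex.exp (l3 s + a3 s * Complex.I) =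
      2 * Complex.I * S * Complex.exp (P1 s - e1 s + t1 s * Complex.I))
    (side2 : ∀ s, Complex.exp (l2 s + a2 s * Complex.I) - Complex.exp (l1 s + a1 s * Complex.I) =
      2 * Complex.I * S * Complex.exp (P2 s - e2 s + t2 s * Complex.I))
    (side3 : ∀ s, Complex.exp (l3 s + a3 s * Complex.I) - Complex.exp (l2 s + a2 s * Complex.I) =
      2 * Complex.I * S * Complex.exp (P3 s - e3 s + t3 s * Complex.I))
    -- the origin has the barycentric coordinates `p 1, p 2, p 3` opposite to the sides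
    (bary : ∀ s, Complex.exp (P3 s + l1 s + a1 s * Complex.I) +
      Complex.exp (P1 s + l2 s + a2 s * Complex.I) +
      Complex.exp (P2 s + l3 s + a3 s * Complex.I) = 0)
    (ang2 : ∀ s, a2 s - a1 s ∈ Ioo 0 π) (ang3 : ∀ s, a3 s - a2 s ∈ Ioo 0 π)
    (ang1 : ∀ s, a1 s + 2 * π - a3 s ∈ Ioo 0 π)
    (pl1 : l1 T = l1 0) (pl2 : l2 T = l2 0) (pl3 : l3 T = l3 0)
    (pa1 : a1 T = a1 0 + 2 * π) (pa2 : a2 T = a2 0 + 2 * π) (pa3 : a3 T = a3 0 + 2 * π)
    (pP1 : P1 T = P1 0) (pP2 : P2 T = P2 0) (pP3 : P3 T = P3 0) :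
    ∫ s in (0:ℝ)..T, ((a1 s + 2 * π - a3 s) * t1' s + (a2 s - a1 s) * t2' s +
        (a3 s - a2 s) * t3' s + (e1' s * (l1 s - l3 s) + e2' s * (l2 s - l1 s) +
        e3' s * (l3 s - l2 s))) =
      4 * π ^ 2 - ∫ s in (0:ℝ)..T, 1 / 2 * (P1' s * (P3 s - P2 s) + P2' s * (P1 s - P3 s) +
        P3' s * (P2 s - P1 s)) := by
  obtain ⟨F, hF⟩ := exists_primitive_one
  obtain ⟨G, hG⟩ := exists_primitive_two
  -- the logarithms of the vertices
  have dw1 : ∀ s, HasDerivAt (fun s => (l1 s : ℂ) + a1 s * Complex.I)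
    ((l1' s : ℂ) + a1' s * Complex.I) s := fun s => hasDerivAt_mk (dl1 s) (da1 s)
  have dw2 : ∀ s, HasDerivAt (fun s => (l2 s : ℂ) + a2 s * Complex.I)
    ((l2' s : ℂ) + a2' s * Complex.I) s := fun s => hasDerivAt_mk (dl2 s) (da2 s)
  have dw3 : ∀ s, HasDerivAt (fun s => (l3 s : ℂ) + a3 s * Complex.I)
    ((l3' s : ℂ) + a3' s * Complex.I) s := fun s => hasDerivAt_mk (dl3 s) (da3 s)
  -- the quotients
  set U1 : ℝ → ℂ := fun s => ((l1 s - l3 s : ℝ) : ℂ) + ((a1 s + 2 * π - a3 s : ℝ) : ℂ) * Complex.I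
    with hU1
  set U2 : ℝ → ℂ := fun s => ((l2 s - l1 s : ℝ) : ℂ) + ((a2 s - a1 s : ℝ) : ℂ) * Complex.I
    with hU2
  set U3 : ℝ → ℂ := fun s => ((l3 s - l2 s : ℝ) : ℂ) + ((a3 s - a2 s : ℝ) : ℂ) * Complex.I
    with hU3
  have dU1 : ∀ s, HasDerivAt U1 (((l1' s - l3' s : ℝ) : ℂ) + ((a1' s - a3' s : ℝ) : ℂ) *
      Complex.I) s := fun s =>
    hasDerivAt_mk ((dl1 s).sub (dl3 s)) (((da1 s).add_const _).sub (da3 s))
  have dU2 : ∀ s, HasDerivAt U2 (((l2' s - l1' s : ℝ) : ℂ) + ((a2' s - a1' s : ℝ) : ℂ) *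
      Complex.I) s := fun s => hasDerivAt_mk ((dl2 s).sub (dl1 s)) ((da2 s).sub (da1 s))
  have dU3 : ∀ s, HasDerivAt U3 (((l3' s - l2' s : ℝ) : ℂ) + ((a3' s - a2' s : ℝ) : ℂ) *
      Complex.I) s := fun s => hasDerivAt_mk ((dl3 s).sub (dl2 s)) ((da3 s).sub (da2 s))
  have iU1 : ∀ s, (U1 s).im = a1 s + 2 * π - a3 s := fun s => by simp [hU1]
  have iU2 : ∀ s, (U2 s).im = a2 s - a1 s := fun s => by simp [hU2]
  have iU3 : ∀ s, (U3 s).im = a3 s - a2 s := fun s => by simp [hU3]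
  have exp2pi : ∀ z : ℂ, Complex.exp (z + 2 * π * Complex.I) = Complex.exp z := fun z =>
    Complex.exp_periodic z
  have eU1 : ∀ s, Complex.exp (U1 s) =
      Complex.exp (((l1 s : ℂ) + a1 s * Complex.I) - ((l3 s : ℂ) + a3 s * Complex.I)) := by
    intro s
    rw [← exp2pi (((l1 s : ℂ) + a1 s * Complex.I) - ((l3 s : ℂ) + a3 s * Complex.I))]
    congr 1
    simp only [hU1]
    push_cast; ring
  have eU2 : ∀ s, Complex.exp (U2 s) =
      Complex.exp (((l2 s : ℂ) + a2 s * Complex.I) - ((l1 s : ℂ) + a1 s * Complex.I)) := by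
    intro s
    congr 1
    simp only [hU2]
    push_cast; ring
  have eU3 : ∀ s, Complex.exp (U3 s) =
      Complex.exp (((l3 s : ℂ) + a3 s * Complex.I) - ((l2 s : ℂ) + a2 s * Complex.I)) := by
    intro s
    congr 1
    simp only [hU3]
    push_cast; ring
  have nU1 : ∀ s, Complex.exp (U1 s) - 1 ≠ 0 := fun s =>
    exp_sub_one_ne (by rw [iU1]; exact (ang1 s).1) (by rw [iU1]; exact (ang1 s).2)
  have nU2 : ∀ s, Complex.exp (U2 s) - 1 ≠ 0 := fun s =>
    exp_sub_one_ne (by rw [iU2]; exact (ang2 s).1) (by rw [iU2]; exact (ang2 s).2)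
  have nU3 : ∀ s, Complex.exp (U3 s) - 1 ≠ 0 := fun s =>
    exp_sub_one_ne (by rw [iU3]; exact (ang3 s).1) (by rw [iU3]; exact (ang3 s).2)
  -- the derivatives of `F (U j)`
  have dF1 : ∀ s, HasDerivAt (fun s => F (U1 s))
      (U1 s * (((P1' s : ℂ) - e1' s + t1' s * Complex.I) - ((l3' s : ℂ) + a3' s * Complex.I))) s := by
    intro s
    have h1 := comp_prim (f := fun U => U * Complex.exp U / (Complex.exp U - 1))
      (hF (U1 s) (by rw [iU1]; exact (ang1 s).1) (by rw [iU1]; exact (ang1 s).2)) (dU1 s)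
    have h2 := side_rel (dw1 s) (dw3 s) (dP1 s) (de1 s) (dt1 s) side1
      (by rw [← eU1]; exact nU1 s)
    rw [← eU1] at h2
    rw [← h2]
    convert h1 using 1
    push_cast; ring
  have dF2 : ∀ s, HasDerivAt (fun s => F (U2 s))
      (U2 s * (((P2' s : ℂ) - e2' s + t2' s * Complex.I) - ((l1' s : ℂ) + a1' s * Complex.I))) s := by
    intro s
    have h1 := comp_prim (f := fun U => U * Complex.exp U / (Complex.exp U - 1))
      (hF (U2 s) (by rw [iU2]; exact (ang2 s).1) (by rw [iU2]; exact (ang2 s).2)) (dU2 s)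
    have h2 := side_rel (dw2 s) (dw1 s) (dP2 s) (de2 s) (dt2 s) side2
      (by rw [← eU2]; exact nU2 s)
    rw [← eU2] at h2
    rw [← h2]
    convert h1 using 1
    push_cast; ring
  have dF3 : ∀ s, HasDerivAt (fun s => F (U3 s))
      (U3 s * (((P3' s : ℂ) - e3' s + t3' s * Complex.I) - ((l2' s : ℂ) + a2' s * Complex.I))) s := by
    intro s
    have h1 := comp_prim (f := fun U => U * Complex.exp U / (Complex.exp U - 1))
      (hF (U3 s) (by rw [iU3]; exact (ang3 s).1) (by rw [iU3]; exact (ang3 s).2)) (dU3 s)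
    have h2 := side_rel (dw3 s) (dw2 s) (dP3 s) (de3 s) (dt3 s) side3
      (by rw [← eU3]; exact nU3 s)
    rw [← eU3] at h2
    rw [← h2]
    convert h1 using 1
    push_cast; ring
  -- the barycentric triangle
  set A : ℝ → ℂ := fun s => ((l1 s - l3 s + (P3 s - P2 s) : ℝ) : ℂ) +
    ((a1 s + 2 * π - a3 s : ℝ) : ℂ) * Complex.I with hA
  set B : ℝ → ℂ := fun s => ((l2 s - l1 s + (P1 s - P3 s) : ℝ) : ℂ) +
    ((a2 s - a1 s : ℝ) : ℂ) * Complex.I with hB
  set C : ℝ → ℂ := fun s => ((l3 s - l2 s + (P2 s - P1 s) : ℝ) : ℂ) +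
    ((a3 s - a2 s : ℝ) : ℂ) * Complex.I with hC
  have dA : ∀ s, HasDerivAt A (((l1' s - l3' s + (P3' s - P2' s) : ℝ) : ℂ) +
      ((a1' s - a3' s : ℝ) : ℂ) * Complex.I) s := fun s =>
    hasDerivAt_mk (((dl1 s).sub (dl3 s)).add ((dP3 s).sub (dP2 s)))
      (((da1 s).add_const _).sub (da3 s))
  have dC : ∀ s, HasDerivAt C (((l3' s - l2' s + (P2' s - P1' s) : ℝ) : ℂ) +
      ((a3' s - a2' s : ℝ) : ℂ) * Complex.I) s := fun s =>
    hasDerivAt_mk (((dl3 s).sub (dl2 s)).add ((dP2 s).sub (dP1 s))) ((da3 s).sub (da2 s))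
  have iA : ∀ s, (A s).im = a1 s + 2 * π - a3 s := fun s => by simp [hA]
  have iB : ∀ s, (B s).im = a2 s - a1 s := fun s => by simp [hB]
  have logB : ∀ s, Complex.log (-1 - Complex.exp (-(A s))) = B s := by
    intro s
    have h1 : Complex.exp (B s) = -1 - Complex.exp (-(A s)) := by
      have hb := bary s
      have hE : Complex.exp (P3 s + l1 s + a1 s * Complex.I) ≠ 0 := Complex.exp_ne_zero _
      apply mul_left_cancel₀ hE
      rw [mul_sub, ← Complex.exp_add, ← Complex.exp_add]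
      have h2 : (P3 s : ℂ) + l1 s + a1 s * Complex.I + B s = P1 s + l2 s + a2 s * Complex.I := by
        simp only [hB]; push_cast; ring
      have h3 : (P3 s : ℂ) + l1 s + a1 s * Complex.I + -(A s) + 2 * π * Complex.I =
          P2 s + l3 s + a3 s * Complex.I := by
        simp only [hA]; push_cast; ring
      rw [h2, ← exp2pi ((P3 s : ℂ) + l1 s + a1 s * Complex.I + -(A s)), h3]
      linear_combination hb
    rw [← h1, Complex.log_exp]
    · rw [iB]; linarith [(ang2 s).1, Real.pi_pos]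
    · rw [iB]; linarith [(ang2 s).2]
  have dG : ∀ s, HasDerivAt (fun s => G (A s)) (B s *
      (((l1' s - l3' s + (P3' s - P2' s) : ℝ) : ℂ) + ((a1' s - a3' s : ℝ) : ℂ) * Complex.I)) s := by
    intro s
    have h1 := comp_prim (f := fun A => Complex.log (-1 - Complex.exp (-A)))
      (hG (A s) (by rw [iA]; exact (ang1 s).1) (by rw [iA]; exact (ang1 s).2)) (dA s)
    simp only [logB] at h1
    exact h1
  have dCC : ∀ s, HasDerivAt (fun s => C s ^ 2 / 2) (C s *
      (((l3' s - l2' s + (P2' s - P1' s) : ℝ) : ℂ) + ((a3' s - a2' s : ℝ) : ℂ) * Complex.I)) s := by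
    intro s
    have h1 := ((dC s).pow 2).div_const 2
    refine h1.congr_deriv ?_
    push_cast; ring
  -- the primitive of the whole integrand
  have key : ∀ s, HasDerivAt (fun s => 2 * π * a3 s +
      (-(F (U1 s)) - F (U2 s) - F (U3 s) - G (A s) + C s ^ 2 / 2).re +
      (l1 s * (P1 s - P3 s) + l2 s * (P2 s - P1 s) + l3 s * (P3 s - P2 s) -
        (P1 s ^ 2 + P2 s ^ 2 + P3 s ^ 2) / 2 + (P1 s * P2 s + P2 s * P3 s + P3 s * P1 s) / 2))
      (((a1 s + 2 * π - a3 s) * t1' s + (a2 s - a1 s) * t2' s +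
        (a3 s - a2 s) * t3' s + (e1' s * (l1 s - l3 s) + e2' s * (l2 s - l1 s) +
        e3' s * (l3 s - l2 s))) + 1 / 2 * (P1' s * (P3 s - P2 s) + P2' s * (P1 s - P3 s) +
        P3' s * (P2 s - P1 s))) s := by
    intro s
    have h1 := re_deriv (((((dF1 s).neg.sub (dF2 s)).sub (dF3 s)).sub (dG s)).add (dCC s))
    have h2 := (da3 s).const_mul (2 * π)
    have h3 := ((((dl1 s).mul ((dP1 s).sub (dP3 s))).add
      ((dl2 s).mul ((dP2 s).sub (dP1 s)))).add ((dl3 s).mul ((dP3 s).sub (dP2 s))))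
    have h4 := ((((dP1 s).pow 2).add ((dP2 s).pow 2)).add ((dP3 s).pow 2)).div_const 2
    have h5 := ((((dP1 s).mul (dP2 s)).add ((dP2 s).mul (dP3 s))).add
      ((dP3 s).mul (dP1 s))).div_const 2
    have h6 := (h2.add h1).add ((h3.sub h4).add h5)
    refine (h6.congr_of_eventuallyEq (Eventually.of_forall fun x => ?_)).congr_deriv ?_
    · rfl
    simp only [hU1, hU2, hU3, hB, hC, Complex.add_re, Complex.sub_re, Complex.neg_re,
      Complex.mul_re, Complex.add_im, Complex.sub_im, Complex.mul_im, Complex.ofReal_re,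
      Complex.ofReal_im, Complex.I_re, Complex.I_im, Pi.sub_apply]
    push_cast
    ring
  have cc : ∀ {f f' : ℝ → ℝ}, (∀ s, HasDerivAt f (f' s) s) → Continuous f := fun h =>
    continuous_iff_continuousAt.2 fun s => (h s).continuousAt
  have kl1 := cc dl1
  have kl2 := cc dl2
  have kl3 := cc dl3
  have ka1 := cc da1
  have ka2 := cc da2
  have ka3 := cc da3
  have kP1 := cc dP1
  have kP2 := cc dP2
  have kP3 := cc dP3
  have I1 : Continuous (fun s => (a1 s + 2 * π - a3 s) * t1' s + (a2 s - a1 s) * t2' s +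
        (a3 s - a2 s) * t3' s + (e1' s * (l1 s - l3 s) + e2' s * (l2 s - l1 s) +
        e3' s * (l3 s - l2 s))) := by fun_prop
  have I2 : Continuous (fun s => 1 / 2 * (P1' s * (P3 s - P2 s) + P2' s * (P1 s - P3 s) +
        P3' s * (P2 s - P1 s))) := by fun_prop
  have hFTC := intervalIntegral.integral_eq_sub_of_hasDerivAt (a := 0) (b := T)
    (fun s _ => key s) ((I1.add I2).intervalIntegrable 0 T)
  have hsplit := intervalIntegral.integral_add (μ := volume) (a := 0) (b := T)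
    (I1.intervalIntegrable 0 T) (I2.intervalIntegrable 0 T)
  rw [hsplit] at hFTC
  have eU1T : U1 T = U1 0 := by simp only [hU1, pl1, pl3, pa1, pa3]; push_cast; ring
  have eU2T : U2 T = U2 0 := by simp only [hU2, pl1, pl2, pa1, pa2]; push_cast; ring
  have eU3T : U3 T = U3 0 := by simp only [hU3, pl2, pl3, pa2, pa3]; push_cast; ring
  have eAT : A T = A 0 := by simp only [hA, pl1, pl3, pa1, pa3, pP3, pP2]; push_cast; ring
  have eCT : C T = C 0 := by simp only [hC, pl2, pl3, pa2, pa3, pP2, pP1]; push_cast; ring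
  rw [eU1T, eU2T, eU3T, eAT, eCT, pl1, pl2, pl3, pa3, pP1, pP2, pP3] at hFTC
  linarith

end Pool.Agent.MP_ae5b4e_an.Out
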