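import Pool.Agent.Lib.MP_ae5b4e_an.Out.Defs

/-!
MP_ae5b4e_an, theorem on outer billiards, module Ellipse: the solutions of `h³ (h + h'') = A` and
the leaves of the family for such a curve.
-/

noncomputable section

namespace Pool.Agent.MP_ae5b4e_an.Out

open Real Set Filter Topology MeasureTheory

namespace Ell

theorem const_of_zero {f : ℝ → ℝ} (hf : ∀ θ, HasDerivAt f 0 θ) (θ : ℝ) : f θ = f 0 :=
  is_const_of_deriv_eq_zero (fun θ => (hf θ).differentiableAt) (fun θ => (hf θ).deriv) θ 0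

/-- solutions of `x'' = -x` -/
theorem osc {x y : ℝ → ℝ} (hx : ∀ θ, HasDerivAt x (y θ) θ) (hy : ∀ θ, HasDerivAt y (-x θ) θ)
    (θ : ℝ) : x θ = x 0 * cos θ + y 0 * sin θ := by
  have h1 : x θ * cos θ - y θ * sin θ = x 0 * cos 0 - y 0 * sin 0 := by
    refine const_of_zero (f := fun θ => x θ * cos θ - y θ * sin θ) (fun θ => ?_) θ
    have := ((hx θ).mul (hasDerivAt_cos θ)).sub ((hy θ).mul (hasDerivAt_sin θ))
    refine this.congr_deriv ?_
    ring
  have h2 : x θ * sin θ + y θ * cos θ = x 0 * sin 0 + y 0 * cos 0 := by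
    refine const_of_zero (f := fun θ => x θ * sin θ + y θ * cos θ) (fun θ => ?_) θ
    have := ((hx θ).mul (hasDerivAt_sin θ)).add ((hy θ).mul (hasDerivAt_cos θ))
    refine this.congr_deriv ?_
    ring
  simp only [cos_zero, sin_zero, mul_one, mul_zero, sub_zero, zero_add] at h1 h2
  have h3 := sin_sq_add_cos_sq θ
  linear_combination cos θ * h1 + sin θ * h2 - x θ * h3

/-- the angle function and its properties, with `s = √A` -/
theorem angle_aux {h k ρ : ℝ → ℝ} (hh : ∀ θ, HasDerivAt h (k θ) θ)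
    (hk : ∀ θ, HasDerivAt k (ρ θ - h θ) θ)
    (hpos : ∀ θ, 0 < h θ) {s : ℝ} (hs : 0 < s) (hell : ∀ θ, h θ ^ 3 * ρ θ = s ^ 2) :
    ∃ φ : ℝ → ℝ, φ 0 = 0 ∧ (∀ θ, HasDerivAt φ (s / h θ ^ 2) θ) ∧
      (∀ θ, φ (θ + π) = φ θ + π) ∧
      (∀ θ, h θ * cos (φ θ) = h 0 * cos θ + k 0 * sin θ) ∧
      (∀ θ, h θ * sin (φ θ) = s / h 0 * sin θ) := by
  have hhc : Continuous h := continuous_iff_continuousAt.2 fun θ => (hh θ).continuousAt
  have hc : Continuous fun θ => s / h θ ^ 2 :=
    continuous_const.div (hhc.pow 2) fun θ => (pow_pos (hpos θ) 2).ne'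
  set φ : ℝ → ℝ := fun θ => ∫ t in (0:ℝ)..θ, s / h t ^ 2 with hφdef
  have hφ0 : φ 0 = 0 := by simp [hφdef]
  have hφ : ∀ θ, HasDerivAt φ (s / h θ ^ 2) θ := fun θ =>
    (hc.integral_hasStrictDerivAt 0 θ).hasDerivAt
  have hρ : ∀ θ, ρ θ = s ^ 2 / h θ ^ 3 := fun θ => by
    rw [eq_div_iff (pow_pos (hpos θ) 3).ne', ← hell θ]
    ring
  -- first coordinate
  have h1 : ∀ θ, h θ * cos (φ θ) = h 0 * cos θ + k 0 * sin θ := by
    intro θ
    have := osc (x := fun θ => h θ * cos (φ θ))
      (y := fun θ => k θ * cos (φ θ) - s / h θ * sin (φ θ)) (fun θ => by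
        have h0 := (hpos θ).ne'
        have := (hh θ).mul (hφ θ).cos
        refine this.congr_deriv ?_
        field_simp
        ring) (fun θ => by
        have h0 := (hpos θ).ne'
        have d1 := (hk θ).mul (hφ θ).cos
        have d2 := ((hasDerivAt_const θ s).div (hh θ) h0).mul (hφ θ).sin
        have := d1.sub d2
        refine this.congr_deriv ?_
        rw [hρ]
        simp only [Pi.div_apply]
        field_simp
        ring) θ
    simpa [hφ0] using this
  have h2 : ∀ θ, h θ * sin (φ θ) = s / h 0 * sin θ := by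
    intro θ
    have := osc (x := fun θ => h θ * sin (φ θ))
      (y := fun θ => k θ * sin (φ θ) + s / h θ * cos (φ θ)) (fun θ => by
        have h0 := (hpos θ).ne'
        have := (hh θ).mul (hφ θ).sin
        refine this.congr_deriv ?_
        field_simp) (fun θ => by
        have h0 := (hpos θ).ne'
        have d1 := (hk θ).mul (hφ θ).sin
        have d2 := ((hasDerivAt_const θ s).div (hh θ) h0).mul (hφ θ).cos
        have := d1.add d2
        refine this.congr_deriv ?_
        rw [hρ]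
        simp only [Pi.div_apply]
        field_simp
        ring) θ
    simpa [hφ0] using this
  -- the angle at `π`
  have hmono : StrictMono φ := strictMono_of_deriv_pos fun θ => by
    rw [(hφ θ).deriv]
    have := hpos θ
    positivity
  have hφc : Continuous φ := continuous_iff_continuousAt.2 fun θ => (hφ θ).continuousAt
  have hs0 : 0 < s / h 0 := div_pos hs (hpos 0)
  have hφπ : φ π = π := by
    have hp : 0 < φ π := by
      have := hmono pi_pos
      rwa [hφ0] at this
    have hsin : sin (φ π) = 0 := by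
      have := h2 π
      rw [sin_pi, mul_zero] at this
      rcases mul_eq_zero.1 this with h | h
      · exact absurd h (hpos π).ne'
      · exact h
    rcases lt_trichotomy (φ π) π with hlt | heq | hgt
    · exact absurd hsin (sin_pos_of_pos_of_lt_pi hp hlt).ne'
    · exact heq
    · exfalso
      have hivt := intermediate_value_Ioo pi_pos.le hφc.continuousOn
      have : π ∈ Ioo (φ 0) (φ π) := ⟨by rw [hφ0]; exact pi_pos, hgt⟩
      obtain ⟨t, ht, hte⟩ := hivt this
      have h3 := h2 t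
      rw [hte, sin_pi, mul_zero] at h3
      have h4 := mul_pos hs0 (sin_pos_of_pos_of_lt_pi ht.1 ht.2)
      linarith
  have hsq : ∀ θ, h θ ^ 2 = (h 0 * cos θ + k 0 * sin θ) ^ 2 + (s / h 0 * sin θ) ^ 2 := by
    intro θ
    rw [← h1, ← h2]
    have := sin_sq_add_cos_sq (φ θ)
    linear_combination -(h θ ^ 2) * this
  have hshift : ∀ θ, φ (θ + π) = φ θ + π := by
    intro θ
    have := const_of_zero (f := fun θ => φ (θ + π) - φ θ) (fun θ => by
      have d1 : HasDerivAt (fun θ => φ (θ + π)) (s / h (θ + π) ^ 2) θ := by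
        have := (hφ (θ + π)).comp_add_const θ π
        exact this
      have := d1.sub (hφ θ)
      refine this.congr_deriv ?_
      rw [hsq (θ + π), hsq θ, cos_add_pi, sin_add_pi]
      ring) θ
    simp only [zero_add, hφ0, hφπ, sub_zero] at this
    linarith
  exact ⟨φ, hφ0, hφ, hshift, h1, h2⟩

end Ell

/-- solution of `h³ (h + h'') = A` -/
theorem ellipse_angle {h k ρ : ℝ → ℝ} (hh : ∀ θ, HasDerivAt h (k θ) θ)
    (hk : ∀ θ, HasDerivAt k (ρ θ - h θ) θ) (hper : ∀ θ, h (θ + 2 * π) = h θ)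
    (hpos : ∀ θ, 0 < h θ) {A : ℝ} (hA : 0 < A) (hell : ∀ θ, h θ ^ 3 * ρ θ = A) :
    ∃ φ : ℝ → ℝ, (∀ θ, HasDerivAt φ (√A / h θ ^ 2) θ) ∧ (∀ θ, φ (θ + π) = φ θ + π) ∧
      (∀ θ, h θ * cos (φ θ) = h 0 * cos θ + k 0 * sin θ) ∧
      (∀ θ, h θ * sin (φ θ) = √A / h 0 * sin θ) := by
  obtain ⟨φ, _, h1, h2, h3, h4⟩ := Ell.angle_aux hh hk hpos (sqrt_pos.2 hA)
    (fun θ => by rw [hell, sq_sqrt hA.le])
  exact ⟨φ, h1, h2, h3, h4⟩

theorem Fam.all_leaves {h k ρ : ℝ → ℝ} {r τ : ℝ → ℝ → ℝ} (B : Fam h k ρ r τ)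
    (hpos : ∀ θ, 0 < h θ) {A : ℝ} (hA : 0 < A) (hell : ∀ θ, h θ ^ 3 * ρ θ = A) {c : ℝ}
    (hc : c ∈ Ioo (0:ℝ) 1) (θ : ℝ) : h θ * r c θ = h 0 * r c 0 := by
  set s : ℝ := √A with hs
  have hs0 : 0 < s := sqrt_pos.2 hA
  have hell' : ∀ θ, h θ ^ 3 * ρ θ = s ^ 2 := fun θ => by rw [hell, hs, sq_sqrt hA.le]
  obtain ⟨φ, hφ0, hφ, hshift, h1, h2⟩ := Ell.angle_aux B.h_deriv B.k_deriv hpos hs0 hell'
  have hmono : StrictMono φ := strictMono_of_deriv_pos fun θ => by
    rw [(hφ θ).deriv]
    have := hpos θ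
    positivity
  have hh0 := (hpos 0).ne'
  -- the curve in the affine coordinates
  have cosθ : ∀ θ, s * cos θ = h θ * (s * cos (φ θ) - h 0 * k 0 * sin (φ θ)) / h 0 := by
    intro θ
    rw [eq_div_iff hh0]
    have e1 := h1 θ
    have e2 := h2 θ
    have e3 : h θ * sin (φ θ) * h 0 = s * sin θ := by
      rw [e2]
      field_simp
    linear_combination -s * e1 + k 0 * e3
  have sinθ : ∀ θ, s * sin θ = h θ * (h 0 * sin (φ θ)) := by
    intro θ
    have e2 := h2 θ
    have e3 : h θ * sin (φ θ) * h 0 = s * sin θ := by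
      rw [e2]
      field_simp
    linear_combination -e3
  have hρ : ∀ θ, ρ θ = s ^ 2 / h θ ^ 3 := fun θ => by
    rw [eq_div_iff (pow_pos (hpos θ) 3).ne', ← hell' θ]
    ring
  have g1 : ∀ θ, h θ * cos θ - k θ * sin θ = h 0 * cos (φ θ) := by
    intro θ
    have := Ell.const_of_zero (f := fun θ => h θ * cos θ - k θ * sin θ - h 0 * cos (φ θ))
      (fun θ => by
        have d := (((B.h_deriv θ).mul (hasDerivAt_cos θ)).sub
          ((B.k_deriv θ).mul (hasDerivAt_sin θ))).sub ((hφ θ).cos.const_mul (h 0))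
        refine d.congr_deriv ?_
        have e := sinθ θ
        have hn := (hpos θ).ne'
        rw [hρ θ]
        field_simp
        linear_combination -s * e) θ
    simp only [cos_zero, sin_zero, mul_one, mul_zero, sub_zero, hφ0, sub_self] at this
    linarith
  have g2 : ∀ θ, h θ * sin θ + k θ * cos θ = k 0 * cos (φ θ) + s / h 0 * sin (φ θ) := by
    intro θ
    have := Ell.const_of_zero
      (f := fun θ => h θ * sin θ + k θ * cos θ - (k 0 * cos (φ θ) + s / h 0 * sin (φ θ)))
      (fun θ => by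
        have d := (((B.h_deriv θ).mul (hasDerivAt_sin θ)).add
          ((B.k_deriv θ).mul (hasDerivAt_cos θ))).sub
          (((hφ θ).cos.const_mul (k 0)).add ((hφ θ).sin.const_mul (s / h 0)))
        refine d.congr_deriv ?_
        have e := cosθ θ
        have hn := (hpos θ).ne'
        rw [eq_div_iff hh0] at e
        rw [hρ θ]
        field_simp
        linear_combination s * e) θ
    simp only [cos_zero, sin_zero, mul_one, mul_zero, zero_add, add_zero, hφ0, sub_self] at this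
    linarith
  -- the affine distance
  set Y : ℝ → ℝ := fun θ => h θ * r c θ / s with hY
  have hYpos : ∀ θ, 0 < Y θ := fun θ => div_pos (mul_pos (hpos θ) (B.r_pos c hc θ)) hs0
  have hrY : ∀ θ, r c θ = s * Y θ / h θ := by
    intro θ
    have := (hpos θ).ne'
    rw [hY]
    field_simp
  have rsin : ∀ θ, r c θ * sin θ = Y θ * (h 0 * sin (φ θ)) := by
    intro θ
    have hn := (hpos θ).ne'
    have e := sinθ θ
    rw [hrY]
    field_simp
    linear_combination Y θ * e
  have rcos : ∀ θ, r c θ * cos θ = Y θ * (s / h 0 * cos (φ θ) - k 0 * sin (φ θ)) := by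
    intro θ
    have hn := (hpos θ).ne'
    have e := cosθ θ
    rw [eq_div_iff hh0] at e
    rw [hrY]
    field_simp
    linear_combination Y θ * e
  -- the relations between consecutive points
  have q1 : ∀ θ, cos (φ θ) - Y θ * sin (φ θ) =
      cos (φ (τ c θ)) + Y (τ c θ) * sin (φ (τ c θ)) := by
    intro θ
    have e := B.eq_x c hc θ
    have a1 := g1 θ
    have a2 := g1 (τ c θ)
    have a3 := rsin θ
    have a4 := rsin (τ c θ)
    have : h 0 * (cos (φ θ) - Y θ * sin (φ θ)) =
        h 0 * (cos (φ (τ c θ)) + Y (τ c θ) * sin (φ (τ c θ))) := by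
      linear_combination e - a1 + a2 + a3 + a4
    exact mul_left_cancel₀ hh0 this
  have q2 : ∀ θ, sin (φ θ) + Y θ * cos (φ θ) =
      sin (φ (τ c θ)) - Y (τ c θ) * cos (φ (τ c θ)) := by
    intro θ
    have e := B.eq_y c hc θ
    have a1 := g2 θ
    have a2 := g2 (τ c θ)
    have a3 := rcos θ
    have a4 := rcos (τ c θ)
    have b := q1 θ
    have hsh : s / h 0 ≠ 0 := (div_pos hs0 (hpos 0)).ne'
    have : s / h 0 * (sin (φ θ) + Y θ * cos (φ θ)) =
        s / h 0 * (sin (φ (τ c θ)) - Y (τ c θ) * cos (φ (τ c θ))) := by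
      linear_combination e - a1 + a2 - a3 - a4 - k 0 * b
    exact mul_left_cancel₀ hsh this
  have hYτ : ∀ θ, Y (τ c θ) = Y θ := by
    intro θ
    have b1 := q1 θ
    have b2 := q2 θ
    have t1 := sin_sq_add_cos_sq (φ θ)
    have t2 := sin_sq_add_cos_sq (φ (τ c θ))
    have e1 : (cos (φ θ) - Y θ * sin (φ θ)) ^ 2 + (sin (φ θ) + Y θ * cos (φ θ)) ^ 2 =
        1 + Y θ ^ 2 := by
      linear_combination (1 + Y θ ^ 2) * t1
    have e2 : (cos (φ (τ c θ)) + Y (τ c θ) * sin (φ (τ c θ))) ^ 2 +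
        (sin (φ (τ c θ)) - Y (τ c θ) * cos (φ (τ c θ))) ^ 2 = 1 + Y (τ c θ) ^ 2 := by
      linear_combination (1 + Y (τ c θ) ^ 2) * t2
    rw [b1, b2, e2] at e1
    have p1 := hYpos θ
    have p2 := hYpos (τ c θ)
    nlinarith
  have hφτ : ∀ θ, φ (τ c θ) = φ θ + 2 * arctan (Y θ) := by
    intro θ
    have b1 := q1 θ
    have b2 := q2 θ
    rw [hYτ θ] at b1 b2
    have hm := B.τ_mem c hc θ
    have u1 : φ θ < φ (τ c θ) := hmono hm.1
    have u2 : φ (τ c θ) < φ θ + π := by
      rw [← hshift]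
      exact hmono hm.2
    set ψ : ℝ := φ (τ c θ) - φ θ with hψ
    have hψ1 : 0 < ψ := by rw [hψ]; linarith
    have hψ2 : ψ < π := by rw [hψ]; linarith
    have hcosψ : cos ψ = cos (φ (τ c θ)) * cos (φ θ) + sin (φ (τ c θ)) * sin (φ θ) := by
      rw [hψ, cos_sub]
    have hsinψ : sin ψ = sin (φ (τ c θ)) * cos (φ θ) - cos (φ (τ c θ)) * sin (φ θ) := by
      rw [hψ, sin_sub]
    have t1 := sin_sq_add_cos_sq (φ θ)
    have e2 : Y θ = sin ψ - Y θ * cos ψ := by
      rw [hcosψ, hsinψ]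
      linear_combination -(sin (φ θ)) * b1 + cos (φ θ) * b2 - Y θ * t1
    have hhalf : sin ψ = 2 * sin (ψ / 2) * cos (ψ / 2) := by
      rw [← sin_two_mul]
      congr 1
      ring
    have hhalf2 : cos ψ = 2 * cos (ψ / 2) ^ 2 - 1 := by
      rw [← cos_two_mul]
      congr 1
      ring
    have hcpos : 0 < cos (ψ / 2) := cos_pos_of_mem_Ioo ⟨by linarith, by linarith⟩
    have e3 : Y θ * cos (ψ / 2) = sin (ψ / 2) := by
      have : 2 * cos (ψ / 2) * (Y θ * cos (ψ / 2)) = 2 * cos (ψ / 2) * sin (ψ / 2) := by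
        rw [hhalf, hhalf2] at e2
        linear_combination e2
      exact mul_left_cancel₀ (by positivity) this
    have e4 : Y θ = tan (ψ / 2) := by
      rw [tan_eq_sin_div_cos, eq_div_iff hcpos.ne', e3]
    have e5 : arctan (Y θ) = ψ / 2 := by
      rw [e4]
      exact arctan_tan (by linarith) (by linarith)
    rw [e5, hψ]
    ring
  -- the circle map is increasing
  have hτc : Continuous (τ c) := by
    have h3 : ContinuousOn (fun q : ℝ × ℝ => τ q.1 q.2) (Ioo 0 1 ×ˢ univ) := B.τ_smooth.continuousOn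
    have h4 : Continuous fun θ : ℝ => ((c, θ) : ℝ × ℝ) := by fun_prop
    exact h3.comp_continuous h4 fun θ => ⟨hc, mem_univ _⟩
  have hτinj : Function.Injective (τ c) := by
    intro a b hab
    have y1 : Y a = Y b := by rw [← hYτ a, ← hYτ b, hab]
    have y2 := hφτ a
    rw [hab, hφτ b, y1] at y2
    apply hmono.injective
    linarith
  have hτmono : StrictMono (τ c) := by
    rcases hτc.strictMono_of_inj hτinj with h3 | h3
    · exact h3
    · exfalso
      have h4 := h3 (show (0:ℝ) < 0 + 2 * π by positivity)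
      rw [B.τ_per c hc] at h4
      have := pi_pos
      linarith
  have horb : ∀ (n : ℕ) (θ : ℝ), Y ((τ c)^[n] θ) = Y θ ∧
      φ ((τ c)^[n] θ) = φ θ + n * (2 * arctan (Y θ)) := by
    intro n
    induction n with
    | zero => intro θ; simp
    | succ n ih =>
      intro θ
      rw [Function.iterate_succ_apply']
      obtain ⟨i1, i2⟩ := ih θ
      refine ⟨by rw [hYτ, i1], ?_⟩
      rw [hφτ, i1, i2]
      push_cast
      ring
  have hYper : ∀ θ, Y (θ + 2 * π) = Y θ := by
    intro θ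
    simp only [hY, B.h_per, B.r_per c hc]
  have hYper' : ∀ (m : ℕ) (θ : ℝ), Y (θ - m * (2 * π)) = Y θ := by
    intro m
    induction m with
    | zero => intro θ; simp
    | succ m ih =>
      intro θ
      rw [← ih θ, ← hYper (θ - ((m + 1 : ℕ) : ℝ) * (2 * π))]
      congr 1
      push_cast
      ring
  have hnlt : ∀ a b, ¬ Y a < Y b := by
    intro a b hab
    obtain ⟨m, hm⟩ := exists_nat_gt ((b - a) / (2 * π))
    have hle : b - m * (2 * π) ≤ a := by
      rw [div_lt_iff₀ (by positivity)] at hm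
      linarith
    have hit : ∀ n : ℕ, (τ c)^[n] (b - m * (2 * π)) ≤ (τ c)^[n] a := fun n =>
      (hτmono.monotone.iterate n) hle
    have hd : 0 < 2 * (arctan (Y b) - arctan (Y a)) := by
      have := arctan_strictMono hab
      linarith
    obtain ⟨n, hn⟩ := exists_nat_gt ((φ a - φ (b - m * (2 * π))) /
      (2 * (arctan (Y b) - arctan (Y a))))
    rw [div_lt_iff₀ hd] at hn
    have h5 := hmono.monotone (hit n)
    rw [(horb n _).2, (horb n _).2, hYper'] at h5
    linarith
  have hYc : Y θ = Y 0 := le_antisymm (not_lt.1 (hnlt 0 θ)) (not_lt.1 (hnlt θ 0))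
  have := hs0.ne'
  simp only [hY] at hYc
  field_simp at hYc
  exact hYc

end Pool.Agent.MP_ae5b4e_an.Out
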