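import Mathlib
import Pool.Agent.Lib.MP_ae5b4e_an.Out.Defs

/-!
MP_ae5b4e_an, theorem on outer billiards: the second tangent line through a point of a tangent
line, and the family of leaves.
-/

noncomputable section

namespace Pool.Agent.MP_ae5b4e_an.Out

open Real Set Filter Topology MeasureTheory

/-- the point of the tangent line at the angle `θ` at the signed distance `s` from the tangency
point -/
def pt (h k : ℝ → ℝ) (θ s : ℝ) : ℝ × ℝ :=
  (h θ * cos θ - (k θ + s) * sin θ, h θ * sin θ + (k θ + s) * cos θ)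

/-- `h` is the support function of a curve of positive curvature -/
structure Cur (h k ρ : ℝ → ℝ) : Prop where
  h_deriv : ∀ θ, HasDerivAt h (k θ) θ
  k_deriv : ∀ θ, HasDerivAt k (ρ θ - h θ) θ
  ρ_cont : Continuous ρ
  ρ_pos : ∀ θ, 0 < ρ θ
  h_per : ∀ θ, h (θ + 2 * π) = h θ

namespace Cur
variable {h k ρ : ℝ → ℝ}

lemma k_per (C : Cur h k ρ) (θ : ℝ) : k (θ + 2 * π) = k θ := by
  have h1 : HasDerivAt (fun t => h (t + 2 * π)) (k (θ + 2 * π)) θ := by
    simpa using (C.h_deriv (θ + 2 * π)).comp_add_const θ (2 * π)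
  have h2 : (fun t => h (t + 2 * π)) = h := funext C.h_per
  rw [h2] at h1
  exact h1.unique (C.h_deriv θ)

lemma W_pos (C : Cur h k ρ) (θ : ℝ) {D : ℝ} (h0 : 0 < D) (hD : D ≤ π) :
    0 < h (θ + D) - h θ * cos D - k θ * sin D := by
  have hd : ∀ u, HasDerivAt (fun u => h (θ + u) * cos (D - u) + k (θ + u) * sin (D - u))
      (ρ (θ + u) * sin (D - u)) u := by
    intro u
    have a1 : HasDerivAt (fun u => h (θ + u)) (k (θ + u)) u := by
      simpa using (C.h_deriv (θ + u)).comp_const_add θ u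
    have a2 : HasDerivAt (fun u => k (θ + u)) (ρ (θ + u) - h (θ + u)) u := by
      simpa using (C.k_deriv (θ + u)).comp_const_add θ u
    have a3 : HasDerivAt (fun u => D - u) (-1) u := by
      simpa using (hasDerivAt_id' u).const_sub D
    refine ((a1.mul a3.cos).add (a2.mul a3.sin)).congr_deriv ?_
    ring
  have hmono : StrictMonoOn (fun u => h (θ + u) * cos (D - u) + k (θ + u) * sin (D - u))
      (Icc 0 D) := by
    refine strictMonoOn_of_deriv_pos (convex_Icc 0 D)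
      (fun u _ => (hd u).continuousAt.continuousWithinAt) fun u hu => ?_
    rw [interior_Icc] at hu
    rw [(hd u).deriv]
    exact mul_pos (C.ρ_pos _) (Real.sin_pos_of_pos_of_lt_pi (by linarith [hu.2])
      (by linarith [hu.1]))
  have := hmono (left_mem_Icc.2 h0.le) (right_mem_Icc.2 h0.le) h0
  simp only [add_zero, sub_zero, sub_self, cos_zero, sin_zero, mul_one, mul_zero] at this
  linarith

lemma V_pos (C : Cur h k ρ) (θ : ℝ) {D : ℝ} (h0 : 0 < D) (hD : D ≤ π) :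
    0 < h θ - h (θ + D) * cos D + k (θ + D) * sin D := by
  have hd : ∀ u, HasDerivAt (fun u => h (θ + u) * cos u - k (θ + u) * sin u)
      (-(ρ (θ + u) * sin u)) u := by
    intro u
    have a1 : HasDerivAt (fun u => h (θ + u)) (k (θ + u)) u := by
      simpa using (C.h_deriv (θ + u)).comp_const_add θ u
    have a2 : HasDerivAt (fun u => k (θ + u)) (ρ (θ + u) - h (θ + u)) u := by
      simpa using (C.k_deriv (θ + u)).comp_const_add θ u
    refine ((a1.mul (Real.hasDerivAt_cos u)).sub (a2.mul (Real.hasDerivAt_sin u))).congr_deriv ?_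
    ring
  have hmono : StrictAntiOn (fun u => h (θ + u) * cos u - k (θ + u) * sin u) (Icc 0 D) := by
    refine strictAntiOn_of_deriv_neg (convex_Icc 0 D)
      (fun u _ => (hd u).continuousAt.continuousWithinAt) fun u hu => ?_
    rw [interior_Icc] at hu
    rw [(hd u).deriv, neg_lt_zero]
    exact mul_pos (C.ρ_pos _) (Real.sin_pos_of_pos_of_lt_pi (by linarith [hu.1])
      (by linarith [hu.2]))
  have := hmono (left_mem_Icc.2 h0.le) (right_mem_Icc.2 h0.le) h0
  simp only [add_zero, cos_zero, sin_zero, mul_one, mul_zero] at this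
  linarith

/-- the equation for the angle between the two tangent lines -/
def eqn (h k : ℝ → ℝ) (θ s D : ℝ) : ℝ := h (θ + D) - h θ * cos D - (k θ + s) * sin D

lemma hasDerivAt_eqn (C : Cur h k ρ) (θ s D : ℝ) :
    HasDerivAt (eqn h k θ s) (k (θ + D) + h θ * sin D - (k θ + s) * cos D) D := by
  have a1 : HasDerivAt (fun u => h (θ + u)) (k (θ + D)) D := by
    simpa using (C.h_deriv (θ + D)).comp_const_add θ D
  unfold eqn
  refine ((a1.sub ((Real.hasDerivAt_cos D).const_mul (h θ))).sub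
    ((Real.hasDerivAt_sin D).const_mul (k θ + s))).congr_deriv ?_
  ring

lemma exists_D (C : Cur h k ρ) (θ : ℝ) {s : ℝ} (hs : 0 < s) :
    ∃ D, D ∈ Ioo 0 π ∧ eqn h k θ s D = 0 := by
  have h1 : 0 < eqn h k θ s π := by
    have := C.W_pos θ pi_pos le_rfl
    unfold eqn
    rw [sin_pi, mul_zero, sub_zero]
    rw [sin_pi, mul_zero, sub_zero] at this
    exact this
  have h2 := (C.hasDerivAt_eqn θ s 0).tendsto_slope_zero_right
  have h3 : k (θ + 0) + h θ * sin 0 - (k θ + s) * cos 0 = -s := by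
    rw [add_zero, sin_zero, cos_zero]; ring
  rw [h3] at h2
  have h4 : eqn h k θ s 0 = 0 := by
    unfold eqn
    rw [add_zero, sin_zero, cos_zero]; ring
  have h5 := h2.eventually (gt_mem_nhds (show -s < 0 by linarith))
  obtain ⟨t, ht1, ht2⟩ := (h5.and (Ioo_mem_nhdsGT pi_pos)).exists
  rw [zero_add, h4, sub_zero, smul_eq_mul] at ht1
  have ht3 : eqn h k θ s t < 0 := by
    have := ht2.1
    by_contra hcon
    have : 0 ≤ t⁻¹ * eqn h k θ s t := mul_nonneg (by positivity) (not_lt.1 hcon)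
    linarith
  have hc : ContinuousOn (eqn h k θ s) (Icc t π) :=
    fun u _ => (C.hasDerivAt_eqn θ s u).continuousAt.continuousWithinAt
  obtain ⟨D, hD, hD0⟩ := intermediate_value_Icc ht2.2.le hc ⟨ht3.le, h1.le⟩
  refine ⟨D, ⟨lt_of_lt_of_le ht2.1 hD.1, lt_of_le_of_ne hD.2 ?_⟩, hD0⟩
  rintro rfl
  linarith

lemma unique_D (C : Cur h k ρ) (θ : ℝ) {s D D' : ℝ} (hD : D ∈ Ioo 0 π) (hD' : D' ∈ Ioo 0 π)
    (h1 : eqn h k θ s D = 0) (h2 : eqn h k θ s D' = 0) : D = D' := by
  have hsin : ∀ u ∈ Ioo (0:ℝ) π, 0 < sin u := fun u hu => Real.sin_pos_of_pos_of_lt_pi hu.1 hu.2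
  have hd : ∀ u ∈ Ioo (0:ℝ) π, HasDerivAt (fun u => eqn h k θ s u / sin u)
      ((h θ - h (θ + u) * cos u + k (θ + u) * sin u) / sin u ^ 2) u := by
    intro u hu
    refine ((C.hasDerivAt_eqn θ s u).div (Real.hasDerivAt_sin u) (hsin u hu).ne').congr_deriv ?_
    congr 1
    unfold eqn
    linear_combination h θ * sin_sq_add_cos_sq u
  have hmono : StrictMonoOn (fun u => eqn h k θ s u / sin u) (Ioo 0 π) := by
    refine strictMonoOn_of_deriv_pos (convex_Ioo 0 π)
      (fun u hu => (hd u hu).continuousAt.continuousWithinAt) fun u hu => ?_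
    rw [interior_Ioo] at hu
    rw [(hd u hu).deriv]
    exact div_pos (C.V_pos θ hu.1 hu.2.le) (pow_pos (hsin u hu) 2)
  refine hmono.injOn hD hD' ?_
  simp only [h1, h2, zero_div]

/-- the second tangent line -/
lemma second (C : Cur h k ρ) (θ : ℝ) {s D : ℝ} (hD : D ∈ Ioo 0 π) (h1 : eqn h k θ s D = 0) :
    ∃ s', s' < 0 ∧ pt h k θ s = pt h k (θ + D) s' ∧
      s' = -(k (θ + D) + h θ * sin D - (k θ + s) * cos D) := by
  have hsin : 0 < sin D := Real.sin_pos_of_pos_of_lt_pi hD.1 hD.2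
  have hV := C.V_pos θ hD.1 hD.2.le
  refine ⟨_, ?_, ?_, rfl⟩
  · rw [neg_lt_zero]
    have e : (k (θ + D) + h θ * sin D - (k θ + s) * cos D) * sin D =
        h θ - h (θ + D) * cos D + k (θ + D) * sin D := by
      unfold eqn at h1
      linear_combination cos D * h1 + h θ * sin_sq_add_cos_sq D
    rw [← e] at hV
    exact (mul_pos_iff_of_pos_right hsin).1 hV
  · unfold eqn at h1
    have e1 : h (θ + D) = h θ * cos D + (k θ + s) * sin D := by linarith
    unfold pt
    rw [e1]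
    have s1 := sin_sq_add_cos_sq D
    ext
    · simp only
      rw [cos_add, sin_add]
      linear_combination (-(h θ * cos θ) + (k θ + s) * sin θ) * s1
    · simp only
      rw [cos_add, sin_add]
      linear_combination (-(h θ * sin θ) - (k θ + s) * cos θ) * s1

/-- the angle between the two tangent lines -/
def Dfun (h k : ℝ → ℝ) (θ s : ℝ) : ℝ :=
  Classical.epsilon fun D => D ∈ Ioo 0 π ∧ eqn h k θ s D = 0

lemma Dfun_spec (C : Cur h k ρ) (θ : ℝ) {s : ℝ} (hs : 0 < s) :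
    Dfun h k θ s ∈ Ioo 0 π ∧ eqn h k θ s (Dfun h k θ s) = 0 :=
  Classical.epsilon_spec (C.exists_D θ hs)

lemma Dfun_unique (C : Cur h k ρ) (θ : ℝ) {s D : ℝ} (hs : 0 < s) (hD : D ∈ Ioo 0 π)
    (h1 : eqn h k θ s D = 0) : Dfun h k θ s = D :=
  C.unique_D θ (C.Dfun_spec θ hs).1 hD (C.Dfun_spec θ hs).2 h1

lemma contDiff_h (C : Cur h k ρ) : ContDiff ℝ 1 h := by
  rw [contDiff_one_iff_deriv]
  refine ⟨fun t => (C.h_deriv t).differentiableAt, ?_⟩
  have : deriv h = k := funext fun t => (C.h_deriv t).deriv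
  rw [this]
  exact continuous_iff_continuousAt.2 fun t => (C.k_deriv t).continuousAt

lemma contDiff_k (C : Cur h k ρ) : ContDiff ℝ 1 k := by
  rw [contDiff_one_iff_deriv]
  refine ⟨fun t => (C.k_deriv t).differentiableAt, ?_⟩
  have : deriv k = fun t => ρ t - h t := funext fun t => (C.k_deriv t).deriv
  rw [this]
  exact C.ρ_cont.sub (continuous_iff_continuousAt.2 fun t => (C.h_deriv t).continuousAt)

lemma Dfun_smooth (C : Cur h k ρ) (θ : ℝ) {s : ℝ} (hs : 0 < s) :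
    ContDiffAt ℝ 1 (fun q : ℝ × ℝ => Dfun h k q.1 q.2) (θ, s) := by
  obtain ⟨hD, hE⟩ := C.Dfun_spec θ hs
  obtain ⟨D, hDd⟩ : ∃ D, D = Dfun h k θ s := ⟨_, rfl⟩
  rw [← hDd] at hD hE
  obtain ⟨f, hf⟩ : ∃ f : (ℝ × ℝ) × ℝ → ℝ, f = fun v => h (v.1.1 + v.2) - h v.1.1 * cos v.2 -
      (k v.1.1 + v.1.2) * sin v.2 := ⟨_, rfl⟩
  have hfe : ∀ a b c, f ((a, b), c) = eqn h k a b c := fun a b c => by rw [hf]; rfl
  have ch := C.contDiff_h
  have ck := C.contDiff_k
  have cf : ContDiff ℝ 1 f := by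
    rw [hf]
    fun_prop
  have cfa : ContDiffAt ℝ 1 f ((θ, s), D) := cf.contDiffAt
  obtain ⟨s', hs', -, hs''⟩ := C.second θ hD hE
  have hval : (fderiv ℝ f ((θ, s), D)) (0, 1) = -s' := by
    have h1 : HasFDerivAt f (fderiv ℝ f ((θ, s), D)) ((θ, s), D) :=
      (cf.differentiable one_ne_zero _).hasFDerivAt
    have h2 : HasDerivAt (fun t : ℝ => (((θ, s), t) : (ℝ × ℝ) × ℝ)) (0, 1) D :=
      (hasDerivAt_const D ((θ, s) : ℝ × ℝ)).prodMk (hasDerivAt_id' D)
    have h3 := h1.comp_hasDerivAt D h2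
    have h4 : (f ∘ fun t : ℝ => (((θ, s), t) : (ℝ × ℝ) × ℝ)) = eqn h k θ s :=
      funext fun t => hfe θ s t
    rw [h4] at h3
    rw [h3.unique (C.hasDerivAt_eqn θ s D), hs'']
    ring
  have hinv : (fderiv ℝ f ((θ, s), D) ∘L .inr ℝ (ℝ × ℝ) ℝ).IsInvertible := by
    refine ⟨ContinuousLinearEquiv.unitsEquivAut ℝ (Units.mk0 (-s') (by linarith)), ?_⟩
    ext
    simp [hval]
  have e1 := cfa.eventually_apply_implicitFunction one_ne_zero hinv
  have e2 := cfa.contDiffAt_implicitFunction one_ne_zero hinv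
  have e3 := cfa.implicitFunction_apply_self one_ne_zero hinv
  refine e2.congr_of_eventuallyEq ?_
  have e4 : ∀ᶠ x in 𝓝 ((θ, s) : ℝ × ℝ), cfa.implicitFunction one_ne_zero hinv x ∈ Ioo 0 π := by
    refine e2.continuousAt.eventually_mem (isOpen_Ioo.mem_nhds ?_)
    rw [e3]
    exact hD
  have e5 : ∀ᶠ x in 𝓝 ((θ, s) : ℝ × ℝ), 0 < x.2 :=
    continuousAt_snd.eventually_const_lt hs
  filter_upwards [e1, e4, e5] with x x1 x2 x3
  refine C.Dfun_unique x.1 x3 x2 ?_
  rw [hfe, hfe] at x1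
  rw [x1, hE]

lemma Dfun_per (C : Cur h k ρ) (θ : ℝ) {s : ℝ} (hs : 0 < s) :
    Dfun h k (θ + 2 * π) s = Dfun h k θ s := by
  obtain ⟨h1, h2⟩ := C.Dfun_spec θ hs
  refine C.Dfun_unique _ hs h1 ?_
  unfold eqn at h2 ⊢
  rw [show θ + 2 * π + Dfun h k θ s = θ + Dfun h k θ s + 2 * π by ring, C.h_per, C.h_per, C.k_per]
  exact h2

lemma pt_per (C : Cur h k ρ) (θ s : ℝ) : pt h k (θ + 2 * π) s = pt h k θ s := by
  unfold pt
  rw [C.h_per, C.k_per, cos_add_two_pi, sin_add_two_pi]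

/-- a point of the tangent line at `θ` which lies on the tangent line at `θ'` -/
lemma eqn_of_pt {θ θ' s s' : ℝ} (he : pt h k θ s = pt h k θ' s') :
    eqn h k θ s (θ' - θ) = 0 := by
  unfold pt at he
  have h1 := congrArg Prod.fst he
  have h2 := congrArg Prod.snd he
  simp only at h1 h2
  unfold eqn
  rw [add_sub_cancel, cos_sub, sin_sub]
  linear_combination (-cos θ') * h1 + (-sin θ') * h2 - h θ' * sin_sq_add_cos_sq θ'

/-- the next tangency angle is determined by the leaf -/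
lemma next_unique (C : Cur h k ρ) {θ θ' s s' : ℝ} (hs : 0 < s) (h1 : θ < θ')
    (h2 : θ' < θ + 2 * π) (he : pt h k θ s = pt h k θ' s') : θ + Dfun h k θ s = θ' := by
  have e1 := eqn_of_pt he
  have hD : θ' - θ ∈ Ioo 0 π := by
    refine ⟨by linarith, ?_⟩
    by_contra hcon
    have hcon : π ≤ θ' - θ := not_lt.1 hcon
    obtain ⟨E, hE⟩ : ∃ E, E = 2 * π - (θ' - θ) := ⟨_, rfl⟩
    have hE0 : 0 < E := by linarith
    have hE1 : E ≤ π := by linarith
    have hv := C.V_pos (θ - E) hE0 hE1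
    have hsE : 0 ≤ sin E := Real.sin_nonneg_of_nonneg_of_le_pi hE0.le hE1
    have e2 : θ' - θ = -E + 2 * π := by rw [hE]; ring
    unfold eqn at e1
    rw [e2, sin_add_two_pi, cos_add_two_pi, sin_neg, cos_neg,
      show θ + (-E + 2 * π) = (θ - E) + 2 * π by ring, C.h_per] at e1
    rw [sub_add_cancel] at hv
    have := mul_nonneg hs.le hsE
    nlinarith
  rw [C.Dfun_unique θ hs hD e1]
  ring

end Cur

/-- The family of leaves from the leaves given as sets. -/
theorem Cur.fam {h k ρ : ℝ → ℝ} (C : Cur h k ρ) {L : ℝ → Set (ℝ × ℝ)} {r : ℝ → ℝ → ℝ}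
    (r_smooth : ContDiffOn ℝ 1 (fun q : ℝ × ℝ => r q.1 q.2) (Ioo 0 1 ×ˢ univ))
    (r_pos : ∀ c ∈ Ioo (0:ℝ) 1, ∀ θ, 0 < r c θ)
    (r_mono : ∀ c ∈ Ioo (0:ℝ) 1, ∀ θ, 0 < deriv (fun x => r x θ) c)
    (r_lim : ∀ θ, Tendsto (fun c => r c θ) (𝓝[>] 0) (𝓝 0))
    (meets : ∀ c ∈ Ioo (0:ℝ) 1, ∀ θ s, pt h k θ s ∈ L c ↔ s = r c θ ∨ s = -(r c θ)) :
    Fam h k ρ r (fun c θ => θ + Cur.Dfun h k θ (r c θ)) := by
  have key : ∀ c ∈ Ioo (0:ℝ) 1, ∀ θ, pt h k θ (r c θ) =
      pt h k (θ + Cur.Dfun h k θ (r c θ)) (-(r c (θ + Cur.Dfun h k θ (r c θ)))) := by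
    intro c hc θ
    obtain ⟨hD, hE⟩ := C.Dfun_spec θ (r_pos c hc θ)
    obtain ⟨s', hs', hs1, -⟩ := C.second θ hD hE
    have h1 : pt h k θ (r c θ) ∈ L c := (meets c hc θ _).2 (Or.inl rfl)
    rw [hs1] at h1
    have h2 := (meets c hc _ _).1 h1
    rcases h2 with h2 | h2
    · have := r_pos c hc (θ + Cur.Dfun h k θ (r c θ))
      linarith
    · rw [hs1, h2]
  have r_per : ∀ c ∈ Ioo (0:ℝ) 1, ∀ θ, r c (θ + 2 * π) = r c θ := by
    intro c hc θ
    have h1 : pt h k θ (r c θ) ∈ L c := (meets c hc θ _).2 (Or.inl rfl)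
    rw [← C.pt_per] at h1
    have h2 := (meets c hc _ _).1 h1
    have := r_pos c hc θ
    have := r_pos c hc (θ + 2 * π)
    rcases h2 with h2 | h2 <;> linarith
  exact
  { h_deriv := C.h_deriv
    k_deriv := C.k_deriv
    ρ_cont := C.ρ_cont
    ρ_pos := C.ρ_pos
    h_per := C.h_per
    r_smooth := r_smooth
    τ_smooth := by
      refine contDiffOn_snd.add ?_
      intro q hq
      have h1 : ContDiffAt ℝ 1 (fun q : ℝ × ℝ => Cur.Dfun h k q.1 q.2) (q.2, r q.1 q.2) :=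
        C.Dfun_smooth q.2 (r_pos q.1 hq.1 q.2)
      have h2 : ContDiffWithinAt ℝ 1 (fun q : ℝ × ℝ => (q.2, r q.1 q.2)) (Ioo 0 1 ×ˢ univ) q :=
        contDiffWithinAt_snd.prodMk (r_smooth q hq)
      exact ContDiffAt.comp_contDiffWithinAt (g := fun q : ℝ × ℝ => Cur.Dfun h k q.1 q.2)
        (f := fun q : ℝ × ℝ => (q.2, r q.1 q.2)) q h1 h2
    r_per := r_per
    τ_per := fun c hc θ => by
      rw [r_per c hc, C.Dfun_per θ (r_pos c hc θ)]
      ring
    r_pos := r_pos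
    τ_mem := fun c hc θ => by
      have := (C.Dfun_spec θ (r_pos c hc θ)).1
      constructor <;> [linarith [this.1]; linarith [this.2]]
    r_mono := r_mono
    r_lim := r_lim
    eq_x := fun c hc θ => by
      have := congrArg Prod.fst (key c hc θ)
      simp only [pt] at this
      rw [sub_eq_add_neg (k _) (r c _)]
      exact this
    eq_y := fun c hc θ => by
      have := congrArg Prod.snd (key c hc θ)
      simp only [pt] at this
      rw [sub_eq_add_neg (k _) (r c _)]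
      exact this }

end Pool.Agent.MP_ae5b4e_an.Out
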