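import Mathlib
import Pool.Agent.Lib.MP_ae5b4e_an.Birk.Hopf
import Pool.Agent.Lib.MP_ae5b4e_an.Out.Defs

/-!
MP_ae5b4e_an, theorem on outer billiards: relations along one leaf and in the family.
-/

noncomputable section

namespace Pool.Agent.MP_ae5b4e_an.Out

open Real Set Filter Topology MeasureTheory
open Pool.Agent.MP_ae5b4e_an.Birk.Hopf

/-- `z × dz` at the vertex ahead -/
def Xp (h k ρ r r' : ℝ → ℝ) (θ : ℝ) : ℝ := h θ * (ρ θ + r' θ) + (k θ + r θ) * r θ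

/-- `z × dz` at the vertex behind -/
def Xm (h k ρ r r' : ℝ → ℝ) (θ : ℝ) : ℝ := h θ * (ρ θ - r' θ) - (k θ - r θ) * r θ

lemma deriv_per' {f f' : ℝ → ℝ} {T : ℝ} (hf : ∀ θ, HasDerivAt f (f' θ) θ) {a : ℝ}
    (hper : ∀ θ, f (θ + T) = f θ + a) (θ : ℝ) : f' (θ + T) = f' θ := by
  have h1 : HasDerivAt (fun t => f (t + T)) (f' (θ + T)) θ := by
    simpa using (hf (θ + T)).comp_add_const θ T
  have h2 : HasDerivAt (fun t => f (t + T)) (f' θ) θ := by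
    have : (fun t => f (t + T)) = fun t => f t + a := funext hper
    rw [this]
    exact (hf θ).add_const a
  exact h1.unique h2

namespace Leaf
variable {h k ρ r r' τ τ' : ℝ → ℝ}

theorem h_tau (L : Leaf h k ρ r r' τ τ') (θ : ℝ) :
    h (τ θ) = h θ * cos (τ θ - θ) + (k θ + r θ) * sin (τ θ - θ) := by
  rw [cos_sub, sin_sub]
  linear_combination (-cos (τ θ)) * L.eq_x θ + (-sin (τ θ)) * L.eq_y θ -
    h (τ θ) * sin_sq_add_cos_sq (τ θ)

theorem k_tau (L : Leaf h k ρ r r' τ τ') (θ : ℝ) :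
    k (τ θ) - r (τ θ) = -(h θ * sin (τ θ - θ)) + (k θ + r θ) * cos (τ θ - θ) := by
  rw [cos_sub, sin_sub]
  linear_combination (sin (τ θ)) * L.eq_x θ + (-cos (τ θ)) * L.eq_y θ -
    (k (τ θ) - r (τ θ)) * sin_sq_add_cos_sq (τ θ)

lemma hasDerivAt_sin (L : Leaf h k ρ r r' τ τ') (θ : ℝ) :
    HasDerivAt (fun θ => sin (τ θ - θ)) (cos (τ θ - θ) * (τ' θ - 1)) θ :=
  (Real.hasDerivAt_sin _).comp θ ((L.τ_deriv θ).sub (hasDerivAt_id' θ))

lemma hasDerivAt_cos (L : Leaf h k ρ r r' τ τ') (θ : ℝ) :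
    HasDerivAt (fun θ => cos (τ θ - θ)) (-sin (τ θ - θ) * (τ' θ - 1)) θ :=
  (Real.hasDerivAt_cos _).comp θ ((L.τ_deriv θ).sub (hasDerivAt_id' θ))

theorem rel_a (L : Leaf h k ρ r r' τ τ') (θ : ℝ) :
    r (τ θ) * τ' θ = (ρ θ + r' θ) * sin (τ θ - θ) - r θ * cos (τ θ - θ) := by
  have h1 : HasDerivAt (fun θ => h (τ θ)) (k (τ θ) * τ' θ) θ :=
    (L.h_deriv (τ θ)).comp θ (L.τ_deriv θ)
  have h2 := ((L.h_deriv θ).mul (L.hasDerivAt_cos θ)).add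
    (((L.k_deriv θ).add (L.r_deriv θ)).mul (L.hasDerivAt_sin θ))
  have h3 : (fun θ => h (τ θ)) = (h * fun θ => cos (τ θ - θ)) +
      (k + r) * fun θ => sin (τ θ - θ) := funext fun θ => L.h_tau θ
  rw [h3] at h1
  have h4 := h1.unique h2
  simp only [Pi.add_apply] at h4
  have h5 := L.k_tau θ
  linear_combination h4 - τ' θ * h5

theorem rel_c (L : Leaf h k ρ r r' τ τ') (θ : ℝ) :
    (ρ (τ θ) - r' (τ θ)) * τ' θ = (ρ θ + r' θ) * cos (τ θ - θ) + r θ * sin (τ θ - θ) := by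
  have h1 : HasDerivAt (fun θ => k (τ θ) - r (τ θ))
      ((ρ (τ θ) - h (τ θ)) * τ' θ - r' (τ θ) * τ' θ) θ :=
    ((L.k_deriv (τ θ)).comp θ (L.τ_deriv θ)).sub ((L.r_deriv (τ θ)).comp θ (L.τ_deriv θ))
  have h2 := (((L.h_deriv θ).mul (L.hasDerivAt_sin θ)).neg).add
    (((L.k_deriv θ).add (L.r_deriv θ)).mul (L.hasDerivAt_cos θ))
  have h3 : (fun θ => k (τ θ) - r (τ θ)) = -(h * fun θ => sin (τ θ - θ)) +
      (k + r) * fun θ => cos (τ θ - θ) := funext fun θ => L.k_tau θ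
  rw [h3] at h1
  have h4 := h1.unique h2
  simp only [Pi.add_apply] at h4
  have h5 := L.h_tau θ
  linear_combination h4 + τ' θ * h5

theorem rel_b (L : Leaf h k ρ r r' τ τ') (θ : ℝ) :
    ((ρ (τ θ) - r' (τ θ)) * sin (τ θ - θ) - r (τ θ) * cos (τ θ - θ)) * τ' θ = r θ := by
  have ha := L.rel_a θ
  have hc := L.rel_c θ
  have hs := sin_sq_add_cos_sq (τ θ - θ)
  linear_combination sin (τ θ - θ) * hc - cos (τ θ - θ) * ha + r θ * hs

theorem sin_pos (L : Leaf h k ρ r r' τ τ') (θ : ℝ) : 0 < sin (τ θ - θ) := by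
  have := L.τ_mem θ
  exact Real.sin_pos_of_pos_of_lt_pi (by linarith [this.1]) (by linarith [this.2])

theorem τ'_ne (L : Leaf h k ρ r r' τ τ') (θ : ℝ) : τ' θ ≠ 0 := by
  intro h0
  have h1 := L.rel_b θ
  rw [h0, mul_zero] at h1
  exact (L.r_pos θ).ne h1

theorem τ'_pos (L : Leaf h k ρ r r' τ τ') (θ : ℝ) : 0 < τ' θ := by
  by_contra hneg
  have hneg' : τ' θ < 0 := lt_of_le_of_ne (not_lt.1 hneg) (L.τ'_ne θ)
  have hall : ∀ s, τ' s < 0 := by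
    intro s
    by_contra hs
    have hs' : 0 ≤ τ' s := not_lt.1 hs
    have hiv : (0:ℝ) ∈ τ' '' (uIcc θ s) := by
      refine intermediate_value_uIcc L.τ'_cont.continuousOn ?_
      rw [mem_uIcc]
      exact Or.inl ⟨hneg'.le, hs'⟩
    obtain ⟨x, _, hx⟩ := hiv
    exact L.τ'_ne x hx
  have hanti : StrictAnti τ := strictAnti_of_hasDerivAt_neg L.τ_deriv hall
  have h1 := L.τ_per 0
  have h2 := hanti (show (0:ℝ) < 0 + 2 * π by positivity)
  linarith [pi_pos]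

theorem k_per (L : Leaf h k ρ r r' τ τ') (θ : ℝ) : k (θ + 2 * π) = k θ :=
  deriv_per' (a := 0) L.h_deriv (fun θ => by rw [L.h_per, add_zero]) θ

theorem ρ_per (L : Leaf h k ρ r r' τ τ') (θ : ℝ) : ρ (θ + 2 * π) = ρ θ := by
  have := deriv_per' (a := 0) L.k_deriv (fun θ => by rw [L.k_per, add_zero]) θ
  rw [L.h_per] at this
  linarith

theorem r'_per (L : Leaf h k ρ r r' τ τ') (θ : ℝ) : r' (θ + 2 * π) = r' θ :=
  deriv_per' (a := 0) L.r_deriv (fun θ => by rw [L.r_per, add_zero]) θ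

theorem τ'_per (L : Leaf h k ρ r r' τ τ') (θ : ℝ) : τ' (θ + 2 * π) = τ' θ :=
  deriv_per' (a := 2 * π) L.τ_deriv L.τ_per θ

omit k r r' in
theorem X_add (h k ρ r r' : ℝ → ℝ) (θ : ℝ) :
    Xp h k ρ r r' θ + Xm h k ρ r r' θ = 2 * (h θ * ρ θ + r θ ^ 2) := by
  unfold Xp Xm; ring

theorem X_sin (L : Leaf h k ρ r r' τ τ') (θ : ℝ) :
    Xp h k ρ r r' θ * sin (τ θ - θ) = h θ * (r (τ θ) * τ' θ) + h (τ θ) * r θ := by
  rw [L.rel_a θ, L.h_tau θ]
  unfold Xp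
  ring

theorem X_rel (L : Leaf h k ρ r r' τ τ') (θ : ℝ) :
    Xp h k ρ r r' θ = Xm h k ρ r r' (τ θ) * τ' θ := by
  unfold Xp Xm
  have ha := L.rel_a θ
  have hc := L.rel_c θ
  have h1 := L.h_tau θ
  have h2 := L.k_tau θ
  have hs := sin_sq_add_cos_sq (τ θ - θ)
  have e : (h (τ θ) * (ρ (τ θ) - r' (τ θ)) - (k (τ θ) - r (τ θ)) * r (τ θ)) * τ' θ =
      h (τ θ) * ((ρ (τ θ) - r' (τ θ)) * τ' θ) - (k (τ θ) - r (τ θ)) * (r (τ θ) * τ' θ) := by ring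
  rw [e, hc, ha, h1, h2]
  linear_combination (-(h θ * (ρ θ + r' θ)) - (k θ + r θ) * r θ) * hs

theorem Xp_pos (L : Leaf h k ρ r r' τ τ') (hpos : ∀ θ, 0 < h θ) (θ : ℝ) :
    0 < Xp h k ρ r r' θ := by
  have h1 := L.X_sin θ
  have h2 := L.sin_pos θ
  have h3 : 0 < h θ * (r (τ θ) * τ' θ) + h (τ θ) * r θ := by
    have := hpos θ
    have := hpos (τ θ)
    have := L.r_pos θ
    have := L.r_pos (τ θ)
    have := L.τ'_pos θ
    positivity
  rw [← h1] at h3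
  exact (mul_pos_iff_of_pos_right h2).1 h3

/-- `τ` is surjective -/
theorem τ_surj (L : Leaf h k ρ r r' τ τ') : Function.Surjective τ := by
  have hc : Continuous τ := continuous_iff_continuousAt.2 fun θ => (L.τ_deriv θ).continuousAt
  refine hc.surjective ?_ ?_
  · refine tendsto_atTop_mono (fun θ => (L.τ_mem θ).1.le) tendsto_id
  · refine tendsto_atBot_mono (fun θ => (L.τ_mem θ).2.le) ?_
    exact tendsto_atBot_add_const_right _ _ tendsto_id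

theorem Xm_pos (L : Leaf h k ρ r r' τ τ') (hpos : ∀ θ, 0 < h θ) (θ : ℝ) :
    0 < Xm h k ρ r r' θ := by
  obtain ⟨s, rfl⟩ := L.τ_surj θ
  have h1 := L.X_rel s
  have h2 := L.Xp_pos hpos s
  rw [h1] at h2
  exact (mul_pos_iff_of_pos_right (L.τ'_pos s)).1 h2

/-- the vertex seen from the two tangent lines has the same distance from the origin -/
theorem dist_eq (L : Leaf h k ρ r r' τ τ') (θ : ℝ) :
    h θ ^ 2 + (k θ + r θ) ^ 2 = h (τ θ) ^ 2 + (k (τ θ) - r (τ θ)) ^ 2 := by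
  rw [L.h_tau θ, L.k_tau θ]
  have hs := sin_sq_add_cos_sq (τ θ - θ)
  linear_combination (-(h θ ^ 2 + (k θ + r θ) ^ 2)) * hs

/-- the vertex identity -/
theorem vertex (L : Leaf h k ρ r r' τ τ') (θ : ℝ) :
    h (τ θ) * (k θ + r θ) + h θ * (r (τ θ) - k (τ θ)) =
      sin (τ θ - θ) * (h θ ^ 2 + (k θ + r θ) ^ 2) := by
  have h2 := L.k_tau θ
  rw [L.h_tau θ]
  linear_combination (-h θ) * h2

end Leaf

namespace Fam
variable {h k ρ : ℝ → ℝ} {r τ : ℝ → ℝ → ℝ}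

theorem leaf (B : Fam h k ρ r τ) {c : ℝ} (hc : c ∈ Ioo (0:ℝ) 1) :
    Leaf h k ρ (r c) (fun θ => pd2 r (c, θ)) (τ c) (fun θ => pd2 τ (c, θ)) where
  h_deriv := B.h_deriv
  k_deriv := B.k_deriv
  ρ_cont := B.ρ_cont
  ρ_pos := B.ρ_pos
  h_per := B.h_per
  r_deriv := fun θ => der2 B.r_smooth hc θ
  r'_cont := slice (contOn_pd2 B.r_smooth) hc
  τ_deriv := fun θ => der2 B.τ_smooth hc θ
  τ'_cont := slice (contOn_pd2 B.τ_smooth) hc
  r_per := B.r_per c hc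
  τ_per := B.τ_per c hc
  r_pos := B.r_pos c hc
  τ_mem := B.τ_mem c hc
  eq_x := B.eq_x c hc
  eq_y := B.eq_y c hc

theorem rc_pos (B : Fam h k ρ r τ) {c : ℝ} (hc : c ∈ Ioo (0:ℝ) 1) (θ : ℝ) :
    0 < pd1 r (c, θ) := by
  have := B.r_mono c hc θ
  rwa [(der1 B.r_smooth hc θ).deriv] at this

lemma hasDerivAt_sin (B : Fam h k ρ r τ) {c : ℝ} (hc : c ∈ Ioo (0:ℝ) 1) (θ : ℝ) :
    HasDerivAt (fun x => sin (τ x θ - θ)) (cos (τ c θ - θ) * pd1 τ (c, θ)) c :=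
  (Real.hasDerivAt_sin _).comp c ((der1 B.τ_smooth hc θ).sub_const θ)

lemma hasDerivAt_cos (B : Fam h k ρ r τ) {c : ℝ} (hc : c ∈ Ioo (0:ℝ) 1) (θ : ℝ) :
    HasDerivAt (fun x => cos (τ x θ - θ)) (-sin (τ c θ - θ) * pd1 τ (c, θ)) c :=
  (Real.hasDerivAt_cos _).comp c ((der1 B.τ_smooth hc θ).sub_const θ)

theorem rel_d (B : Fam h k ρ r τ) {c : ℝ} (hc : c ∈ Ioo (0:ℝ) 1) (θ : ℝ) :
    r c (τ c θ) * pd1 τ (c, θ) = pd1 r (c, θ) * sin (τ c θ - θ) := by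
  have h1 : HasDerivAt (fun x => h (τ x θ)) (k (τ c θ) * pd1 τ (c, θ)) c :=
    (B.h_deriv (τ c θ)).comp c (der1 B.τ_smooth hc θ)
  have h2 : HasDerivAt (fun x => h θ * cos (τ x θ - θ) + (k θ + r x θ) * sin (τ x θ - θ)) _ c :=
    ((B.hasDerivAt_cos hc θ).const_mul (h θ)).add
      (((der1 B.r_smooth hc θ).const_add (k θ)).mul (B.hasDerivAt_sin hc θ))
  have h3 : (fun x => h (τ x θ)) =ᶠ[𝓝 c]
      fun x => h θ * cos (τ x θ - θ) + (k θ + r x θ) * sin (τ x θ - θ) := by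
    filter_upwards [isOpen_Ioo.mem_nhds hc] with x hx
    exact (B.leaf hx).h_tau θ
  have h4 := h1.unique (h2.congr_of_eventuallyEq h3)
  have h5 := (B.leaf hc).k_tau θ
  linear_combination h4 - pd1 τ (c, θ) * h5

theorem τc_pos (B : Fam h k ρ r τ) {c : ℝ} (hc : c ∈ Ioo (0:ℝ) 1) (θ : ℝ) :
    0 < pd1 τ (c, θ) := by
  have h1 := B.rel_d hc θ
  have h2 : 0 < pd1 r (c, θ) * sin (τ c θ - θ) := mul_pos (B.rc_pos hc θ) ((B.leaf hc).sin_pos θ)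
  rw [← h1] at h2
  exact (mul_pos_iff_of_pos_left (B.r_pos c hc _)).1 h2

theorem flux (B : Fam h k ρ r τ) {c : ℝ} (hc : c ∈ Ioo (0:ℝ) 1) (θ : ℝ) :
    r c (τ c θ) * pd1 r (c, τ c θ) * pd2 τ (c, θ) = r c θ * pd1 r (c, θ) := by
  have L := B.leaf hc
  have h1 : HasDerivAt (fun x => k (τ x θ) - r x (τ x θ))
      ((ρ (τ c θ) - h (τ c θ)) * pd1 τ (c, θ) -
        (1 * pd1 r (c, τ c θ) + pd1 τ (c, θ) * pd2 r (c, τ c θ))) c :=
    ((B.k_deriv (τ c θ)).comp c (der1 B.τ_smooth hc θ)).sub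
      (curve B.r_smooth (hasDerivAt_id' c) (der1 B.τ_smooth hc θ) hc)
  have h2 : HasDerivAt (fun x => -(h θ * sin (τ x θ - θ)) + (k θ + r x θ) * cos (τ x θ - θ)) _ c :=
    (((B.hasDerivAt_sin hc θ).const_mul (h θ)).neg).add
      (((der1 B.r_smooth hc θ).const_add (k θ)).mul (B.hasDerivAt_cos hc θ))
  have h3 : (fun x => k (τ x θ) - r x (τ x θ)) =ᶠ[𝓝 c]
      fun x => -(h θ * sin (τ x θ - θ)) + (k θ + r x θ) * cos (τ x θ - θ) := by
    filter_upwards [isOpen_Ioo.mem_nhds hc] with x hx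
    exact (B.leaf hx).k_tau θ
  have h4 := h1.unique (h2.congr_of_eventuallyEq h3)
  have h5 := L.h_tau θ
  have h6 := B.rel_d hc θ
  have h7 := L.rel_b θ
  have h8 : pd1 r (c, τ c θ) = (ρ (τ c θ) - pd2 r (c, τ c θ)) * pd1 τ (c, θ) -
      pd1 r (c, θ) * cos (τ c θ - θ) := by
    linear_combination -h4 - pd1 τ (c, θ) * h5
  rw [h8]
  have h9 : r c (τ c θ) * ((ρ (τ c θ) - pd2 r (c, τ c θ)) * pd1 τ (c, θ) -
      pd1 r (c, θ) * cos (τ c θ - θ)) * pd2 τ (c, θ) =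
      (ρ (τ c θ) - pd2 r (c, τ c θ)) * (r c (τ c θ) * pd1 τ (c, θ)) * pd2 τ (c, θ) -
      pd1 r (c, θ) * (r c (τ c θ) * cos (τ c θ - θ)) * pd2 τ (c, θ) := by ring
  rw [h9, h6]
  linear_combination pd1 r (c, θ) * h7

/-- translation of the origin -/
theorem translate (B : Fam h k ρ r τ) (o1 o2 : ℝ) :
    Fam (fun θ => h θ - (o1 * cos θ + o2 * sin θ)) (fun θ => k θ - (-(o1 * sin θ) + o2 * cos θ)) ρ
      r τ where
  h_deriv := fun θ => by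
    refine ((B.h_deriv θ).sub (((Real.hasDerivAt_cos θ).const_mul o1).add
      ((Real.hasDerivAt_sin θ).const_mul o2))).congr_deriv ?_
    ring
  k_deriv := fun θ => by
    refine ((B.k_deriv θ).sub ((((Real.hasDerivAt_sin θ).const_mul o1).neg).add
      ((Real.hasDerivAt_cos θ).const_mul o2))).congr_deriv ?_
    ring
  ρ_cont := B.ρ_cont
  ρ_pos := B.ρ_pos
  h_per := fun θ => by simp only [B.h_per, cos_add_two_pi, sin_add_two_pi]
  r_smooth := B.r_smooth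
  τ_smooth := B.τ_smooth
  r_per := B.r_per
  τ_per := B.τ_per
  r_pos := B.r_pos
  τ_mem := B.τ_mem
  r_mono := B.r_mono
  r_lim := B.r_lim
  eq_x := fun c hc θ => by
    have h1 := B.eq_x c hc θ
    have s1 := sin_sq_add_cos_sq θ
    have s2 := sin_sq_add_cos_sq (τ c θ)
    linear_combination h1 - o1 * s1 + o1 * s2
  eq_y := fun c hc θ => by
    have h1 := B.eq_y c hc θ
    have s1 := sin_sq_add_cos_sq θ
    have s2 := sin_sq_add_cos_sq (τ c θ)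
    linear_combination h1 - o2 * s1 + o2 * s2

end Fam

end Pool.Agent.MP_ae5b4e_an.Out
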