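import Mathlib
import Pool.Agent.Lib.MP_ae5b4e_an.Out.Rel

/-!
MP_ae5b4e_an, theorem on outer billiards: the Hopf functional of a leaf is nonnegative, and if it
vanishes then `h r` is constant on all the leaves inside.
-/

noncomputable section

namespace Pool.Agent.MP_ae5b4e_an.Out

open Real Set Filter Topology MeasureTheory
open Pool.Agent.MP_ae5b4e_an.Birk.Hopf

/-- the derivative of the integrand of the Hopf functional -/
def gg (h k ρ : ℝ → ℝ) (x θ : ℝ) : ℝ :=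
  -(2 * x ^ 2 / (h θ * (h θ * ρ θ + x ^ 2))) +
    x / h θ * ((k θ + x) / (h θ ^ 2 + (k θ + x) ^ 2) + (x - k θ) / (h θ ^ 2 + (k θ - x) ^ 2))

lemma hasDerivAt_GG {h k ρ : ℝ → ℝ} {θ : ℝ} (hh : 0 < h θ) (hρ : 0 < ρ θ) (x : ℝ) :
    HasDerivAt (fun x => GG h k ρ x θ) (gg h k ρ x θ) x := by
  have hs : 0 < √(ρ θ * h θ) := Real.sqrt_pos.2 (by positivity)
  have hss : √(ρ θ * h θ) ^ 2 = ρ θ * h θ := Real.sq_sqrt (by positivity)
  have p1 : 0 < h θ ^ 2 + (k θ + x) ^ 2 := by positivity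
  have p2 : 0 < h θ ^ 2 + (k θ - x) ^ 2 := by positivity
  have e1 : HasDerivAt (fun x : ℝ => x / √(ρ θ * h θ)) (1 / √(ρ θ * h θ)) x :=
    (hasDerivAt_id' x).div_const _
  have e2 : HasDerivAt (fun x : ℝ => (k θ + x) / h θ) (1 / h θ) x :=
    ((hasDerivAt_id' x).const_add _).div_const _
  have e3 : HasDerivAt (fun x : ℝ => (k θ - x) / h θ) (-1 / h θ) x :=
    ((hasDerivAt_id' x).const_sub _).div_const _
  have e4 : HasDerivAt (fun x : ℝ => h θ ^ 2 + (k θ + x) ^ 2) (2 * (k θ + x)) x := by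
    have := (((hasDerivAt_id' x).const_add (k θ)).pow 2).const_add (h θ ^ 2)
    refine this.congr_deriv ?_
    push_cast
    ring
  have e5 : HasDerivAt (fun x : ℝ => h θ ^ 2 + (k θ - x) ^ 2) (-(2 * (k θ - x))) x := by
    have := (((hasDerivAt_id' x).const_sub (k θ)).pow 2).const_add (h θ ^ 2)
    refine this.congr_deriv ?_
    push_cast
    ring
  have f1 := (e1.arctan).const_mul (2 * √(ρ θ / h θ))
  have f2 := e2.arctan.sub e3.arctan
  have f3 := (((e4.log p1.ne').div_const 2).sub ((e5.log p2.ne').div_const 2)).const_mul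
    (k θ / h θ)
  have f4 := (f1.sub f2).sub f3
  refine f4.congr_deriv ?_
  have q1 : √(ρ θ / h θ) = √(ρ θ * h θ) / h θ := by
    have e : ρ θ / h θ = ρ θ * h θ / h θ ^ 2 := by field_simp
    rw [e, Real.sqrt_div' _ (by positivity), Real.sqrt_sq hh.le]
  have q2 : 2 * √(ρ θ / h θ) * (1 / (1 + (x / √(ρ θ * h θ)) ^ 2) * (1 / √(ρ θ * h θ))) =
      2 * ρ θ / (h θ * ρ θ + x ^ 2) := by
    rw [q1, div_pow, hss]
    have : h θ * ρ θ + x ^ 2 ≠ 0 := by positivity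
    field_simp
  have q3 : 1 / (1 + ((k θ + x) / h θ) ^ 2) * (1 / h θ) =
      h θ / (h θ ^ 2 + (k θ + x) ^ 2) := by
    have : 1 + ((k θ + x) / h θ) ^ 2 = (h θ ^ 2 + (k θ + x) ^ 2) / h θ ^ 2 := by field_simp
    rw [this]
    field_simp
  have q4 : 1 / (1 + ((k θ - x) / h θ) ^ 2) * (-1 / h θ) =
      -(h θ / (h θ ^ 2 + (k θ - x) ^ 2)) := by
    have : 1 + ((k θ - x) / h θ) ^ 2 = (h θ ^ 2 + (k θ - x) ^ 2) / h θ ^ 2 := by field_simp
    rw [this]
    field_simp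
  rw [q2, q3, q4]
  unfold gg
  have n1 : h θ * ρ θ + x ^ 2 ≠ 0 := by positivity
  have n2 := p1.ne'
  have n3 := p2.ne'
  have n4 := hh.ne'
  field_simp
  ring

namespace Fam

variable {h k ρ : ℝ → ℝ} {r τ : ℝ → ℝ → ℝ}

/-- the product of `r` and its derivative in the parameter -/
def fl (r : ℝ → ℝ → ℝ) (c θ : ℝ) : ℝ := r c θ * pd1 r (c, θ)

/-- `Xp` of the leaf `c` -/
def xp (h k ρ : ℝ → ℝ) (r : ℝ → ℝ → ℝ) (c θ : ℝ) : ℝ := Xp h k ρ (r c) (fun θ => pd2 r (c, θ)) θ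

/-- `Xm` of the leaf `c` -/
def xm (h k ρ : ℝ → ℝ) (r : ℝ → ℝ → ℝ) (c θ : ℝ) : ℝ := Xm h k ρ (r c) (fun θ => pd2 r (c, θ)) θ

/-- the periodic density -/
def Ga (h k ρ : ℝ → ℝ) (r : ℝ → ℝ → ℝ) (c θ : ℝ) : ℝ :=
  fl r c θ / h θ * ((r c θ - k θ) / (h θ ^ 2 + (k θ - r c θ) ^ 2)) -
    fl r c θ * (r c θ / h θ) / xm h k ρ r c θ

/-- the defect -/
def dfct (h k ρ : ℝ → ℝ) (r : ℝ → ℝ → ℝ) (c θ : ℝ) : ℝ :=
  fl r c θ * (r c θ / h θ) * (xp h k ρ r c θ - xm h k ρ r c θ) ^ 2 /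
    (xp h k ρ r c θ * xm h k ρ r c θ * (xp h k ρ r c θ + xm h k ρ r c θ))

lemma fl_pos (B : Fam h k ρ r τ) {c : ℝ} (hc : c ∈ Ioo (0:ℝ) 1) (θ : ℝ) : 0 < fl r c θ :=
  mul_pos (B.r_pos c hc θ) (B.rc_pos hc θ)

lemma xp_pos (B : Fam h k ρ r τ) (hpos : ∀ θ, 0 < h θ) {c : ℝ} (hc : c ∈ Ioo (0:ℝ) 1) (θ : ℝ) :
    0 < xp h k ρ r c θ := (B.leaf hc).Xp_pos hpos θ

lemma xm_pos (B : Fam h k ρ r τ) (hpos : ∀ θ, 0 < h θ) {c : ℝ} (hc : c ∈ Ioo (0:ℝ) 1) (θ : ℝ) :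
    0 < xm h k ρ r c θ := (B.leaf hc).Xm_pos hpos θ

/-- the algebra of one vertex -/
lemma vertex_algebra {a b u v D X Y s t f f1 r0 r1 : ℝ} (ha : 0 < a) (hb : 0 < b) (hD : 0 < D)
    (hX : 0 < X) (hY : 0 < Y) (e1 : X * s = a * (r1 * t) + b * r0) (e2 : X = Y * t)
    (e4 : b * u + a * v = s * D) (e5 : f1 * t = f) :
    f / a * (u / D) = f * (r0 / a) / X - (f1 / b * (v / D) - f1 * (r1 / b) / Y) * t := by
  have hY' := hY.ne'
  have hb' := hb.ne'
  have ha' := ha.ne'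
  have hD' := hD.ne'
  have h1 : (f1 / b * (v / D) - f1 * (r1 / b) / Y) * t = f / b * (v / D) - f * (r1 / b) / Y := by
    rw [← e5]; ring
  have ht : 0 < t := by
    by_contra hn
    push Not at hn
    nlinarith
  have ht' := ht.ne'
  rw [h1, e2]
  rw [e2] at e1
  field_simp
  linear_combination f * t * Y * e4 + f * D * e1

lemma pointwise_step (B : Fam h k ρ r τ) (hpos : ∀ θ, 0 < h θ) {c : ℝ} (hc : c ∈ Ioo (0:ℝ) 1)
    (θ : ℝ) : fl r c θ / h θ * ((k θ + r c θ) / (h θ ^ 2 + (k θ + r c θ) ^ 2)) =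
      fl r c θ * (r c θ / h θ) / xp h k ρ r c θ - Ga h k ρ r c (τ c θ) * pd2 τ (c, θ) := by
  have L := B.leaf hc
  have e1 := L.X_sin θ
  have e2 := L.X_rel θ
  have e3 := L.dist_eq θ
  have e4 := L.vertex θ
  have e5 := B.flux hc θ
  have p1 := B.xp_pos hpos hc θ
  have p2 := B.xm_pos hpos hc (τ c θ)
  have p3 := hpos θ
  have p4 := hpos (τ c θ)
  have p5 : 0 < h θ ^ 2 + (k θ + r c θ) ^ 2 := by positivity
  unfold Ga
  rw [← e3]
  exact vertex_algebra p3 p4 p5 p1 p2 e1 e2 e4 e5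

lemma pointwise_eq (B : Fam h k ρ r τ) (hpos : ∀ θ, 0 < h θ) {c : ℝ} (hc : c ∈ Ioo (0:ℝ) 1)
    (θ : ℝ) : gg h k ρ (r c θ) θ * pd1 r (c, θ) =
      dfct h k ρ r c θ + (Ga h k ρ r c θ - Ga h k ρ r c (τ c θ) * pd2 τ (c, θ)) := by
  have e1 := B.pointwise_step hpos hc θ
  have p1 := B.xp_pos hpos hc θ
  have p2 := B.xm_pos hpos hc θ
  have p3 := hpos θ
  have p4 := B.ρ_pos θ
  have p5 := B.r_pos c hc θ
  have e2 : xp h k ρ r c θ + xm h k ρ r c θ = 2 * (h θ * ρ θ + r c θ ^ 2) := Leaf.X_add _ _ _ _ _ θ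
  have e3 : Ga h k ρ r c (τ c θ) * pd2 τ (c, θ) = fl r c θ * (r c θ / h θ) / xp h k ρ r c θ -
      fl r c θ / h θ * ((k θ + r c θ) / (h θ ^ 2 + (k θ + r c θ) ^ 2)) := by linarith
  have e4 : h θ * ρ θ + r c θ ^ 2 = (xp h k ρ r c θ + xm h k ρ r c θ) / 2 := by linarith
  rw [e3]
  unfold gg dfct Ga
  rw [e4]
  have e5 : (fl r c θ : ℝ) = r c θ * pd1 r (c, θ) := rfl
  rw [e5]
  have n1 := p1.ne'
  have n2 := p2.ne'
  have n3 := p3.ne'
  have n4 : xp h k ρ r c θ + xm h k ρ r c θ ≠ 0 := by positivity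
  have n5 : h θ ^ 2 + (k θ + r c θ) ^ 2 ≠ 0 := by positivity
  have n6 : h θ ^ 2 + (k θ - r c θ) ^ 2 ≠ 0 := by positivity
  field_simp
  ring

/-! ### Continuity and periodicity -/

lemma continuous_h (B : Fam h k ρ r τ) : Continuous h :=
  continuous_iff_continuousAt.2 fun t => (B.h_deriv t).continuousAt

lemma continuous_k (B : Fam h k ρ r τ) : Continuous k :=
  continuous_iff_continuousAt.2 fun t => (B.k_deriv t).continuousAt

lemma continuous_r (B : Fam h k ρ r τ) {c : ℝ} (hc : c ∈ Ioo (0:ℝ) 1) : Continuous (r c) :=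
  continuous_iff_continuousAt.2 fun t => (der2 B.r_smooth hc t).continuousAt

lemma continuous_fl (B : Fam h k ρ r τ) {c : ℝ} (hc : c ∈ Ioo (0:ℝ) 1) :
    Continuous (fl r c) := by
  have a1 : Continuous fun t => pd1 r (c, t) := slice (contOn_pd1 B.r_smooth) hc
  have a3 := B.continuous_r hc
  exact a3.mul a1

lemma continuous_xp (B : Fam h k ρ r τ) {c : ℝ} (hc : c ∈ Ioo (0:ℝ) 1) :
    Continuous (xp h k ρ r c) := by
  have a1 : Continuous fun t => pd2 r (c, t) := slice (contOn_pd2 B.r_smooth) hc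
  have a2 := B.continuous_r hc
  have a3 := B.continuous_h
  have a4 := B.continuous_k
  have a5 := B.ρ_cont
  unfold xp Xp
  fun_prop

lemma continuous_xm (B : Fam h k ρ r τ) {c : ℝ} (hc : c ∈ Ioo (0:ℝ) 1) :
    Continuous (xm h k ρ r c) := by
  have a1 : Continuous fun t => pd2 r (c, t) := slice (contOn_pd2 B.r_smooth) hc
  have a2 := B.continuous_r hc
  have a3 := B.continuous_h
  have a4 := B.continuous_k
  have a5 := B.ρ_cont
  unfold xm Xm
  fun_prop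

lemma continuous_Ga (B : Fam h k ρ r τ) (hpos : ∀ θ, 0 < h θ) {c : ℝ} (hc : c ∈ Ioo (0:ℝ) 1) :
    Continuous (Ga h k ρ r c) := by
  have a1 := B.continuous_fl hc
  have a2 := B.continuous_r hc
  have a3 := B.continuous_h
  have a4 := B.continuous_k
  have a5 := B.continuous_xm hc
  unfold Ga
  refine ((a1.div₀ a3 fun t => (hpos t).ne').mul ((a2.sub a4).div₀ (by fun_prop) fun t => ?_)).sub
    ((a1.mul (a2.div₀ a3 fun t => (hpos t).ne')).div₀ a5 fun t => (B.xm_pos hpos hc t).ne')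
  have := hpos t
  positivity

lemma continuous_dfct (B : Fam h k ρ r τ) (hpos : ∀ θ, 0 < h θ) {c : ℝ} (hc : c ∈ Ioo (0:ℝ) 1) :
    Continuous (dfct h k ρ r c) := by
  have a1 := B.continuous_fl hc
  have a2 := B.continuous_r hc
  have a3 := B.continuous_h
  have a5 := B.continuous_xm hc
  have a6 := B.continuous_xp hc
  unfold dfct
  refine ((a1.mul (a2.div₀ a3 fun t => (hpos t).ne')).mul ((a6.sub a5).pow 2)).div₀
    ((a6.mul a5).mul (a6.add a5)) fun t => ?_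
  have p1 := B.xm_pos hpos hc t
  have p2 := B.xp_pos hpos hc t
  positivity

lemma dfct_nonneg (B : Fam h k ρ r τ) (hpos : ∀ θ, 0 < h θ) {c : ℝ} (hc : c ∈ Ioo (0:ℝ) 1)
    (t : ℝ) : 0 ≤ dfct h k ρ r c t := by
  have p1 := B.xm_pos hpos hc t
  have p2 := B.xp_pos hpos hc t
  have p3 := B.fl_pos hc t
  have p4 := B.r_pos c hc t
  have p5 := hpos t
  unfold dfct
  positivity

lemma fl_per (B : Fam h k ρ r τ) {c : ℝ} (hc : c ∈ Ioo (0:ℝ) 1) (t : ℝ) :
    fl r c (t + 2 * π) = fl r c t := by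
  unfold fl
  rw [pd1_per B.r_smooth B.r_per hc, B.r_per c hc]

lemma xp_per (B : Fam h k ρ r τ) {c : ℝ} (hc : c ∈ Ioo (0:ℝ) 1) (t : ℝ) :
    xp h k ρ r c (t + 2 * π) = xp h k ρ r c t := by
  unfold xp Xp
  beta_reduce
  rw [pd2_per B.r_smooth B.r_per hc, B.r_per c hc, (B.leaf hc).k_per, (B.leaf hc).ρ_per, B.h_per]

lemma xm_per (B : Fam h k ρ r τ) {c : ℝ} (hc : c ∈ Ioo (0:ℝ) 1) (t : ℝ) :
    xm h k ρ r c (t + 2 * π) = xm h k ρ r c t := by
  unfold xm Xm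
  beta_reduce
  rw [pd2_per B.r_smooth B.r_per hc, B.r_per c hc, (B.leaf hc).k_per, (B.leaf hc).ρ_per, B.h_per]

lemma Ga_per (B : Fam h k ρ r τ) {c : ℝ} (hc : c ∈ Ioo (0:ℝ) 1) (t : ℝ) :
    Ga h k ρ r c (t + 2 * π) = Ga h k ρ r c t := by
  unfold Ga
  rw [B.fl_per hc, B.xm_per hc, B.r_per c hc, (B.leaf hc).k_per, B.h_per]

lemma dfct_per (B : Fam h k ρ r τ) {c : ℝ} (hc : c ∈ Ioo (0:ℝ) 1) (t : ℝ) :
    dfct h k ρ r c (t + 2 * π) = dfct h k ρ r c t := by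
  unfold dfct
  rw [B.fl_per hc, B.xm_per hc, B.xp_per hc, B.r_per c hc, B.h_per]

/-! ### The integral over one leaf -/

lemma leaf_integral (B : Fam h k ρ r τ) (hpos : ∀ θ, 0 < h θ) {c : ℝ} (hc : c ∈ Ioo (0:ℝ) 1) :
    ∫ t in (0:ℝ)..(2 * π), gg h k ρ (r c t) t * pd1 r (c, t) =
      ∫ t in (0:ℝ)..(2 * π), dfct h k ρ r c t := by
  have a2 : Continuous fun t => pd2 τ (c, t) := slice (contOn_pd2 B.τ_smooth) hc
  have a3 : Continuous (τ c) :=
    continuous_iff_continuousAt.2 fun t => (der2 B.τ_smooth hc t).continuousAt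
  have a4 := B.continuous_Ga hpos hc
  have a5 := B.continuous_dfct hpos hc
  have b1 : ∫ t in (0:ℝ)..(2 * π), Ga h k ρ r c (τ c t) * pd2 τ (c, t) =
      ∫ t in (0:ℝ)..(2 * π), Ga h k ρ r c t := by
    refine integral_comp_shift (φ := τ c) (fun t => der2 B.τ_smooth hc t) a2 ?_ a4 (B.Ga_per hc)
    have := B.τ_per c hc 0
    rw [zero_add] at this
    exact this
  have b3 : ∫ t in (0:ℝ)..(2 * π), gg h k ρ (r c t) t * pd1 r (c, t) =
      ∫ t in (0:ℝ)..(2 * π), (dfct h k ρ r c t + (Ga h k ρ r c t -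
        Ga h k ρ r c (τ c t) * pd2 τ (c, t))) :=
    intervalIntegral.integral_congr fun t _ => B.pointwise_eq hpos hc t
  have c1 : Continuous fun t => Ga h k ρ r c (τ c t) * pd2 τ (c, t) := (a4.comp a3).mul a2
  have c3 : Continuous fun t => Ga h k ρ r c t - Ga h k ρ r c (τ c t) * pd2 τ (c, t) := a4.sub c1
  rw [b3, intervalIntegral.integral_add (a5.intervalIntegrable _ _)
    (c3.intervalIntegrable _ _), intervalIntegral.integral_sub
    (a4.intervalIntegrable _ _) (c1.intervalIntegrable _ _), b1]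
  ring

lemma leaf_integral_nonneg (B : Fam h k ρ r τ) (hpos : ∀ θ, 0 < h θ) {c : ℝ}
    (hc : c ∈ Ioo (0:ℝ) 1) :
    0 ≤ ∫ t in (0:ℝ)..(2 * π), gg h k ρ (r c t) t * pd1 r (c, t) := by
  rw [B.leaf_integral hpos hc]
  exact intervalIntegral.integral_nonneg (by positivity) fun t _ => B.dfct_nonneg hpos hc t

lemma continuousOn_integrand (B : Fam h k ρ r τ) (hpos : ∀ θ, 0 < h θ) :
    ContinuousOn (fun q : ℝ × ℝ => gg h k ρ (r q.1 q.2) q.2 * pd1 r q)
      (Ioo (0:ℝ) 1 ×ˢ univ) := by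
  have a1 := contOn_pd1 B.r_smooth
  have a3 := B.r_smooth.continuousOn
  have a4 : ContinuousOn (fun q : ℝ × ℝ => h q.2) (Ioo (0:ℝ) 1 ×ˢ univ) :=
    (B.continuous_h.comp continuous_snd).continuousOn
  have a5 : ContinuousOn (fun q : ℝ × ℝ => k q.2) (Ioo (0:ℝ) 1 ×ˢ univ) :=
    (B.continuous_k.comp continuous_snd).continuousOn
  have a6 : ContinuousOn (fun q : ℝ × ℝ => ρ q.2) (Ioo (0:ℝ) 1 ×ˢ univ) :=
    (B.ρ_cont.comp continuous_snd).continuousOn
  unfold gg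
  refine ContinuousOn.mul ?_ a1
  refine ContinuousOn.add (ContinuousOn.neg (ContinuousOn.div₀ (continuousOn_const.mul (a3.pow 2))
    (a4.mul ((a4.mul a6).add (a3.pow 2))) ?_))
    (ContinuousOn.mul (ContinuousOn.div₀ a3 a4 fun q _ => (hpos _).ne') (ContinuousOn.add
      (ContinuousOn.div₀ (a5.add a3) ((a4.pow 2).add ((a5.add a3).pow 2)) ?_)
      (ContinuousOn.div₀ (a3.sub a5) ((a4.pow 2).add ((a5.sub a3).pow 2)) ?_)))
  all_goals
    intro q _
    have p1 := hpos q.2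
    have p2 := B.ρ_pos q.2
    positivity

/-- Fubini and the fundamental theorem of calculus. -/
lemma double_integral (B : Fam h k ρ r τ) (hpos : ∀ θ, 0 < h θ) {c₁ c₂ : ℝ} (k1 : 0 < c₁)
    (k12 : c₁ ≤ c₂) (k2 : c₂ < 1) :
    ∫ c in c₁..c₂, (∫ t in (0:ℝ)..(2 * π), gg h k ρ (r c t) t * pd1 r (c, t)) =
      ∫ t in (0:ℝ)..(2 * π), (GG h k ρ (r c₂ t) t - GG h k ρ (r c₁ t) t) := by
  have hp : (0:ℝ) ≤ 2 * π := by positivity
  have hsub : Icc c₁ c₂ ×ˢ Icc 0 (2 * π) ⊆ Ioo (0:ℝ) 1 ×ˢ univ := by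
    intro q hq
    exact ⟨⟨by linarith [hq.1.1], by linarith [hq.1.2]⟩, mem_univ _⟩
  have hint : IntegrableOn (Function.uncurry fun c t =>
      gg h k ρ (r c t) t * pd1 r (c, t)) (uIoc c₁ c₂ ×ˢ uIoc 0 (2 * π)) := by
    have h3 : IntegrableOn (Function.uncurry fun c t =>
      gg h k ρ (r c t) t * pd1 r (c, t)) (Icc c₁ c₂ ×ˢ Icc 0 (2 * π)) := by
      refine ContinuousOn.integrableOn_compact (isCompact_Icc.prod isCompact_Icc) ?_
      exact (B.continuousOn_integrand hpos).mono hsub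
    refine h3.mono_set ?_
    rw [uIoc_of_le k12, uIoc_of_le hp]
    exact prod_mono Ioc_subset_Icc_self Ioc_subset_Icc_self
  rw [MeasureTheory.intervalIntegral_intervalIntegral_swap hint]
  refine intervalIntegral.integral_congr fun θ _ => ?_
  have hd : ∀ c ∈ uIcc c₁ c₂, HasDerivAt (fun c => GG h k ρ (r c θ) θ)
      (gg h k ρ (r c θ) θ * pd1 r (c, θ)) c := by
    intro c hc
    rw [uIcc_of_le k12] at hc
    have hc' : c ∈ Ioo (0:ℝ) 1 := ⟨by linarith [hc.1], by linarith [hc.2]⟩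
    exact HasDerivAt.comp (h₂ := fun x => GG h k ρ x θ) (h := fun x => r x θ) c
      (hasDerivAt_GG (hpos θ) (B.ρ_pos θ) (r c θ)) (der1 B.r_smooth hc' θ)
  have hcont : ContinuousOn (fun c => gg h k ρ (r c θ) θ * pd1 r (c, θ))
      (uIcc c₁ c₂) := by
    rw [uIcc_of_le k12]
    refine (B.continuousOn_integrand hpos).comp (f := fun c : ℝ => (c, θ)) (by fun_prop) ?_
    intro c hc
    exact ⟨⟨by linarith [hc.1], by linarith [hc.2]⟩, mem_univ _⟩
  exact intervalIntegral.integral_eq_sub_of_hasDerivAt hd hcont.intervalIntegrable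

/-- the integral over one leaf is continuous in the leaf -/
lemma exists_continuous_extension (B : Fam h k ρ r τ) (hpos : ∀ θ, 0 < h θ) {c₁ c₀ : ℝ}
    (k1 : 0 < c₁) (k12 : c₁ ≤ c₀) (k0 : c₀ < 1) :
    ∃ f : ℝ → ℝ, Continuous f ∧ ∀ c ∈ Icc c₁ c₀,
      f c = ∫ t in (0:ℝ)..(2 * π), gg h k ρ (r c t) t * pd1 r (c, t) := by
  obtain ⟨pr, hpr⟩ : ∃ pr : ℝ → ℝ, pr = fun c => max c₁ (min c c₀) := ⟨_, rfl⟩
  have hprc : Continuous pr := by simp only [hpr]; fun_prop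
  have hprm : ∀ c, pr c ∈ Ioo (0:ℝ) 1 := by
    intro c
    simp only [hpr]
    constructor
    · exact lt_max_of_lt_left k1
    · exact max_lt (by linarith) ((min_le_right _ _).trans_lt k0)
  refine ⟨fun c => ∫ t in (0:ℝ)..(2 * π), gg h k ρ (r (pr c) t) t * pd1 r (pr c, t), ?_, ?_⟩
  · refine intervalIntegral.continuous_parametric_intervalIntegral_of_continuous' ?_ 0 (2 * π)
    have h2' : Function.uncurry (fun c t => gg h k ρ (r (pr c) t) t * pd1 r (pr c, t)) =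
        (fun q : ℝ × ℝ => gg h k ρ (r q.1 q.2) q.2 * pd1 r q) ∘
          (fun q : ℝ × ℝ => (pr q.1, q.2)) := rfl
    rw [h2']
    refine (B.continuousOn_integrand hpos).comp_continuous ?_ ?_
    · exact (hprc.comp continuous_fst).prodMk continuous_snd
    · intro q
      exact ⟨hprm _, mem_univ _⟩
  · intro c hc
    have : pr c = c := by
      simp only [hpr]
      rw [min_eq_left hc.2, max_eq_right hc.1]
    simp only [this]

/-! ### The functional -/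

lemma continuous_GG2 (B : Fam h k ρ r τ) (hpos : ∀ θ, 0 < h θ) :
    Continuous fun q : ℝ × ℝ => GG h k ρ q.1 q.2 := by
  have a3 := B.continuous_h
  have a4 := B.continuous_k
  have a5 := B.ρ_cont
  unfold GG
  have n1 : ∀ q : ℝ × ℝ, h q.2 ≠ 0 := fun q => (hpos q.2).ne'
  have n2 : ∀ q : ℝ × ℝ, √(ρ q.2 * h q.2) ≠ 0 := fun q =>
    (Real.sqrt_pos.2 (mul_pos (B.ρ_pos q.2) (hpos q.2))).ne'
  have n3 : ∀ q : ℝ × ℝ, h q.2 ^ 2 + (k q.2 + q.1) ^ 2 ≠ 0 := fun q => by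
    have := hpos q.2
    positivity
  have n4 : ∀ q : ℝ × ℝ, h q.2 ^ 2 + (k q.2 - q.1) ^ 2 ≠ 0 := fun q => by
    have := hpos q.2
    positivity
  have c1 : Continuous fun q : ℝ × ℝ => ρ q.2 / h q.2 :=
    Continuous.div₀ (by fun_prop) (by fun_prop) n1
  have c2 : Continuous fun q : ℝ × ℝ => q.1 / √(ρ q.2 * h q.2) :=
    Continuous.div₀ (by fun_prop) (by fun_prop) n2
  have c3 : Continuous fun q : ℝ × ℝ => (k q.2 + q.1) / h q.2 :=
    Continuous.div₀ (by fun_prop) (by fun_prop) n1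
  have c4 : Continuous fun q : ℝ × ℝ => (k q.2 - q.1) / h q.2 :=
    Continuous.div₀ (by fun_prop) (by fun_prop) n1
  have c5 : Continuous fun q : ℝ × ℝ => k q.2 / h q.2 :=
    Continuous.div₀ (by fun_prop) (by fun_prop) n1
  have c6 : Continuous fun q : ℝ × ℝ => log (h q.2 ^ 2 + (k q.2 + q.1) ^ 2) :=
    Continuous.log (by fun_prop) n3
  have c7 : Continuous fun q : ℝ × ℝ => log (h q.2 ^ 2 + (k q.2 - q.1) ^ 2) :=
    Continuous.log (by fun_prop) n4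
  exact ((((continuous_const.mul c1.sqrt).mul (continuous_arctan.comp c2)).sub
    ((continuous_arctan.comp c3).sub (continuous_arctan.comp c4)))).sub
    (c5.mul ((c6.div_const 2).sub (c7.div_const 2)))

lemma continuous_GG (B : Fam h k ρ r τ) (hpos : ∀ θ, 0 < h θ) {c : ℝ} (hc : c ∈ Ioo (0:ℝ) 1) :
    Continuous fun t => GG h k ρ (r c t) t :=
  (B.continuous_GG2 hpos).comp ((B.continuous_r hc).prodMk continuous_id)

lemma r_strictMono (B : Fam h k ρ r τ) (θ : ℝ) : StrictMonoOn (fun x => r x θ) (Ioo 0 1) := by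
  refine strictMonoOn_of_deriv_pos (convex_Ioo 0 1) ?_ ?_
  · exact fun x hx => (der1 B.r_smooth hx θ).continuousAt.continuousWithinAt
  · intro x hx
    rw [interior_Ioo] at hx
    exact B.r_mono x hx θ

lemma tendsto_EE (B : Fam h k ρ r τ) (hpos : ∀ θ, 0 < h θ) :
    Tendsto (fun c => EE h k ρ (r c)) (𝓝[>] 0) (𝓝 0) := by
  have hev : ∀ᶠ c in 𝓝[>] (0:ℝ), c ∈ Ioo (0:ℝ) (1 / 2) := Ioo_mem_nhdsGT (by norm_num)
  have hhalf : (1 / 2 : ℝ) ∈ Ioo (0:ℝ) 1 := by constructor <;> norm_num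
  have hsub : ∀ c ∈ Ioo (0:ℝ) (1 / 2), c ∈ Ioo (0:ℝ) 1 := fun c hc =>
    ⟨hc.1, by linarith [hc.2]⟩
  have hGG := B.continuous_GG2 hpos
  obtain ⟨M, hM⟩ := isCompact_Icc.exists_bound_of_continuousOn (s := Icc (0:ℝ) (2 * π))
    (B.continuous_r hhalf).continuousOn
  obtain ⟨C, hC⟩ := (isCompact_Icc.prod isCompact_Icc).exists_bound_of_continuousOn
    (s := Icc (0:ℝ) M ×ˢ Icc (0:ℝ) (2 * π)) hGG.continuousOn
  have hz : (0:ℝ) = ∫ _ in (0:ℝ)..(2 * π), (0:ℝ) := by simp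
  have hz2 : 𝓝 (0:ℝ) = 𝓝 (∫ _ in (0:ℝ)..(2 * π), (0:ℝ)) := by rw [← hz]
  rw [hz2]
  unfold EE
  refine intervalIntegral.tendsto_integral_filter_of_dominated_convergence (fun _ => C)
    ?_ ?_ ?_ ?_
  · filter_upwards [hev] with c hc
    exact (B.continuous_GG hpos (hsub c hc)).aestronglyMeasurable
  · filter_upwards [hev] with c hc
    refine Filter.Eventually.of_forall fun t ht => ?_
    rw [uIoc_of_le (by positivity)] at ht
    have h1 := B.r_pos c (hsub c hc) t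
    have h2 : r c t ≤ r (1 / 2) t := (B.r_strictMono t (hsub c hc) hhalf hc.2).le
    have h3 := hM t ⟨ht.1.le, ht.2⟩
    rw [Real.norm_eq_abs] at h3
    exact hC (r c t, t) ⟨⟨h1.le, h2.trans ((le_abs_self _).trans h3)⟩, ⟨ht.1.le, ht.2⟩⟩
  · exact continuous_const.intervalIntegrable _ _
  · refine Filter.Eventually.of_forall fun t _ => ?_
    have hGc : Continuous fun x => GG h k ρ x t :=
      hGG.comp (continuous_id.prodMk continuous_const)
    have hG0 : GG h k ρ 0 t = 0 := by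
      unfold GG
      simp
    have := (hGc.tendsto 0).comp (B.r_lim t)
    rw [hG0] at this
    exact this

lemma EE_sub (B : Fam h k ρ r τ) (hpos : ∀ θ, 0 < h θ) {c₁ c₂ : ℝ} (k1 : 0 < c₁)
    (k12 : c₁ ≤ c₂) (k2 : c₂ < 1) :
    EE h k ρ (r c₂) - EE h k ρ (r c₁) =
      ∫ c in c₁..c₂, (∫ t in (0:ℝ)..(2 * π), gg h k ρ (r c t) t * pd1 r (c, t)) := by
  have m1 : c₁ ∈ Ioo (0:ℝ) 1 := ⟨k1, by linarith⟩
  have m2 : c₂ ∈ Ioo (0:ℝ) 1 := ⟨by linarith, k2⟩
  rw [B.double_integral hpos k1 k12 k2, intervalIntegral.integral_sub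
    ((B.continuous_GG hpos m2).intervalIntegrable _ _)
    ((B.continuous_GG hpos m1).intervalIntegrable _ _)]
  rfl

lemma EE_mono (B : Fam h k ρ r τ) (hpos : ∀ θ, 0 < h θ) {c₁ c₂ : ℝ} (k1 : 0 < c₁)
    (k12 : c₁ ≤ c₂) (k2 : c₂ < 1) : EE h k ρ (r c₁) ≤ EE h k ρ (r c₂) := by
  have := B.EE_sub hpos k1 k12 k2
  have : 0 ≤ ∫ c in c₁..c₂, (∫ t in (0:ℝ)..(2 * π), gg h k ρ (r c t) t * pd1 r (c, t)) := by
    refine intervalIntegral.integral_nonneg k12 fun x hx => ?_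
    exact B.leaf_integral_nonneg hpos ⟨by linarith [hx.1], by linarith [hx.2]⟩
  linarith

theorem hopf_nonneg (B : Fam h k ρ r τ) (hpos : ∀ θ, 0 < h θ) {c : ℝ} (hc : c ∈ Ioo (0:ℝ) 1) :
    0 ≤ EE h k ρ (r c) := by
  refine le_of_tendsto (B.tendsto_EE hpos) ?_
  filter_upwards [Ioo_mem_nhdsGT hc.1] with x hx
  exact B.EE_mono hpos hx.1 hx.2.le hc.2

theorem hopf_eq_zero (B : Fam h k ρ r τ) (hpos : ∀ θ, 0 < h θ) {c₀ : ℝ} (hc₀ : c₀ ∈ Ioo (0:ℝ) 1)
    (h0 : EE h k ρ (r c₀) ≤ 0) {c : ℝ} (hc : c ∈ Ioc 0 c₀) (θ : ℝ) :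
    h θ * r c θ = h 0 * r c 0 := by
  have hE0 : EE h k ρ (r c₀) = 0 := le_antisymm h0 (B.hopf_nonneg hpos hc₀)
  have hc' : c ∈ Ioo (0:ℝ) 1 := ⟨hc.1, hc.2.trans_lt hc₀.2⟩
  -- the leaf integral vanishes
  have hl : ∫ t in (0:ℝ)..(2 * π), gg h k ρ (r c t) t * pd1 r (c, t) = 0 := by
    have hc1 : 0 < c / 2 := by linarith [hc.1]
    have hc2 : c / 2 ≤ c₀ := by linarith [hc.2, hc.1]
    obtain ⟨f, hf, hfe⟩ := B.exists_continuous_extension hpos hc1 hc2 hc₀.2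
    have e0 : EE h k ρ (r (c / 2)) = 0 :=
      le_antisymm (by rw [← hE0]; exact B.EE_mono hpos hc1 hc2 hc₀.2)
        (B.hopf_nonneg hpos ⟨hc1, by linarith [hc₀.2]⟩)
    have e1 : ∫ t in (c / 2)..c₀, f t = 0 := by
      have e2 := B.EE_sub hpos hc1 hc2 hc₀.2
      rw [e0, hE0, sub_zero] at e2
      rw [e2]
      refine intervalIntegral.integral_congr fun t ht => ?_
      rw [uIcc_of_le hc2] at ht
      exact hfe t ht
    by_contra hne
    have hpos' : 0 < f c := by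
      rw [hfe c ⟨by linarith [hc.1], hc.2⟩]
      exact lt_of_le_of_ne (B.leaf_integral_nonneg hpos hc') (Ne.symm hne)
    have : 0 < ∫ t in (c / 2)..c₀, f t := by
      refine intervalIntegral.integral_pos (by linarith [hc.1, hc.2]) hf.continuousOn ?_ ?_
      · intro t ht
        rw [hfe t ⟨ht.1.le, ht.2⟩]
        exact B.leaf_integral_nonneg hpos ⟨by linarith [ht.1], by linarith [ht.2, hc₀.2]⟩
      · exact ⟨c, ⟨by linarith [hc.1], hc.2⟩, hpos'⟩
    rw [e1] at this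
    exact lt_irrefl _ this
  rw [B.leaf_integral hpos hc'] at hl
  have hz : ∀ t ∈ Icc 0 (2 * π), dfct h k ρ r c t = 0 := by
    intro t ht
    by_contra hne
    have hpos' : 0 < dfct h k ρ r c t :=
      lt_of_le_of_ne (B.dfct_nonneg hpos hc' t) (Ne.symm hne)
    have : 0 < ∫ t in (0:ℝ)..(2 * π), dfct h k ρ r c t :=
      intervalIntegral.integral_pos (by positivity) (B.continuous_dfct hpos hc').continuousOn
        (fun t _ => B.dfct_nonneg hpos hc' t) ⟨t, ht, hpos'⟩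
    rw [hl] at this
    exact lt_irrefl _ this
  have hz2 : ∀ t, h t * pd2 r (c, t) + k t * r c t = 0 := by
    intro t
    have hper : Function.Periodic (dfct h k ρ r c) (2 * π) := B.dfct_per hc'
    obtain ⟨s, hs, hse⟩ := hper.exists_mem_Ico₀ (by positivity) t
    have h3 : dfct h k ρ r c t = 0 := by
      rw [hse]
      exact hz s ⟨hs.1, hs.2.le⟩
    have p1 := B.xm_pos hpos hc' t
    have p2 := B.xp_pos hpos hc' t
    have p3 := B.fl_pos hc' t
    have p4 := B.r_pos c hc' t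
    have p5 := hpos t
    have h4 : xp h k ρ r c t - xm h k ρ r c t = 0 := by
      unfold dfct at h3
      rcases div_eq_zero_iff.1 h3 with h6 | h6
      · rcases mul_eq_zero.1 h6 with h7 | h7
        · exact absurd h7 (by positivity)
        · exact pow_eq_zero_iff (two_ne_zero) |>.1 h7
      · exact absurd h6 (by positivity)
    unfold xp xm Xp Xm at h4
    linarith
  have hd : ∀ t, HasDerivAt (fun t => h t * r c t) 0 t := by
    intro t
    refine ((B.h_deriv t).mul (der2 B.r_smooth hc' t)).congr_deriv ?_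
    have := hz2 t
    linarith
  exact is_const_of_deriv_eq_zero (fun t => (hd t).differentiableAt) (fun t => (hd t).deriv) θ 0

end Fam

end Pool.Agent.MP_ae5b4e_an.Out
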