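import Mathlib

/-!
MP_ae5b4e_an, theorem on outer billiards: the pointwise inequality.
-/

noncomputable section

namespace Pool.Agent.MP_ae5b4e_an.Out

open Real Set Filter Topology MeasureTheory

/-- The one-variable inequality behind `log_ineq`. -/
theorem log_ineq_one {s : ℝ} (hs : 1 ≤ s) :
    (1 + s) + (s - 1) * (log 2 - log s) ≤ √(3 * (1 + s)) := by
  have hs0 : 0 < s := by linarith
  obtain ⟨w, hw0, hw⟩ : ∃ w : ℝ, 0 < w ∧ 1 + s = 3 * w ^ 2 := by
    refine ⟨√((1 + s) / 3), Real.sqrt_pos.2 (by positivity), ?_⟩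
    rw [Real.sq_sqrt (by positivity)]; ring
  have hsq : √(3 * (1 + s)) = 3 * w := by
    rw [hw, show 3 * (3 * w ^ 2) = (3 * w) ^ 2 by ring, Real.sqrt_sq (by positivity)]
  rw [hsq]
  have hsw : s = 3 * w ^ 2 - 1 := by linarith
  have hlog : log 2 - log s = - log (s / 2) := by
    rw [Real.log_div hs0.ne' (by norm_num)]; ring
  rw [hlog]
  have hw2 : 2 / 3 ≤ w ^ 2 := by nlinarith
  rcases le_total 1 w with h1 | h1
  · -- `s ≥ 2`
    have hv : 0 ≤ s / 2 - 1 := by nlinarith
    have := Real.le_log_one_add_of_nonneg hv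
    rw [show 1 + (s / 2 - 1) = s / 2 by ring] at this
    have hden : 0 < s / 2 - 1 + 2 := by linarith
    have h2 : 2 * (s / 2 - 1) ≤ log (s / 2) * (s / 2 - 1 + 2) := by
      rwa [div_le_iff₀ hden] at this
    have h3 : 6 * (w ^ 2 - 1) ≤ log (s / 2) * (3 * w ^ 2 + 1) := by
      rw [hsw] at h2 ⊢
      nlinarith
    -- `(3w²-2) log v ≥ 3 w (w-1)`
    have h4 : 3 * w * (w - 1) ≤ (3 * w ^ 2 - 2) * log (s / 2) := by
      have h5 : (3 * w ^ 2 - 2) * (6 * (w ^ 2 - 1)) ≤
          (3 * w ^ 2 - 2) * (log (s / 2) * (3 * w ^ 2 + 1)) :=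
        mul_le_mul_of_nonneg_left h3 (by linarith)
      have h6 : 0 ≤ 3 * w ^ 3 + 6 * w ^ 2 - 5 * w - 4 := by
        nlinarith [mul_nonneg (sub_nonneg.2 h1) (sub_nonneg.2 h1), pow_pos hw0 2, pow_pos hw0 3]
      have h7 : 3 * w * (w - 1) * (3 * w ^ 2 + 1) ≤ (3 * w ^ 2 - 2) * (6 * (w ^ 2 - 1)) := by
        nlinarith [mul_nonneg (sub_nonneg.2 h1) h6]
      have h8 : 0 < 3 * w ^ 2 + 1 := by positivity
      have h9 : 3 * w * (w - 1) * (3 * w ^ 2 + 1) ≤
          (3 * w ^ 2 - 2) * log (s / 2) * (3 * w ^ 2 + 1) := by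
        calc _ ≤ _ := h7
          _ ≤ _ := h5
          _ = _ := by ring
      exact le_of_mul_le_mul_right h9 h8
    have h5 : s - 1 = 3 * w ^ 2 - 2 := by linarith
    rw [h5]
    nlinarith
  · -- `1 ≤ s ≤ 2`
    have hv0 : 0 < s / 2 := by positivity
    have hv1 : s / 2 ≤ 1 := by nlinarith
    have hl : 0 ≤ - log (s / 2) := by
      have := Real.log_nonpos hv0.le hv1
      linarith
    have hsinh := Real.self_le_sinh_iff.2 hl
    rw [← Real.log_inv, Real.sinh_log (by positivity), inv_inv] at hsinh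
    rw [Real.log_inv] at hsinh
    -- `-log v ≤ (1/v - v)/2`
    have h5 : s - 1 = 3 * w ^ 2 - 2 := by linarith
    have h6 : (s / 2)⁻¹ - s / 2 = 3 * (1 - w ^ 2) * (3 * w ^ 2 + 1) / (2 * (3 * w ^ 2 - 1)) := by
      rw [hsw]
      have : (3 * w ^ 2 - 1) ≠ 0 := by nlinarith
      field_simp
      ring
    have h7 : (3 * w ^ 2 - 2) * (3 * (1 - w ^ 2) * (3 * w ^ 2 + 1) / (2 * (3 * w ^ 2 - 1)) / 2) ≤
        3 * w * (1 - w) := by
      have hd : 0 < 3 * w ^ 2 - 1 := by linarith
      have h8 : 0 ≤ (1 - w) * (9 * w ^ 4 + 18 * w ^ 3 + 3 * w ^ 2 + 2) :=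
        mul_nonneg (sub_nonneg.2 h1) (by positivity)
      have h9 := mul_nonneg (sub_nonneg.2 h1) h8
      rw [div_div, mul_div_assoc', div_le_iff₀ (by positivity)]
      nlinarith
    rw [h6] at hsinh
    have h8 := mul_le_mul_of_nonneg_left hsinh (by linarith : 0 ≤ 3 * w ^ 2 - 2)
    rw [h5]
    nlinarith

theorem log_ineq_norm {y z : ℝ} (hy : 0 < y) (hz : 0 < z) :
    (1 + y + z) * (y + z) + (y + z - 1) * (-(z * log z) - y * log y) ≤
      √(6 * ((1 + y + z) * (y ^ 2 + z ^ 2))) := by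
  have hsq : 3 * (1 + (y + z)) * (y + z) ^ 2 ≤ 6 * ((1 + y + z) * (y ^ 2 + z ^ 2)) := by
    nlinarith [mul_nonneg (by positivity : 0 ≤ 1 + y + z) (sq_nonneg (y - z))]
  rcases le_total (y + z) 1 with h1 | h1
  · have hl : 0 ≤ -(z * log z) - y * log y := by
      have := mul_nonneg hz.le (neg_nonneg.2 (Real.log_nonpos hz.le (by linarith)))
      have := mul_nonneg hy.le (neg_nonneg.2 (Real.log_nonpos hy.le (by linarith)))
      linarith
    have h2 : (1 + y + z) * (y + z) + (y + z - 1) * (-(z * log z) - y * log y) ≤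
        (1 + y + z) * (y + z) := by
      nlinarith [mul_nonneg (sub_nonneg.2 h1) hl]
    refine h2.trans (Real.le_sqrt_of_sq_le (le_trans ?_ hsq))
    have h3 : 0 ≤ (1 + (y + z)) * (y + z) ^ 2 := by positivity
    nlinarith [mul_nonneg h3 (by linarith : 0 ≤ 2 - (1 + (y + z)))]
  · have hs0 : 0 < y + z := by linarith
    have h2 : -(z * log z) - y * log y ≤ (y + z) * (log 2 - log (y + z)) := by
      have e1 := Real.log_le_sub_one_of_pos (show 0 < (y + z) / (2 * z) by positivity)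
      have e2 := Real.log_le_sub_one_of_pos (show 0 < (y + z) / (2 * y) by positivity)
      rw [Real.log_div hs0.ne' (by positivity), Real.log_mul (by norm_num) hz.ne'] at e1
      rw [Real.log_div hs0.ne' (by positivity), Real.log_mul (by norm_num) hy.ne'] at e2
      have f1 := mul_le_mul_of_nonneg_left e1 hz.le
      have f2 := mul_le_mul_of_nonneg_left e2 hy.le
      have g1 : z * ((y + z) / (2 * z) - 1) = (y + z) / 2 - z := by field_simp
      have g2 : y * ((y + z) / (2 * y) - 1) = (y + z) / 2 - y := by field_simp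
      rw [g1] at f1
      rw [g2] at f2
      nlinarith
    have h3 := mul_le_mul_of_nonneg_left h2 (by linarith : 0 ≤ y + z - 1)
    have h4 := mul_le_mul_of_nonneg_left (log_ineq_one h1) hs0.le
    have h5 : (y + z) * √(3 * (1 + (y + z))) ≤ √(6 * ((1 + y + z) * (y ^ 2 + z ^ 2))) := by
      apply Real.le_sqrt_of_sq_le
      rw [mul_pow, Real.sq_sqrt (by positivity)]
      linarith
    linarith

theorem log_ineq {x y z : ℝ} (hx : 0 < x) (hy : 0 < y) (hz : 0 < z) :
    (x + y + z) * (y + z) + (y + z - x) * (z * log (x / z) + y * log (x / y)) ≤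
      √(6 * (x * (x + y + z) * (y ^ 2 + z ^ 2))) := by
  have h := log_ineq_norm (div_pos hy hx) (div_pos hz hx)
  have h2 := mul_le_mul_of_nonneg_left h (sq_nonneg x)
  have e1 : log (y / x) = - log (x / y) := by rw [← Real.log_inv, inv_div]
  have e2 : log (z / x) = - log (x / z) := by rw [← Real.log_inv, inv_div]
  rw [e1, e2] at h2
  have e3 : x ^ 2 * ((1 + y / x + z / x) * (y / x + z / x) + (y / x + z / x - 1) *
      (-(z / x * -log (x / z)) - y / x * -log (x / y))) =
      (x + y + z) * (y + z) + (y + z - x) * (z * log (x / z) + y * log (x / y)) := by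
    field_simp
    ring
  have e4 : x ^ 2 * √(6 * ((1 + y / x + z / x) * ((y / x) ^ 2 + (z / x) ^ 2))) =
      √(6 * (x * (x + y + z) * (y ^ 2 + z ^ 2))) := by
    rw [show x ^ 2 = √((x ^ 2) ^ 2) by rw [Real.sqrt_sq (by positivity)],
      ← Real.sqrt_mul (by positivity)]
    congr 1
    field_simp
  rw [e3, e4] at h2
  exact h2

/-- One coefficient of `pointwise`. -/
theorem pointwise_coeff {x y z κ : ℝ} (hx : 0 < x) (hy : 0 < y) (hz : 0 < z)
    (hs : x + y + z = 1) (hκ : 0 < κ) :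
    1 / 2 * (1 / y + 1 / z) + 1 / 2 * ((1 - 2 * x) *
        ((log x - log z) / y + (log x - log y) / z)) ≤
      √3 / 4 * (κ * (2 * x) + κ⁻¹ * (1 / y ^ 2 + 1 / z ^ 2)) := by
  have h := log_ineq hx hy hz
  rw [hs, Real.log_div hx.ne' hz.ne', Real.log_div hx.ne' hy.ne'] at h
  have h1 : y + z - x = 1 - 2 * x := by linarith
  rw [h1] at h
  -- AM-GM
  have h2 : √(6 * (x * 1 * (y ^ 2 + z ^ 2))) ≤
      √3 / 2 * (2 * κ * x * y * z + κ⁻¹ * (y ^ 2 + z ^ 2) / (y * z)) := by
    apply Real.sqrt_le_iff.2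
    refine ⟨by positivity, ?_⟩
    have h3 : (√3) ^ 2 = 3 := Real.sq_sqrt (by norm_num)
    have h4 : (2 * κ * x * y * z) * (κ⁻¹ * (y ^ 2 + z ^ 2) / (y * z)) =
        2 * x * (y ^ 2 + z ^ 2) := by field_simp
    have h5 := sq_nonneg (2 * κ * x * y * z - κ⁻¹ * (y ^ 2 + z ^ 2) / (y * z))
    rw [mul_pow, div_pow, h3]
    nlinarith
  have h3 := h.trans h2
  have hyz : 0 < 2 * (y * z) := by positivity
  rw [← mul_le_mul_iff_right₀ hyz]
  calc _ = 1 * (y + z) + (1 - 2 * x) * (z * (log x - log z) + y * (log x - log y)) := by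
        field_simp
        ring
    _ ≤ _ := h3
    _ = _ := by
        field_simp
        ring

theorem pointwise {p1 p2 p3 a1 a2 a3 κ : ℝ} (hp1 : 0 < p1) (hp2 : 0 < p2) (hp3 : 0 < p3)
    (hp : p1 + p2 + p3 = 1) (ha1 : 0 ≤ a1) (ha2 : 0 ≤ a2) (ha3 : 0 ≤ a3) (hκ : 0 < κ) :
    1 / 2 * ((a2 + a3) / p1 + (a3 + a1) / p2 + (a1 + a2) / p3) +
      1 / 2 * ((a3 * (1 - 2 * p3) - a2 * (1 - 2 * p2)) / p1 * (log p3 - log p2) +
        (a1 * (1 - 2 * p1) - a3 * (1 - 2 * p3)) / p2 * (log p1 - log p3) +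
        (a2 * (1 - 2 * p2) - a1 * (1 - 2 * p1)) / p3 * (log p2 - log p1)) ≤
      √3 / 4 * (κ * (2 * a1 * p1 + 2 * a2 * p2 + 2 * a3 * p3) +
        κ⁻¹ * ((a2 + a3) / p1 ^ 2 + (a3 + a1) / p2 ^ 2 + (a1 + a2) / p3 ^ 2)) := by
  have h1 := mul_le_mul_of_nonneg_left (pointwise_coeff hp1 hp2 hp3 hp hκ) ha1
  have h2 := mul_le_mul_of_nonneg_left
    (pointwise_coeff hp2 hp3 hp1 (by linarith : p2 + p3 + p1 = 1) hκ) ha2
  have h3 := mul_le_mul_of_nonneg_left
    (pointwise_coeff hp3 hp1 hp2 (by linarith : p3 + p1 + p2 = 1) hκ) ha3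
  have h4 := add_le_add (add_le_add h1 h2) h3
  refine (le_of_eq ?_).trans (h4.trans (le_of_eq ?_))
  · ring
  · ring

theorem arctan_le_line (x : ℝ) (hx : 0 ≤ x) : arctan x ≤ π / 3 + (x - √3) / 4 := by
  have h3 : (√3) ^ 2 = 3 := Real.sq_sqrt (by norm_num)
  have h30 : 0 < √3 := Real.sqrt_pos.2 (by norm_num)
  have hd : ∀ y : ℝ, HasDerivAt (fun y => π / 3 + (y - √3) / 4 - arctan y)
      (1 / 4 - 1 / (1 + y ^ 2)) y := by
    intro y
    have := (((hasDerivAt_id y).sub_const (√3)).div_const 4).const_add (π / 3)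
    exact this.sub (Real.hasDerivAt_arctan y)
  have h0 : (fun y => π / 3 + (y - √3) / 4 - arctan y) (√3) = 0 := by
    simp only [sub_self, zero_div, add_zero]
    rw [Real.arctan_sqrt_three]; ring
  have key : 0 ≤ (fun y => π / 3 + (y - √3) / 4 - arctan y) x := by
    rcases le_total x (√3) with h | h
    · have hanti : AntitoneOn (fun y => π / 3 + (y - √3) / 4 - arctan y) (Icc 0 (√3)) := by
        apply antitoneOn_of_deriv_nonpos (convex_Icc _ _)
        · exact fun y _ => (hd y).continuousAt.continuousWithinAt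
        · exact fun y _ => (hd y).differentiableAt.differentiableWithinAt
        · intro y hy
          rw [interior_Icc] at hy
          rw [(hd y).deriv]
          have : y ^ 2 ≤ 3 := by nlinarith [hy.1, hy.2]
          rw [sub_nonpos, div_le_div_iff₀ (by norm_num) (by positivity)]
          linarith
      have := hanti ⟨hx, h⟩ ⟨h30.le, le_refl _⟩ h
      rw [h0] at this
      exact this
    · have hmono : MonotoneOn (fun y => π / 3 + (y - √3) / 4 - arctan y) (Ici (√3)) := by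
        apply monotoneOn_of_deriv_nonneg (convex_Ici _)
        · exact fun y _ => (hd y).continuousAt.continuousWithinAt
        · exact fun y _ => (hd y).differentiableAt.differentiableWithinAt
        · intro y hy
          rw [interior_Ici] at hy
          rw [(hd y).deriv]
          have hy' : √3 < y := hy
          have : 3 ≤ y ^ 2 := by nlinarith
          rw [sub_nonneg, div_le_div_iff₀ (by positivity) (by norm_num)]
          linarith
      have := hmono (self_mem_Ici) h h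
      rw [h0] at this
      exact this
  have key' : 0 ≤ π / 3 + (x - √3) / 4 - arctan x := key
  linarith

/-- the tangent line of `arctan` at `√3` -/
theorem arctan_bound {ρ h r : ℝ} (hρ : 0 < ρ) (hh : 0 < h) (hr : 0 < r) :
    2 * √(ρ / h) * arctan (r / √(ρ * h)) ≤ (2 * π / 3 - √3 / 2) * √(ρ / h) + r / h / 2 := by
  have h1 := arctan_le_line (r / √(ρ * h)) (by positivity)
  have h2 : √(ρ / h) * (r / √(ρ * h)) = r / h := by
    have e : √(ρ * h) = √(ρ / h) * h := by
      rw [show ρ * h = (ρ / h) * h ^ 2 by field_simp, Real.sqrt_mul (by positivity),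
        Real.sqrt_sq hh.le]
    rw [e]
    have : √(ρ / h) ≠ 0 := (Real.sqrt_pos.2 (by positivity)).ne'
    field_simp
  have h3 := mul_le_mul_of_nonneg_left h1 (by positivity : 0 ≤ 2 * √(ρ / h))
  nlinarith

end Pool.Agent.MP_ae5b4e_an.Out
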