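import Mathlib
import Pool.Agent.Lib.MP_ae5b4e_an.Out.Rel
import Pool.Agent.Lib.MP_ae5b4e_an.Out.Ptw
import Pool.Agent.Lib.MP_ae5b4e_an.Out.Dilog

/-!
MP_ae5b4e_an, theorem on outer billiards: the upper bound of the Hopf functional on the leaf of
`3`-periodic orbits.
-/

noncomputable section

namespace Pool.Agent.MP_ae5b4e_an.Out

open Real Set Filter Topology MeasureTheory
open Pool.Agent.MP_ae5b4e_an.Birk.Hopf

/-- logarithm of the distance of the vertex ahead -/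
def lp (h k r : ℝ → ℝ) (θ : ℝ) : ℝ := log (h θ ^ 2 + (k θ + r θ) ^ 2) / 2
/-- logarithm of the distance of the vertex behind -/
def lm (h k r : ℝ → ℝ) (θ : ℝ) : ℝ := log (h θ ^ 2 + (k θ - r θ) ^ 2) / 2
/-- polar angle of the vertex ahead -/
def ap (h k r : ℝ → ℝ) (θ : ℝ) : ℝ := θ + arctan ((k θ + r θ) / h θ)
/-- polar angle of the vertex behind -/
def am (h k r : ℝ → ℝ) (θ : ℝ) : ℝ := θ + arctan ((k θ - r θ) / h θ)

lemma exp_polar {h y θ : ℝ} (hh : 0 < h) :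
    Complex.exp ((log (h ^ 2 + y ^ 2) / 2 : ℝ) + (θ + arctan (y / h) : ℝ) * Complex.I) =
      (h + y * Complex.I) * Complex.exp (θ * Complex.I) := by
  have h1 : (log (h ^ 2 + y ^ 2) / 2 : ℝ) = log (√(h ^ 2 + y ^ 2)) := by
    rw [Real.log_sqrt (by positivity)]
  have hR : 0 < √(h ^ 2 + y ^ 2) := Real.sqrt_pos.2 (by positivity)
  have h2 : Complex.exp ((log (h ^ 2 + y ^ 2) / 2 : ℝ)) = (√(h ^ 2 + y ^ 2) : ℝ) := by
    rw [h1, ← Complex.ofReal_exp, Real.exp_log hR]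
  have h3 : Complex.exp ((θ + arctan (y / h) : ℝ) * Complex.I) =
      Complex.exp (arctan (y / h) * Complex.I) * Complex.exp (θ * Complex.I) := by
    rw [← Complex.exp_add]
    congr 1
    push_cast
    ring
  have hcos : cos (arctan (y / h)) = h / √(h ^ 2 + y ^ 2) := by
    rw [Real.cos_arctan]
    have : √(1 + (y / h) ^ 2) = √(h ^ 2 + y ^ 2) / h := by
      rw [show 1 + (y / h) ^ 2 = (h ^ 2 + y ^ 2) / h ^ 2 by field_simp,
        Real.sqrt_div (by positivity), Real.sqrt_sq hh.le]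
    rw [this]
    field_simp
  have hsin : sin (arctan (y / h)) = y / √(h ^ 2 + y ^ 2) := by
    have h5 := Real.tan_arctan (y / h)
    rw [Real.tan_eq_sin_div_cos, div_eq_iff (Real.cos_arctan_pos _).ne', hcos] at h5
    rw [h5]
    field_simp
  rw [Complex.exp_add, h2, h3, Complex.exp_mul_I (arctan (y / h) : ℂ), ← Complex.ofReal_cos,
    ← Complex.ofReal_sin, hcos, hsin]
  have hR' : ((√(h ^ 2 + y ^ 2) : ℝ) : ℂ) ≠ 0 := by exact_mod_cast hR.ne'
  push_cast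
  field_simp

namespace Leaf
variable {h k ρ r r' τ τ' : ℝ → ℝ}

/-- the vertex ahead -/
def Zp (h k r : ℝ → ℝ) (θ : ℝ) : ℂ := (h θ + (k θ + r θ) * Complex.I) * Complex.exp (θ * Complex.I)
/-- the vertex behind -/
def Zm (h k r : ℝ → ℝ) (θ : ℝ) : ℂ := (h θ + (k θ - r θ) * Complex.I) * Complex.exp (θ * Complex.I)

lemma exp_p (hpos : ∀ θ, 0 < h θ) (θ : ℝ) :
    Complex.exp (lp h k r θ + ap h k r θ * Complex.I) = Zp h k r θ := by
  have := exp_polar (y := k θ + r θ) (θ := θ) (hpos θ)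
  unfold lp ap Zp
  rw [this]
  push_cast
  ring

lemma exp_m (hpos : ∀ θ, 0 < h θ) (θ : ℝ) :
    Complex.exp (lm h k r θ + am h k r θ * Complex.I) = Zm h k r θ := by
  have := exp_polar (y := k θ - r θ) (θ := θ) (hpos θ)
  unfold lm am Zm
  rw [this]
  push_cast
  ring

lemma Zm_tau (L : Leaf h k ρ r r' τ τ') (θ : ℝ) : Zm h k r (τ θ) = Zp h k r θ := by
  unfold Zm Zp
  rw [Complex.exp_mul_I, Complex.exp_mul_I, ← Complex.ofReal_cos, ← Complex.ofReal_sin,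
    ← Complex.ofReal_cos, ← Complex.ofReal_sin]
  apply Complex.ext
  · have := L.eq_x θ
    simp only [Complex.mul_re, Complex.add_re, Complex.ofReal_re, Complex.sub_re, Complex.I_re,
      Complex.sub_im, Complex.ofReal_im, Complex.I_im, Complex.add_im, Complex.mul_im]
    linarith
  · have := L.eq_y θ
    simp only [Complex.mul_re, Complex.add_re, Complex.ofReal_re, Complex.sub_re, Complex.I_re,
      Complex.sub_im, Complex.ofReal_im, Complex.I_im, Complex.add_im, Complex.mul_im]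
    linarith

lemma Zm_per (L : Leaf h k ρ r r' τ τ') (θ : ℝ) : Zm h k r (θ + 2 * π) = Zm h k r θ := by
  unfold Zm
  rw [L.h_per, L.k_per, L.r_per]
  have : ((θ + 2 * π : ℝ) : ℂ) * Complex.I = θ * Complex.I + 2 * π * Complex.I := by
    push_cast; ring
  rw [this, Complex.exp_periodic]

lemma Z_sub (θ : ℝ) : Zp h k r θ - Zm h k r θ =
    2 * Complex.I * r θ * Complex.exp (θ * Complex.I) := by
  unfold Zp Zm
  ring

lemma lm_tau (L : Leaf h k ρ r r' τ τ') (θ : ℝ) : lm h k r (τ θ) = lp h k r θ := by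
  unfold lm lp
  rw [L.dist_eq θ]

lemma am_tau (L : Leaf h k ρ r r' τ τ') (hpos : ∀ θ, 0 < h θ) (θ : ℝ) :
    am h k r (τ θ) = ap h k r θ := by
  have h1 : Complex.exp (lm h k r (τ θ) + am h k r (τ θ) * Complex.I) =
      Complex.exp (lp h k r θ + ap h k r θ * Complex.I) := by
    rw [exp_m hpos, exp_p hpos, L.Zm_tau]
  rw [Complex.exp_eq_exp_iff_exists_int] at h1
  obtain ⟨n, hn⟩ := h1
  have h2 := congrArg Complex.im hn
  simp only [Complex.add_im, Complex.ofReal_im, Complex.mul_im, Complex.ofReal_re, Complex.I_im,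
    Complex.I_re, Complex.intCast_re, Complex.intCast_im, Complex.mul_re] at h2
  norm_num at h2
  have h3 := L.τ_mem θ
  have b1 := Real.arctan_lt_pi_div_two ((k (τ θ) - r (τ θ)) / h (τ θ))
  have b2 := Real.neg_pi_div_two_lt_arctan ((k (τ θ) - r (τ θ)) / h (τ θ))
  have b3 := Real.arctan_lt_pi_div_two ((k θ + r θ) / h θ)
  have b4 := Real.neg_pi_div_two_lt_arctan ((k θ + r θ) / h θ)
  have h4 : am h k r (τ θ) - ap h k r θ < 2 * π := by
    unfold am ap; linarith [h3.2]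
  have h5 : -(2 * π) < am h k r (τ θ) - ap h k r θ := by
    unfold am ap; linarith [h3.1, pi_pos]
  have hn0 : n = 0 := by
    have c1 : (n : ℝ) * (2 * π) < 1 * (2 * π) := by linarith
    have c2 : (-1 : ℝ) * (2 * π) < n * (2 * π) := by linarith
    have d1 : (n : ℝ) < 1 := lt_of_mul_lt_mul_right c1 (by positivity)
    have d2 : (-1 : ℝ) < n := lt_of_mul_lt_mul_right c2 (by positivity)
    have e1 : n < 1 := by exact_mod_cast d1
    have e2 : -1 < n := by exact_mod_cast d2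
    omega
  rw [hn0] at h2
  simp at h2
  exact h2

lemma am_per (L : Leaf h k ρ r r' τ τ') (θ : ℝ) : am h k r (θ + 2 * π) = am h k r θ + 2 * π := by
  unfold am
  rw [L.h_per, L.k_per, L.r_per]
  ring

lemma ap_per (L : Leaf h k ρ r r' τ τ') (θ : ℝ) : ap h k r (θ + 2 * π) = ap h k r θ + 2 * π := by
  unfold ap
  rw [L.h_per, L.k_per, L.r_per]
  ring

lemma lm_per (L : Leaf h k ρ r r' τ τ') (θ : ℝ) : lm h k r (θ + 2 * π) = lm h k r θ := by
  unfold lm
  rw [L.h_per, L.k_per, L.r_per]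

lemma lp_per (L : Leaf h k ρ r r' τ τ') (θ : ℝ) : lp h k r (θ + 2 * π) = lp h k r θ := by
  unfold lp
  rw [L.h_per, L.k_per, L.r_per]

lemma ap_sub_am (L : Leaf h k ρ r r' τ τ') (hpos : ∀ θ, 0 < h θ) (θ : ℝ) :
    ap h k r θ - am h k r θ ∈ Ioo 0 π := by
  have b1 := Real.arctan_lt_pi_div_two ((k θ + r θ) / h θ)
  have b2 := Real.neg_pi_div_two_lt_arctan ((k θ - r θ) / h θ)
  have h1 : (k θ - r θ) / h θ < (k θ + r θ) / h θ := by
    have := hpos θ
    have := L.r_pos θ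
    gcongr
    linarith
  have h2 := Real.arctan_strictMono h1
  unfold ap am
  constructor <;> linarith

/-- continuity of the functions involved -/
lemma conts (L : Leaf h k ρ r r' τ τ') : Continuous h ∧ Continuous k ∧ Continuous r ∧ Continuous τ :=
  ⟨continuous_iff_continuousAt.2 fun θ => (L.h_deriv θ).continuousAt,
    continuous_iff_continuousAt.2 fun θ => (L.k_deriv θ).continuousAt,
    continuous_iff_continuousAt.2 fun θ => (L.r_deriv θ).continuousAt,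
    continuous_iff_continuousAt.2 fun θ => (L.τ_deriv θ).continuousAt⟩

lemma hasDerivAt_lp (L : Leaf h k ρ r r' τ τ') (hpos : ∀ θ, 0 < h θ) (θ : ℝ) :
    HasDerivAt (lp h k r) ((h θ * k θ + (k θ + r θ) * (ρ θ - h θ + r' θ)) /
      (h θ ^ 2 + (k θ + r θ) ^ 2)) θ := by
  have hne : h θ ^ 2 + (k θ + r θ) ^ 2 ≠ 0 := by
    have := hpos θ
    positivity
  have h1 := ((((L.h_deriv θ).pow 2).add (((L.k_deriv θ).add (L.r_deriv θ)).pow 2)).log
    hne).div_const 2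
  refine h1.congr_deriv ?_
  simp only [Pi.add_apply, Pi.pow_apply]
  push_cast
  field_simp

lemma hasDerivAt_ap (L : Leaf h k ρ r r' τ τ') (hpos : ∀ θ, 0 < h θ) (θ : ℝ) :
    HasDerivAt (ap h k r) (1 + ((ρ θ - h θ + r' θ) * h θ - (k θ + r θ) * k θ) /
      (h θ ^ 2 + (k θ + r θ) ^ 2)) θ := by
  have hne : h θ ^ 2 + (k θ + r θ) ^ 2 ≠ 0 := by
    have := hpos θ
    positivity
  have h0 := (hpos θ).ne'
  have h1 := (hasDerivAt_id' θ).add
    ((((L.k_deriv θ).add (L.r_deriv θ)).div (L.h_deriv θ) h0).arctan)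
  refine h1.congr_deriv ?_
  simp only [Pi.add_apply, Pi.div_apply]
  have h2 : 1 + ((k θ + r θ) / h θ) ^ 2 = (h θ ^ 2 + (k θ + r θ) ^ 2) / h θ ^ 2 := by
    field_simp
  rw [h2]
  field_simp

/-- twice the area of the triangle -/
lemma area (L : Leaf h k ρ r r' τ τ') (h3 : ∀ θ, τ (τ (τ θ)) = θ + 2 * π) (θ : ℝ) :
    h θ * r θ + h (τ θ) * r (τ θ) + h (τ (τ θ)) * r (τ (τ θ)) =
      2 * (r θ * r (τ θ)) * sin (τ θ - θ) := by
  have x1 := L.eq_x θ
  have y1 := L.eq_y θ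
  have x2 := L.eq_x (τ θ)
  have y2 := L.eq_y (τ θ)
  have x3 := L.eq_x (τ (τ θ))
  have y3 := L.eq_y (τ (τ θ))
  rw [h3, L.h_per, L.k_per, L.r_per, cos_add_two_pi, sin_add_two_pi] at x3 y3
  rw [sin_sub]
  generalize τ (τ θ) = t3 at *
  generalize τ θ = t2 at *
  have s1 := sin_sq_add_cos_sq θ
  have s2 := sin_sq_add_cos_sq t2
  have s3 := sin_sq_add_cos_sq t3
  generalize cos θ = c1 at *
  generalize sin θ = n1 at *
  generalize cos t2 = c2 at *
  generalize sin t2 = n2 at *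
  generalize cos t3 = c3 at *
  generalize sin t3 = n3 at *
  generalize h θ = h1 at *
  generalize k θ = k1 at *
  generalize r θ = r1 at *
  generalize h t2 = h2 at *
  generalize k t2 = k2 at *
  generalize r t2 = r2 at *
  generalize h t3 = h3' at *
  generalize k t3 = k3 at *
  generalize r t3 = r3 at *
  -- vertices: Z1 = (u1, v1), Z2 = (u2, v2), Z3 = (u3, v3)
  obtain ⟨u1, hu1⟩ : ∃ u, u = h1 * c1 - (k1 + r1) * n1 := ⟨_, rfl⟩
  obtain ⟨v1, hv1⟩ : ∃ u, u = h1 * n1 + (k1 + r1) * c1 := ⟨_, rfl⟩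
  obtain ⟨u2, hu2⟩ : ∃ u, u = h2 * c2 - (k2 + r2) * n2 := ⟨_, rfl⟩
  obtain ⟨v2, hv2⟩ : ∃ u, u = h2 * n2 + (k2 + r2) * c2 := ⟨_, rfl⟩
  obtain ⟨u3, hu3⟩ : ∃ u, u = h3' * c3 - (k3 + r3) * n3 := ⟨_, rfl⟩
  obtain ⟨v3, hv3⟩ : ∃ u, u = h3' * n3 + (k3 + r3) * c3 := ⟨_, rfl⟩
  have e1 : u3 * v1 - v3 * u1 = 2 * (h1 * r1) := by
    rw [hu3, hv3, x3, y3, hu1, hv1]
    linear_combination (2 * (h1 * r1)) * s1
  have e2 : u1 * v2 - v1 * u2 = 2 * (h2 * r2) := by
    rw [hu1, hv1, x1, y1, hu2, hv2]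
    linear_combination (2 * (h2 * r2)) * s2
  have e3 : u2 * v3 - v2 * u3 = 2 * (h3' * r3) := by
    rw [hu2, hv2, x2, y2, hu3, hv3]
    linear_combination (2 * (h3' * r3)) * s3
  have f1 : u1 - u3 = -(2 * r1 * n1) := by
    rw [hu3, x3, hu1]; ring
  have f2 : v1 - v3 = 2 * r1 * c1 := by
    rw [hv3, y3, hv1]; ring
  have f3 : u2 - u1 = -(2 * r2 * n2) := by
    rw [hu1, x1, hu2]; ring
  have f4 : v2 - v1 = 2 * r2 * c2 := by
    rw [hv1, y1, hv2]; ring
  have g : (u1 - u3) * (v2 - v1) - (v1 - v3) * (u2 - u1) = 4 * (r1 * r2) * (n2 * c1 - c2 * n1) := by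
    rw [f1, f2, f3, f4]; ring
  linear_combination (-1 / 2) * (e1 + e2 + e3) + (1 / 2) * g

lemma hasDerivAt_σ (L : Leaf h k ρ r r' τ τ') (θ : ℝ) :
    HasDerivAt (fun θ => h θ * r θ)
      ((Xp h k ρ r r' θ - Xm h k ρ r r' θ) / 2) θ := by
  refine ((L.h_deriv θ).mul (L.r_deriv θ)).congr_deriv ?_
  unfold Xp Xm
  ring

lemma hasDerivAt_ττ (L : Leaf h k ρ r r' τ τ') (θ : ℝ) :
    HasDerivAt (fun s => τ (τ s)) (τ' (τ θ) * τ' θ) θ :=
  (L.τ_deriv (τ θ)).comp θ (L.τ_deriv θ)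

lemma prod_one (L : Leaf h k ρ r r' τ τ') (h3 : ∀ θ, τ (τ (τ θ)) = θ + 2 * π) (θ : ℝ) :
    τ' (τ (τ θ)) * (τ' (τ θ) * τ' θ) = 1 := by
  have h1 : HasDerivAt (fun s => τ (τ (τ s))) (τ' (τ (τ θ)) * (τ' (τ θ) * τ' θ)) θ :=
    (L.τ_deriv (τ (τ θ))).comp θ (L.hasDerivAt_ττ θ)
  have h2 : (fun s => τ (τ (τ s))) = fun s => s + 2 * π := funext h3
  rw [h2] at h1
  exact h1.unique ((hasDerivAt_id' θ).add_const _)

lemma Xm_per (L : Leaf h k ρ r r' τ τ') (θ : ℝ) :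
    Xm h k ρ r r' (θ + 2 * π) = Xm h k ρ r r' θ := by
  unfold Xm
  rw [L.h_per, L.k_per, L.r_per, L.ρ_per, L.r'_per]

lemma X_rel3 (L : Leaf h k ρ r r' τ τ') (h3 : ∀ θ, τ (τ (τ θ)) = θ + 2 * π) (θ : ℝ) :
    Xp h k ρ r r' (τ (τ θ)) * (τ' (τ θ) * τ' θ) = Xm h k ρ r r' θ := by
  rw [L.X_rel (τ (τ θ)), h3, L.Xm_per]
  have := L.prod_one h3 θ
  linear_combination Xm h k ρ r r' θ * this

lemma area_const (L : Leaf h k ρ r r' τ τ') (h3 : ∀ θ, τ (τ (τ θ)) = θ + 2 * π) (θ : ℝ) :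
    h θ * r θ + h (τ θ) * r (τ θ) + h (τ (τ θ)) * r (τ (τ θ)) =
      h 0 * r 0 + h (τ 0) * r (τ 0) + h (τ (τ 0)) * r (τ (τ 0)) := by
  have hd : ∀ s, HasDerivAt (fun θ => h θ * r θ + h (τ θ) * r (τ θ) +
      h (τ (τ θ)) * r (τ (τ θ))) 0 s := by
    intro s
    have a1 := L.hasDerivAt_σ s
    have a2 := (L.hasDerivAt_σ (τ s)).comp s (L.τ_deriv s)
    have a3 := (L.hasDerivAt_σ (τ (τ s))).comp s (L.hasDerivAt_ττ s)
    refine ((a1.add a2).add a3).congr_deriv ?_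
    have b1 := L.X_rel s
    have b2 := L.X_rel (τ s)
    have b3 := L.X_rel3 h3 s
    linear_combination (1 / 2) * b1 + (1 / 2) * τ' s * b2 + (1 / 2) * b3
  exact is_const_of_deriv_eq_zero (fun s => (hd s).differentiableAt) (fun s => (hd s).deriv) θ 0

end Leaf

/-- the algebra at one triangle -/
lemma tri_alg {h1 h2 h3 r1 r2 r3 ρ1 ρ2 ρ3 d1 d2 d3 x1 x2 x3 S κ : ℝ}
    (hh1 : 0 < h1) (hh2 : 0 < h2) (hh3 : 0 < h3) (hr1 : 0 < r1) (hr2 : 0 < r2) (hr3 : 0 < r3)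
    (hρ1 : 0 < ρ1) (hρ2 : 0 < ρ2) (hρ3 : 0 < ρ3) (hd1 : 0 < d1) (hd2 : 0 < d2) (hd3 : 0 < d3)
    (hκ : 0 < κ) (hS : h1 * r1 + h2 * r2 + h3 * r3 = S)
    (X1 : x1 * S = 2 * (r1 * r2) * (h1 * r2 * d2 + h2 * r1 * d1))
    (X2 : x2 * S = 2 * (r2 * r3) * (h2 * r3 * d3 + h3 * r2 * d2))
    (X3 : x3 * S = 2 * (r3 * r1) * (h3 * r1 * d1 + h1 * r3 * d3))
    (A1 : x1 + x3 = 2 * (h1 * ρ1 + r1 ^ 2) * d1)
    (A2 : x2 + x1 = 2 * (h2 * ρ2 + r2 ^ 2) * d2)
    (A3 : x3 + x2 = 2 * (h3 * ρ3 + r3 ^ 2) * d3) :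
    1 / 2 * (r1 * d1 / h1 + r2 * d2 / h2 + r3 * d3 / h3) +
      1 / 2 * ((x1 - x3) / (2 * (h1 * r1)) * (log (h3 * r3 / S) - log (h2 * r2 / S)) +
        (x2 - x1) / (2 * (h2 * r2)) * (log (h1 * r1 / S) - log (h3 * r3 / S)) +
        (x3 - x2) / (2 * (h3 * r3)) * (log (h2 * r2 / S) - log (h1 * r1 / S))) ≤
      √3 / 4 * (κ * (h1 * ρ1 * d1 + h2 * ρ2 * d2 + h3 * ρ3 * d3) +
        κ⁻¹ * (d1 / h1 ^ 2 + d2 / h2 ^ 2 + d3 / h3 ^ 2)) := by
  have hSpos : 0 < S := by rw [← hS]; positivity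
  have a1 : ρ1 * d1 / (2 * r1) = (r2 ^ 2 * d2 + r3 ^ 2 * d3 - r1 ^ 2 * d1) / (2 * S) := by
    rw [div_eq_div_iff (by positivity) (by positivity)]
    apply mul_left_cancel₀ hh1.ne'
    linear_combination -S * A1 + X1 + X3 + 2 * r1 ^ 2 * d1 * hS
  have a2 : ρ2 * d2 / (2 * r2) = (r3 ^ 2 * d3 + r1 ^ 2 * d1 - r2 ^ 2 * d2) / (2 * S) := by
    rw [div_eq_div_iff (by positivity) (by positivity)]
    apply mul_left_cancel₀ hh2.ne'
    linear_combination -S * A2 + X2 + X1 + 2 * r2 ^ 2 * d2 * hS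
  have a3 : ρ3 * d3 / (2 * r3) = (r1 ^ 2 * d1 + r2 ^ 2 * d2 - r3 ^ 2 * d3) / (2 * S) := by
    rw [div_eq_div_iff (by positivity) (by positivity)]
    apply mul_left_cancel₀ hh3.ne'
    linear_combination -S * A3 + X3 + X2 + 2 * r3 ^ 2 * d3 * hS
  have x1e : x1 = 2 * (r1 * r2) * (h1 * r2 * d2 + h2 * r1 * d1) / S := by
    rw [eq_div_iff hSpos.ne', X1]
  have x2e : x2 = 2 * (r2 * r3) * (h2 * r3 * d3 + h3 * r2 * d2) / S := by
    rw [eq_div_iff hSpos.ne', X2]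
  have x3e : x3 = 2 * (r3 * r1) * (h3 * r1 * d1 + h1 * r3 * d3) / S := by
    rw [eq_div_iff hSpos.ne', X3]
  have key := pointwise (p1 := h1 * r1 / S) (p2 := h2 * r2 / S) (p3 := h3 * r3 / S)
    (a1 := ρ1 * d1 / (2 * r1)) (a2 := ρ2 * d2 / (2 * r2)) (a3 := ρ3 * d3 / (2 * r3))
    (κ := κ * S) (by positivity) (by positivity) (by positivity)
    (by rw [← add_div, ← add_div, hS, div_self hSpos.ne']) (by positivity) (by positivity)
    (by positivity) (by positivity)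
  have g1 : (ρ2 * d2 / (2 * r2) + ρ3 * d3 / (2 * r3)) / (h1 * r1 / S) = r1 * d1 / h1 := by
    rw [a2, a3]; field_simp; ring
  have g2 : (ρ3 * d3 / (2 * r3) + ρ1 * d1 / (2 * r1)) / (h2 * r2 / S) = r2 * d2 / h2 := by
    rw [a3, a1]; field_simp; ring
  have g3 : (ρ1 * d1 / (2 * r1) + ρ2 * d2 / (2 * r2)) / (h3 * r3 / S) = r3 * d3 / h3 := by
    rw [a1, a2]; field_simp; ring
  have q1 : (ρ2 * d2 / (2 * r2) + ρ3 * d3 / (2 * r3)) / (h1 * r1 / S) ^ 2 = S * (d1 / h1 ^ 2) := by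
    rw [a2, a3]; field_simp; ring
  have q2 : (ρ3 * d3 / (2 * r3) + ρ1 * d1 / (2 * r1)) / (h2 * r2 / S) ^ 2 = S * (d2 / h2 ^ 2) := by
    rw [a3, a1]; field_simp; ring
  have q3 : (ρ1 * d1 / (2 * r1) + ρ2 * d2 / (2 * r2)) / (h3 * r3 / S) ^ 2 = S * (d3 / h3 ^ 2) := by
    rw [a1, a2]; field_simp; ring
  have w1 : (ρ3 * d3 / (2 * r3) * (1 - 2 * (h3 * r3 / S)) -
      ρ2 * d2 / (2 * r2) * (1 - 2 * (h2 * r2 / S))) / (h1 * r1 / S) =
      (x1 - x3) / (2 * (h1 * r1)) := by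
    rw [a2, a3, x1e, x3e]
    have : S = h1 * r1 + h2 * r2 + h3 * r3 := hS.symm
    rw [this] at hSpos ⊢
    field_simp
    ring
  have w2 : (ρ1 * d1 / (2 * r1) * (1 - 2 * (h1 * r1 / S)) -
      ρ3 * d3 / (2 * r3) * (1 - 2 * (h3 * r3 / S))) / (h2 * r2 / S) =
      (x2 - x1) / (2 * (h2 * r2)) := by
    rw [a1, a3, x1e, x2e]
    have : S = h1 * r1 + h2 * r2 + h3 * r3 := hS.symm
    rw [this] at hSpos ⊢
    field_simp
    ring
  have w3 : (ρ2 * d2 / (2 * r2) * (1 - 2 * (h2 * r2 / S)) -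
      ρ1 * d1 / (2 * r1) * (1 - 2 * (h1 * r1 / S))) / (h3 * r3 / S) =
      (x3 - x2) / (2 * (h3 * r3)) := by
    rw [a1, a2, x2e, x3e]
    have : S = h1 * r1 + h2 * r2 + h3 * r3 := hS.symm
    rw [this] at hSpos ⊢
    field_simp
    ring
  have m : 2 * (ρ1 * d1 / (2 * r1)) * (h1 * r1 / S) + 2 * (ρ2 * d2 / (2 * r2)) * (h2 * r2 / S) +
      2 * (ρ3 * d3 / (2 * r3)) * (h3 * r3 / S) =
      (h1 * ρ1 * d1 + h2 * ρ2 * d2 + h3 * ρ3 * d3) / S := by
    field_simp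
  rw [g1, g2, g3, q1, q2, q3, w1, w2, w3, m] at key
  refine key.trans (le_of_eq ?_)
  congr 1
  field_simp

/-- `d/dθ` of `lp` -/
def lpd (h k ρ r r' : ℝ → ℝ) (θ : ℝ) : ℝ :=
  (h θ * k θ + (k θ + r θ) * (ρ θ - h θ + r' θ)) / (h θ ^ 2 + (k θ + r θ) ^ 2)
/-- `d/dθ` of `ap` -/
def apd (h k ρ r r' : ℝ → ℝ) (θ : ℝ) : ℝ :=
  1 + ((ρ θ - h θ + r' θ) * h θ - (k θ + r θ) * k θ) / (h θ ^ 2 + (k θ + r θ) ^ 2)
/-- `d/dθ` of `log h` -/
def hd (h k : ℝ → ℝ) (θ : ℝ) : ℝ := k θ / h θ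
/-- `d/dθ` of `log (h r)` -/
def Pd (h k ρ r r' : ℝ → ℝ) (θ : ℝ) : ℝ :=
  (Xp h k ρ r r' θ - Xm h k ρ r r' θ) / (2 * (h θ * r θ))
/-- the integrand of the angle part of the Hopf functional -/
def Phi (h k r : ℝ → ℝ) (θ : ℝ) : ℝ :=
  (ap h k r θ - am h k r θ) + k θ / h θ * (lp h k r θ - lm h k r θ)

lemma exp_P {h r S θ : ℝ} (hh : 0 < h) (hr : 0 < r) (hS : 0 < S) :
    Complex.exp ((log (h * r / S) : ℝ) - (log h : ℝ) + θ * Complex.I) =
      (r / S : ℝ) * Complex.exp (θ * Complex.I) := by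
  rw [Complex.exp_add, Complex.exp_sub, ← Complex.ofReal_exp, ← Complex.ofReal_exp,
    Real.exp_log (by positivity), Real.exp_log hh, ← Complex.ofReal_div]
  congr 2
  field_simp

lemma exp_PZ {h r S l a : ℝ} (hh : 0 < h) (hr : 0 < r) (hS : 0 < S) :
    Complex.exp ((log (h * r / S) : ℝ) + l + a * Complex.I) =
      (h * r / S : ℝ) * Complex.exp (l + a * Complex.I) := by
  rw [add_assoc, Complex.exp_add, ← Complex.ofReal_exp, Real.exp_log (by positivity)]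

/-- the cross product -/
def cr (z w : ℂ) : ℝ := z.re * w.im - z.im * w.re

lemma cr_id (a b c : ℂ) : (cr a b : ℂ) * c + (cr b c : ℂ) * a + (cr c a : ℂ) * b = 0 := by
  unfold cr
  apply Complex.ext <;> simp <;> ring

namespace Leaf
variable {h k ρ r r' τ τ' : ℝ → ℝ}

lemma cr_Z (θ : ℝ) : cr (Zm h k r θ) (Zp h k r θ) = 2 * (h θ * r θ) := by
  unfold cr Zm Zp
  rw [Complex.exp_mul_I, ← Complex.ofReal_cos, ← Complex.ofReal_sin]
  simp only [Complex.mul_re, Complex.add_re, Complex.ofReal_re, Complex.sub_re, Complex.I_re,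
      Complex.sub_im, Complex.ofReal_im, Complex.I_im, Complex.add_im, Complex.mul_im]
  have := sin_sq_add_cos_sq θ
  linear_combination 2 * (h θ * r θ) * this

lemma cont_lp (L : Leaf h k ρ r r' τ τ') (hpos : ∀ θ, 0 < h θ) : Continuous (lp h k r) :=
  continuous_iff_continuousAt.2 fun θ => (L.hasDerivAt_lp hpos θ).continuousAt

lemma cont_ap (L : Leaf h k ρ r r' τ τ') (hpos : ∀ θ, 0 < h θ) : Continuous (ap h k r) :=
  continuous_iff_continuousAt.2 fun θ => (L.hasDerivAt_ap hpos θ).continuousAt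

lemma cont_lpd (L : Leaf h k ρ r r' τ τ') (hpos : ∀ θ, 0 < h θ) :
    Continuous (lpd h k ρ r r') := by
  obtain ⟨c1, c2, c3, c4⟩ := L.conts
  have c5 := L.r'_cont
  have c6 := L.ρ_cont
  unfold lpd
  refine Continuous.div (by fun_prop) (by fun_prop) fun θ => ?_
  have := hpos θ
  positivity

lemma cont_apd (L : Leaf h k ρ r r' τ τ') (hpos : ∀ θ, 0 < h θ) :
    Continuous (apd h k ρ r r') := by
  obtain ⟨c1, c2, c3, c4⟩ := L.conts
  have c5 := L.r'_cont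
  have c6 := L.ρ_cont
  unfold apd
  refine continuous_const.add (Continuous.div (by fun_prop) (by fun_prop) fun θ => ?_)
  have := hpos θ
  positivity

lemma cont_hd (L : Leaf h k ρ r r' τ τ') (hpos : ∀ θ, 0 < h θ) : Continuous (hd h k) := by
  obtain ⟨c1, c2, c3, c4⟩ := L.conts
  unfold hd
  exact Continuous.div (by fun_prop) (by fun_prop) fun θ => (hpos θ).ne'

lemma cont_Pd (L : Leaf h k ρ r r' τ τ') (hpos : ∀ θ, 0 < h θ) :
    Continuous (Pd h k ρ r r') := by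
  obtain ⟨c1, c2, c3, c4⟩ := L.conts
  have c5 := L.r'_cont
  have c6 := L.ρ_cont
  unfold Pd Xp Xm
  refine Continuous.div (by fun_prop) (by fun_prop) fun θ => ?_
  have := hpos θ
  have := L.r_pos θ
  positivity

lemma cont_lm (L : Leaf h k ρ r r' τ τ') (hpos : ∀ θ, 0 < h θ) : Continuous (lm h k r) := by
  obtain ⟨c1, c2, c3, c4⟩ := L.conts
  unfold lm
  refine (Continuous.log (by fun_prop) fun θ => ?_).div_const 2
  have := hpos θ
  positivity

lemma cont_am (L : Leaf h k ρ r r' τ τ') (hpos : ∀ θ, 0 < h θ) : Continuous (am h k r) := by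
  obtain ⟨c1, c2, c3, c4⟩ := L.conts
  unfold am
  exact continuous_id.add (continuous_arctan.comp
    (Continuous.div (by fun_prop) (by fun_prop) fun θ => (hpos θ).ne'))

lemma cont_Phi (L : Leaf h k ρ r r' τ τ') (hpos : ∀ θ, 0 < h θ) : Continuous (Phi h k r) := by
  have := L.cont_lp hpos
  have := L.cont_lm hpos
  have := L.cont_ap hpos
  have := L.cont_am hpos
  have := L.cont_hd hpos
  unfold hd at this
  unfold Phi
  fun_prop

lemma Phi_per (L : Leaf h k ρ r r' τ τ') (θ : ℝ) : Phi h k r (θ + 2 * π) = Phi h k r θ := by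
  unfold Phi
  rw [L.ap_per, L.am_per, L.lp_per, L.lm_per, L.h_per, L.k_per]
  ring

lemma hasDerivAt_logh (L : Leaf h k ρ r r' τ τ') (hpos : ∀ θ, 0 < h θ) (θ : ℝ) :
    HasDerivAt (fun s => log (h s)) (hd h k θ) θ :=
  (L.h_deriv θ).log (hpos θ).ne'

lemma hasDerivAt_logP (L : Leaf h k ρ r r' τ τ') (hpos : ∀ θ, 0 < h θ) {S : ℝ} (hS : 0 < S)
    (θ : ℝ) : HasDerivAt (fun s => log (h s * r s / S)) (Pd h k ρ r r' θ) θ := by
  have h0 := hpos θ
  have h1 := L.r_pos θ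
  refine (((L.hasDerivAt_σ θ).div_const S).log (by positivity)).congr_deriv ?_
  unfold Pd
  field_simp

/-- the integral of a function along the three sides -/
lemma int3 (L : Leaf h k ρ r r' τ τ') {G : ℝ → ℝ}
    (hG : Continuous G) (hGp : ∀ t, G (t + 2 * π) = G t) :
    ∫ s in (0:ℝ)..(2 * π), (G s + G (τ s) * τ' s + G (τ (τ s)) * (τ' (τ s) * τ' s)) =
      3 * ∫ s in (0:ℝ)..(2 * π), G s := by
  obtain ⟨c1, c2, c3, c4⟩ := L.conts
  have c5 := L.τ'_cont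
  have i1 : IntervalIntegrable (fun s => G s) volume 0 (2 * π) := hG.intervalIntegrable _ _
  have i2 : IntervalIntegrable (fun s => G (τ s) * τ' s) volume 0 (2 * π) :=
    Continuous.intervalIntegrable (by fun_prop) _ _
  have i3 : IntervalIntegrable (fun s => G (τ (τ s)) * (τ' (τ s) * τ' s)) volume 0 (2 * π) :=
    Continuous.intervalIntegrable (by fun_prop) _ _
  rw [intervalIntegral.integral_add (i1.add i2) i3, intervalIntegral.integral_add i1 i2]
  have p1 : τ (2 * π) = τ 0 + 2 * π := by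
    have := L.τ_per 0
    rwa [zero_add] at this
  rw [integral_comp_shift L.τ_deriv L.τ'_cont p1 hG hGp,
    integral_comp_shift (φ := fun s => τ (τ s)) (φ' := fun s => τ' (τ s) * τ' s)
      L.hasDerivAt_ττ (by fun_prop) (by rw [p1, L.τ_per]) hG hGp]
  ring

/-- the dilogarithm identity along the leaf -/
lemma int_Phi (L : Leaf h k ρ r r' τ τ') (hpos : ∀ θ, 0 < h θ)
    (h3 : ∀ θ, τ (τ (τ θ)) = θ + 2 * π) {S : ℝ} (hS : 0 < S) :
    3 * (∫ θ in (0:ℝ)..(2 * π), Phi h k r θ) =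
      4 * π ^ 2 - ∫ s in (0:ℝ)..(2 * π), 1 / 2 *
        (Pd h k ρ r r' s * (log (h (τ (τ s)) * r (τ (τ s)) / S) - log (h (τ s) * r (τ s) / S)) +
        Pd h k ρ r r' (τ s) * τ' s * (log (h s * r s / S) -
          log (h (τ (τ s)) * r (τ (τ s)) / S)) +
        Pd h k ρ r r' (τ (τ s)) * (τ' (τ s) * τ' s) *
          (log (h (τ s) * r (τ s) / S) - log (h s * r s / S))) := by
  rw [← L.int3 (L.cont_Phi hpos) L.Phi_per]
  obtain ⟨c1, c2, c3, c4⟩ := L.conts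
  have c5 := L.τ'_cont
  have d1 := L.cont_lpd hpos
  have d2 := L.cont_apd hpos
  have d3 := L.cont_hd hpos
  have d4 := L.cont_Pd hpos
  have p1 : τ (2 * π) = τ 0 + 2 * π := by
    have := L.τ_per 0
    rwa [zero_add] at this
  have lp_per' : ∀ θ, lp h k r (θ + 2 * π) = lp h k r θ := L.lp_per
  have key := dilog_identity (T := 2 * π) hS.ne'
    (l1 := lp h k r) (l2 := fun s => lp h k r (τ s)) (l3 := fun s => lp h k r (τ (τ s)))
    (a1 := ap h k r) (a2 := fun s => ap h k r (τ s)) (a3 := fun s => ap h k r (τ (τ s)))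
    (e1 := fun s => log (h s)) (e2 := fun s => log (h (τ s))) (e3 := fun s => log (h (τ (τ s))))
    (t1 := fun s => s) (t2 := τ) (t3 := fun s => τ (τ s))
    (P1 := fun s => log (h s * r s / S)) (P2 := fun s => log (h (τ s) * r (τ s) / S))
    (P3 := fun s => log (h (τ (τ s)) * r (τ (τ s)) / S))
    (l1' := lpd h k ρ r r') (l2' := fun s => lpd h k ρ r r' (τ s) * τ' s)
    (l3' := fun s => lpd h k ρ r r' (τ (τ s)) * (τ' (τ s) * τ' s))
    (a1' := apd h k ρ r r') (a2' := fun s => apd h k ρ r r' (τ s) * τ' s)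
    (a3' := fun s => apd h k ρ r r' (τ (τ s)) * (τ' (τ s) * τ' s))
    (e1' := hd h k) (e2' := fun s => hd h k (τ s) * τ' s)
    (e3' := fun s => hd h k (τ (τ s)) * (τ' (τ s) * τ' s))
    (t1' := fun _ => 1) (t2' := τ') (t3' := fun s => τ' (τ s) * τ' s)
    (P1' := Pd h k ρ r r') (P2' := fun s => Pd h k ρ r r' (τ s) * τ' s)
    (P3' := fun s => Pd h k ρ r r' (τ (τ s)) * (τ' (τ s) * τ' s))
    (L.hasDerivAt_lp hpos)
    (fun s => (L.hasDerivAt_lp hpos (τ s)).comp s (L.τ_deriv s))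
    (fun s => (L.hasDerivAt_lp hpos (τ (τ s))).comp (h := fun s => τ (τ s)) s
      (L.hasDerivAt_ττ s))
    (L.hasDerivAt_ap hpos)
    (fun s => (L.hasDerivAt_ap hpos (τ s)).comp s (L.τ_deriv s))
    (fun s => (L.hasDerivAt_ap hpos (τ (τ s))).comp (h := fun s => τ (τ s)) s
      (L.hasDerivAt_ττ s))
    (L.hasDerivAt_logh hpos)
    (fun s => (L.hasDerivAt_logh hpos (τ s)).comp s (L.τ_deriv s))
    (fun s => (L.hasDerivAt_logh hpos (τ (τ s))).comp (h := fun s => τ (τ s)) s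
      (L.hasDerivAt_ττ s))
    (fun s => hasDerivAt_id' s) L.τ_deriv L.hasDerivAt_ττ
    (L.hasDerivAt_logP hpos hS)
    (fun s => (L.hasDerivAt_logP hpos hS (τ s)).comp s (L.τ_deriv s))
    (fun s => (L.hasDerivAt_logP hpos hS (τ (τ s))).comp (h := fun s => τ (τ s)) s
      (L.hasDerivAt_ττ s))
    d1 (by fun_prop) (by fun_prop) d2 (by fun_prop) (by fun_prop) d3 (by fun_prop) (by fun_prop)
    continuous_const c5 (by fun_prop) d4 (by fun_prop) (by fun_prop)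
    (by
      intro s
      rw [exp_p hpos, exp_p hpos, exp_P (hpos _) (L.r_pos _) hS, ← L.Zm_tau (τ (τ s)), h3,
        L.Zm_per, Z_sub]
      push_cast
      have : (S : ℂ) ≠ 0 := by exact_mod_cast hS.ne'
      field_simp)
    (by
      intro s
      rw [exp_p hpos, exp_p hpos, exp_P (hpos _) (L.r_pos _) hS, ← L.Zm_tau s, Z_sub]
      push_cast
      have : (S : ℂ) ≠ 0 := by exact_mod_cast hS.ne'
      field_simp)
    (by
      intro s
      rw [exp_p hpos, exp_p hpos, exp_P (hpos _) (L.r_pos _) hS, ← L.Zm_tau (τ s), Z_sub]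
      push_cast
      have : (S : ℂ) ≠ 0 := by exact_mod_cast hS.ne'
      field_simp)
    (by
      intro s
      rw [exp_PZ (hpos _) (L.r_pos _) hS, exp_PZ (hpos _) (L.r_pos _) hS,
        exp_PZ (hpos _) (L.r_pos _) hS, exp_p hpos, exp_p hpos, exp_p hpos]
      have b1 : cr (Zp h k r (τ (τ s))) (Zp h k r s) = 2 * (h s * r s) := by
        rw [← cr_Z, ← L.Zm_tau (τ (τ s)), h3, L.Zm_per]
      have b2 : cr (Zp h k r s) (Zp h k r (τ s)) = 2 * (h (τ s) * r (τ s)) := by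
        rw [← cr_Z, ← L.Zm_tau s]
      have b3 : cr (Zp h k r (τ s)) (Zp h k r (τ (τ s))) = 2 * (h (τ (τ s)) * r (τ (τ s))) := by
        rw [← cr_Z, ← L.Zm_tau (τ s)]
      have b4 := cr_id (Zp h k r (τ (τ s))) (Zp h k r s) (Zp h k r (τ s))
      rw [b1, b2, b3] at b4
      have : (S : ℂ) ≠ 0 := by exact_mod_cast hS.ne'
      push_cast at b4 ⊢
      field_simp
      linear_combination (1 / 2) * b4)
    (by
      intro s
      have := L.ap_sub_am hpos (τ s)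
      rw [L.am_tau hpos] at this
      exact this)
    (by
      intro s
      have := L.ap_sub_am hpos (τ (τ s))
      rw [L.am_tau hpos] at this
      exact this)
    (by
      intro s
      have := L.ap_sub_am hpos s
      have e : ap h k r (τ (τ s)) = am h k r s + 2 * π := by
        rw [← L.am_tau hpos, h3, L.am_per]
      simp only [e]
      constructor <;> [linarith [this.1]; linarith [this.2]])
    (by have := L.lp_per 0; rwa [zero_add] at this)
    (by rw [p1, L.lp_per])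
    (by rw [p1, L.τ_per, L.lp_per])
    (by have := L.ap_per 0; rwa [zero_add] at this)
    (by rw [p1, L.ap_per])
    (by rw [p1, L.τ_per, L.ap_per])
    (by
      have e1 := L.h_per 0
      have e2 := L.r_per 0
      rw [zero_add] at e1 e2
      simp only [e1, e2])
    (by simp only [p1, L.h_per, L.r_per])
    (by simp only [p1, L.τ_per, L.h_per, L.r_per])
  rw [← key]
  refine intervalIntegral.integral_congr fun s _ => ?_
  have e : ap h k r (τ (τ s)) = am h k r s + 2 * π := by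
    rw [← L.am_tau hpos, h3, L.am_per]
  have e' : lp h k r (τ (τ s)) = lm h k r s := by
    rw [← L.lm_tau, h3, L.lm_per]
  have f1 := L.am_tau hpos s
  have f2 := L.am_tau hpos (τ s)
  have f3 := L.lm_tau s
  have f4 := L.lm_tau (τ s)
  simp only [Phi, hd]
  rw [f1, f2, f3, f4, e, e']
  ring

theorem upper (L : Leaf h k ρ r r' τ τ') (hpos : ∀ θ, 0 < h θ)
    (h3 : ∀ θ, τ (τ (τ θ)) = θ + 2 * π) {κ : ℝ} (hκ : 0 < κ) :
    EE h k ρ r ≤ (2 * π / 3 - √3 / 2) * (∫ θ in (0:ℝ)..(2 * π), √(ρ θ / h θ)) +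
      √3 / 4 * (κ * (∫ θ in (0:ℝ)..(2 * π), h θ * ρ θ) +
        κ⁻¹ * (∫ θ in (0:ℝ)..(2 * π), (h θ ^ 2)⁻¹)) - 4 * π ^ 2 / 3 := by
  obtain ⟨c1, c2, c3, c4⟩ := L.conts
  have c5 := L.τ'_cont
  have c6 := L.ρ_cont
  have c7 := L.r'_cont
  obtain ⟨S, hSd⟩ : ∃ S, S = h 0 * r 0 + h (τ 0) * r (τ 0) + h (τ (τ 0)) * r (τ (τ 0)) := ⟨_, rfl⟩
  have hSe : ∀ θ, h θ * r θ + h (τ θ) * r (τ θ) + h (τ (τ θ)) * r (τ (τ θ)) = S := fun θ => by
    rw [hSd]; exact L.area_const h3 θ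
  have hσ : ∀ θ, 0 < h θ * r θ := fun θ => mul_pos (hpos θ) (L.r_pos θ)
  have hS : 0 < S := by
    rw [← hSe 0]
    have := hσ 0
    have := hσ (τ 0)
    have := hσ (τ (τ 0))
    positivity
  have hI := L.int_Phi hpos h3 hS
  obtain ⟨Q, hQ⟩ : ∃ Q : ℝ → ℝ, Q = fun s => 1 / 2 *
        (Pd h k ρ r r' s * (log (h (τ (τ s)) * r (τ (τ s)) / S) - log (h (τ s) * r (τ s) / S)) +
        Pd h k ρ r r' (τ s) * τ' s * (log (h s * r s / S) -
          log (h (τ (τ s)) * r (τ (τ s)) / S)) +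
        Pd h k ρ r r' (τ (τ s)) * (τ' (τ s) * τ' s) *
          (log (h (τ s) * r (τ s) / S) - log (h s * r s / S))) := ⟨_, rfl⟩
  have hQs : ∀ s, Q s = 1 / 2 *
        (Pd h k ρ r r' s * (log (h (τ (τ s)) * r (τ (τ s)) / S) - log (h (τ s) * r (τ s) / S)) +
        Pd h k ρ r r' (τ s) * τ' s * (log (h s * r s / S) -
          log (h (τ (τ s)) * r (τ (τ s)) / S)) +
        Pd h k ρ r r' (τ (τ s)) * (τ' (τ s) * τ' s) *
          (log (h (τ s) * r (τ s) / S) - log (h s * r s / S))) := fun s => by rw [hQ]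
  have hI' : 3 * (∫ θ in (0:ℝ)..(2 * π), Phi h k r θ) =
      4 * π ^ 2 - ∫ s in (0:ℝ)..(2 * π), Q s := by rw [hI, hQ]
  have cQ : Continuous Q := by
    have d4 := L.cont_Pd hpos
    have l1 : Continuous fun s => log (h s * r s / S) :=
      continuous_iff_continuousAt.2 fun θ => (L.hasDerivAt_logP hpos hS θ).continuousAt
    have l2 : Continuous fun s => log (h (τ s) * r (τ s) / S) := l1.comp c4
    have l3 : Continuous fun s => log (h (τ (τ s)) * r (τ (τ s)) / S) := l1.comp (c4.comp c4)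
    rw [hQ]
    fun_prop
  -- the pointwise inequality
  have cinv : Continuous fun s => (h s ^ 2)⁻¹ :=
    Continuous.inv₀ (by fun_prop) fun s => by have := hpos s; positivity
  have crh : Continuous fun s => r s / h s / 2 :=
    (Continuous.div (by fun_prop) (by fun_prop) fun s => (hpos s).ne').div_const 2
  have crq : Continuous fun s => √(ρ s / h s) :=
    (Continuous.div (by fun_prop) (by fun_prop) fun s => (hpos s).ne').sqrt
  have hpt : ∀ s, (r s / h s / 2 + r (τ s) / h (τ s) / 2 * τ' s +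
      r (τ (τ s)) / h (τ (τ s)) / 2 * (τ' (τ s) * τ' s)) + Q s ≤
      (√3 / 4 * (κ * (h s * ρ s) + κ⁻¹ * (h s ^ 2)⁻¹) +
      √3 / 4 * (κ * (h (τ s) * ρ (τ s)) + κ⁻¹ * (h (τ s) ^ 2)⁻¹) * τ' s +
      √3 / 4 * (κ * (h (τ (τ s)) * ρ (τ (τ s))) + κ⁻¹ * (h (τ (τ s)) ^ 2)⁻¹) *
        (τ' (τ s) * τ' s)) := by
    intro s
    have t1 := L.τ'_pos s
    have t2 := L.τ'_pos (τ s)
    have x1 := L.X_rel s
    have x2 := L.X_rel (τ s)
    have x3 := L.X_rel3 h3 s
    have y1 := L.X_sin s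
    have y2 := L.X_sin (τ s)
    have y3 := L.X_sin (τ (τ s))
    have z1 := L.area h3 s
    have z2 := L.area h3 (τ s)
    have z3 := L.area h3 (τ (τ s))
    rw [h3, L.h_per, L.r_per] at z2
    rw [h3, L.τ_per, L.h_per, L.r_per, L.h_per, L.r_per] at z3
    rw [h3, L.h_per, L.r_per] at y3
    have w1 := hSe s
    have v1 := Leaf.X_add h k ρ r r' s
    have v2 := Leaf.X_add h k ρ r r' (τ s)
    have v3 := Leaf.X_add h k ρ r r' (τ (τ s))
    have pr := L.prod_one h3 s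
    have key := tri_alg (hpos s) (hpos (τ s)) (hpos (τ (τ s))) (L.r_pos s) (L.r_pos (τ s))
      (L.r_pos (τ (τ s))) (L.ρ_pos s) (L.ρ_pos (τ s)) (L.ρ_pos (τ (τ s)))
      (d1 := 1) (d2 := τ' s) (d3 := τ' (τ s) * τ' s)
      (x1 := Xp h k ρ r r' s) (x2 := Xp h k ρ r r' (τ s) * τ' s)
      (x3 := Xp h k ρ r r' (τ (τ s)) * (τ' (τ s) * τ' s)) (κ := κ) one_pos t1 (by positivity)
      hκ w1
      (by linear_combination 2 * (r s * r (τ s)) * y1 - Xp h k ρ r r' s * (w1 - z1))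
      (by
        linear_combination 2 * (r (τ s) * r (τ (τ s))) * τ' s * y2 -
          Xp h k ρ r r' (τ s) * τ' s * (w1 - z2))
      (by
        linear_combination 2 * (r (τ (τ s)) * r s) * (τ' (τ s) * τ' s) * y3 -
          Xp h k ρ r r' (τ (τ s)) * (τ' (τ s) * τ' s) * (w1 - z3) +
          2 * (r (τ (τ s)) * r s) * h (τ (τ s)) * r s * pr)
      (by linear_combination v1 + x3)
      (by linear_combination τ' s * v2 + x1)
      (by linear_combination (τ' (τ s) * τ' s) * v3 + τ' s * x2)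
    have e1 : Pd h k ρ r r' s = (Xp h k ρ r r' s - Xp h k ρ r r' (τ (τ s)) * (τ' (τ s) * τ' s)) /
        (2 * (h s * r s)) := by rw [x3]; rfl
    have e2 : Pd h k ρ r r' (τ s) * τ' s = (Xp h k ρ r r' (τ s) * τ' s - Xp h k ρ r r' s) /
        (2 * (h (τ s) * r (τ s))) := by
      rw [x1]; unfold Pd; ring
    have e3 : Pd h k ρ r r' (τ (τ s)) * (τ' (τ s) * τ' s) =
        (Xp h k ρ r r' (τ (τ s)) * (τ' (τ s) * τ' s) - Xp h k ρ r r' (τ s) * τ' s) /
        (2 * (h (τ (τ s)) * r (τ (τ s)))) := by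
      rw [x2]; unfold Pd; ring
    rw [hQs, e1, e2, e3]
    refine le_trans (le_of_eq ?_) (key.trans (le_of_eq ?_)) <;> ring
  have hper1 : ∀ t, √3 / 4 * (κ * (h (t + 2 * π) * ρ (t + 2 * π)) + κ⁻¹ * (h (t + 2 * π) ^ 2)⁻¹) =
      √3 / 4 * (κ * (h t * ρ t) + κ⁻¹ * (h t ^ 2)⁻¹) := fun t => by rw [L.h_per, L.ρ_per]
  have hper2 : ∀ t, r (t + 2 * π) / h (t + 2 * π) / 2 = r t / h t / 2 := fun t => by
    rw [L.h_per, L.r_per]
  have cB : Continuous fun s => √3 / 4 * (κ * (h s * ρ s) + κ⁻¹ * (h s ^ 2)⁻¹) := by fun_prop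
  have j1 := L.int3 crh hper2
  have j2 := L.int3 cB hper1
  have two_pi_nonneg : (0:ℝ) ≤ 2 * π := by positivity
  have cA3 : Continuous fun s => (r s / h s / 2 + r (τ s) / h (τ s) / 2 * τ' s +
      r (τ (τ s)) / h (τ (τ s)) / 2 * (τ' (τ s) * τ' s)) := by
    have q1 : Continuous fun s => r (τ s) / h (τ s) / 2 := crh.comp c4
    have q2 : Continuous fun s => r (τ (τ s)) / h (τ (τ s)) / 2 := crh.comp (c4.comp c4)
    fun_prop
  have cB3 : Continuous fun s => (√3 / 4 * (κ * (h s * ρ s) + κ⁻¹ * (h s ^ 2)⁻¹) +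
      √3 / 4 * (κ * (h (τ s) * ρ (τ s)) + κ⁻¹ * (h (τ s) ^ 2)⁻¹) * τ' s +
      √3 / 4 * (κ * (h (τ (τ s)) * ρ (τ (τ s))) + κ⁻¹ * (h (τ (τ s)) ^ 2)⁻¹) *
        (τ' (τ s) * τ' s)) := by
    have q1 : Continuous fun s => √3 / 4 * (κ * (h (τ s) * ρ (τ s)) + κ⁻¹ * (h (τ s) ^ 2)⁻¹) :=
      cB.comp c4
    have q2 : Continuous fun s => √3 / 4 * (κ * (h (τ (τ s)) * ρ (τ (τ s))) +
      κ⁻¹ * (h (τ (τ s)) ^ 2)⁻¹) := cB.comp (c4.comp c4)
    fun_prop
  have hint := intervalIntegral.integral_mono_on (μ := volume) two_pi_nonneg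
    ((cA3.add cQ).intervalIntegrable 0 (2 * π)) (cB3.intervalIntegrable 0 (2 * π))
    (fun s _ => hpt s)
  simp only [Pi.add_apply] at hint
  have iA : IntervalIntegrable (fun s => (r s / h s / 2 + r (τ s) / h (τ s) / 2 * τ' s +
      r (τ (τ s)) / h (τ (τ s)) / 2 * (τ' (τ s) * τ' s))) volume 0 (2 * π) :=
    cA3.intervalIntegrable _ _
  have iQ : IntervalIntegrable Q volume 0 (2 * π) := cQ.intervalIntegrable _ _
  rw [intervalIntegral.integral_add iA iQ, j1, j2] at hint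
  -- the functional
  have cat : Continuous fun s => 2 * √(ρ s / h s) * arctan (r s / √(ρ s * h s)) := by
    refine (continuous_const.mul crq).mul (continuous_arctan.comp
      (Continuous.div c3 (by fun_prop) fun s => ?_))
    have := hpos s
    have := L.ρ_pos s
    positivity
  have hEE : EE h k ρ r ≤ (∫ s in (0:ℝ)..(2 * π), ((2 * π / 3 - √3 / 2) * √(ρ s / h s) +
      r s / h s / 2)) - ∫ s in (0:ℝ)..(2 * π), Phi h k r s := by
    rw [← intervalIntegral.integral_sub (Continuous.intervalIntegrable (by fun_prop) _ _)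
      ((L.cont_Phi hpos).intervalIntegrable _ _)]
    unfold EE
    have cPhi := L.cont_Phi hpos
    have eG : ∀ s, GG h k ρ (r s) s = 2 * √(ρ s / h s) * arctan (r s / √(ρ s * h s)) -
        Phi h k r s := by
      intro s
      unfold GG Phi ap am lp lm
      ring
    refine intervalIntegral.integral_mono_on two_pi_nonneg ?_
      (Continuous.intervalIntegrable (by fun_prop) _ _) ?_
    · have : (fun s => GG h k ρ (r s) s) = fun s =>
          2 * √(ρ s / h s) * arctan (r s / √(ρ s * h s)) - Phi h k r s := funext eG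
      rw [this]
      exact (cat.sub cPhi).intervalIntegrable _ _
    · intro s _
      rw [eG]
      have := arctan_bound (L.ρ_pos s) (hpos s) (L.r_pos s)
      linarith
  rw [intervalIntegral.integral_add (Continuous.intervalIntegrable (by fun_prop) _ _)
    (crh.intervalIntegrable _ _), intervalIntegral.integral_const_mul] at hEE
  have hB : ∫ s in (0:ℝ)..(2 * π), √3 / 4 * (κ * (h s * ρ s) + κ⁻¹ * (h s ^ 2)⁻¹) =
      √3 / 4 * (κ * (∫ θ in (0:ℝ)..(2 * π), h θ * ρ θ) +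
        κ⁻¹ * (∫ θ in (0:ℝ)..(2 * π), (h θ ^ 2)⁻¹)) := by
    rw [intervalIntegral.integral_const_mul, intervalIntegral.integral_add
      (Continuous.intervalIntegrable (by fun_prop) _ _)
      (Continuous.intervalIntegrable (by fun_prop) _ _), intervalIntegral.integral_const_mul,
      intervalIntegral.integral_const_mul]
  rw [hB] at hint
  linarith

end Leaf

end Pool.Agent.MP_ae5b4e_an.Out
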