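import Mathlib
import Pool.Agent.Lib.MP_ae5b4e_an.Out.Geom
import Pool.Agent.Lib.MP_ae5b4e_an.Out.Upper
import Pool.Agent.Lib.MP_ae5b4e_an.Out.BS
import Pool.Agent.Lib.MP_ae5b4e_an.Out.Centre
import Pool.Agent.Lib.MP_ae5b4e_an.Out.Hopf
import Pool.Agent.Lib.MP_ae5b4e_an.Out.Ellipse

/-!
MP_ae5b4e_an, theorem on outer billiards: the final assembly.
-/

noncomputable section

namespace Pool.Agent.MP_ae5b4e_an.Out

open Real Set Filter Topology MeasureTheory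
open Pool.Agent.MP_ae5b4e_an.Birk.Hopf

/-- a point inside the curve -/
lemma Cur.exists_inside {h k ρ : ℝ → ℝ} (C : Cur h k ρ) :
    ∃ o1 o2 : ℝ, ∀ θ, 0 < h θ - (o1 * cos θ + o2 * sin θ) := by
  refine ⟨(h 0 - h π) / 2, (k 0 - k π) / 2, fun θ => ?_⟩
  have hper : Function.Periodic (fun θ => h θ - ((h 0 - h π) / 2 * cos θ +
      (k 0 - k π) / 2 * sin θ)) (2 * π) := fun t => by
    simp only [C.h_per, cos_add_two_pi, sin_add_two_pi]
  obtain ⟨y, hy, he⟩ := hper.exists_mem_Ico₀ (by positivity) θ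
  rw [he]
  have e : 2 * (h y - ((h 0 - h π) / 2 * cos y + (k 0 - k π) / 2 * sin y)) =
      (h y - h 0 * cos y - k 0 * sin y) + (h y + h π * cos y + k π * sin y) := by ring
  have h1 : 0 ≤ h y - h 0 * cos y - k 0 * sin y ∧ (y ≠ 0 → 0 < h y - h 0 * cos y - k 0 * sin y) := by
    rcases eq_or_lt_of_le hy.1 with h0 | h0
    · rw [← h0]; simp
    · have : 0 < h y - h 0 * cos y - k 0 * sin y := by
        rcases le_or_gt y π with h2 | h2
        · have := C.W_pos 0 h0 h2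
          rwa [zero_add] at this
        · have := C.V_pos y (D := 2 * π - y) (by linarith [hy.2]) (by linarith)
          rw [add_sub_cancel, cos_two_pi_sub, sin_two_pi_sub] at this
          have p1 := C.h_per 0
          have p2 := C.k_per 0
          rw [zero_add] at p1 p2
          rw [p1, p2] at this
          linarith
      exact ⟨this.le, fun _ => this⟩
  have h2 : 0 ≤ h y + h π * cos y + k π * sin y ∧ (y = 0 → 0 < h y + h π * cos y + k π * sin y) := by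
    rcases lt_trichotomy y π with h3 | h3 | h3
    · have := C.V_pos y (D := π - y) (by linarith) (by linarith [hy.1])
      rw [add_sub_cancel, cos_pi_sub, sin_pi_sub] at this
      exact ⟨by linarith, fun _ => by linarith⟩
    · rw [h3]
      refine ⟨by simp, fun h4 => ?_⟩
      exact absurd h4 pi_ne_zero
    · have := C.W_pos π (D := y - π) (by linarith) (by linarith [hy.2])
      rw [add_sub_cancel, cos_sub_pi, sin_sub_pi] at this
      exact ⟨by linarith, fun _ => by linarith⟩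
  by_cases h0 : y = 0
  · have := h2.2 h0
    linarith [h1.1]
  · have := h1.2 h0
    linarith [h2.1]

/-- The invariant measure: one `3`-periodic orbit gives a leaf of `3`-periodic orbits. -/
lemma Fam.all_periodic_at {h k ρ : ℝ → ℝ} {r τ : ℝ → ℝ → ℝ} (B : Fam h k ρ r τ) {c : ℝ}
    (hc : c ∈ Ioo (0:ℝ) 1) {x : ℝ}
    (h0 : τ c (τ c (τ c x)) = x + 2 * π) (θ : ℝ) : τ c (τ c (τ c θ)) = θ + 2 * π := by
  have L := B.leaf hc
  obtain ⟨f, hf⟩ : ∃ f : ℝ → ℝ, f = fun θ => r c θ * pd1 r (c, θ) := ⟨_, rfl⟩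
  have hrc : Continuous (r c) :=
    continuous_iff_continuousAt.2 fun t => (L.r_deriv t).continuousAt
  have hfc : Continuous f := by
    rw [hf]
    exact hrc.mul (slice (contOn_pd1 B.r_smooth) hc)
  have hfpos : ∀ θ, 0 < f θ := fun θ => by
    rw [hf]
    exact mul_pos (B.r_pos c hc θ) (B.rc_pos hc θ)
  have hfper : ∀ θ, f (θ + 2 * π) = f θ := fun θ => by
    simp only [hf]
    rw [B.r_per c hc, pd1_per B.r_smooth B.r_per hc]
  have hfτ : ∀ θ, f (τ c θ) * pd2 τ (c, θ) = f θ := fun θ => by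
    simp only [hf]
    exact B.flux hc θ
  obtain ⟨Φ, hΦ⟩ : ∃ Φ : ℝ → ℝ, Φ = fun θ => ∫ u in (0:ℝ)..θ, f u := ⟨_, rfl⟩
  have hΦd : ∀ θ, HasDerivAt Φ (f θ) θ := fun θ => by
    rw [hΦ]
    exact intervalIntegral.integral_hasDerivAt_right (hfc.intervalIntegrable _ _)
      hfc.stronglyMeasurable.stronglyMeasurableAtFilter hfc.continuousAt
  have hmono : StrictMono Φ := strictMono_of_deriv_pos fun θ => by
    rw [(hΦd θ).deriv]
    exact hfpos θ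
  have c1 : ∀ θ, Φ (τ c θ) - Φ θ = Φ (τ c x) - Φ x := by
    have hd : ∀ θ, HasDerivAt (fun θ => Φ (τ c θ) - Φ θ) 0 θ := fun θ => by
      have := ((hΦd (τ c θ)).comp θ (L.τ_deriv θ)).sub (hΦd θ)
      refine this.congr_deriv ?_
      rw [hfτ θ]
      ring
    intro θ
    exact is_const_of_deriv_eq_zero (fun θ => (hd θ).differentiableAt)
      (fun θ => (hd θ).deriv) θ x
  have c2 : ∀ θ, Φ (θ + 2 * π) - Φ θ = Φ (x + 2 * π) - Φ x := by
    have hd : ∀ θ, HasDerivAt (fun θ => Φ (θ + 2 * π) - Φ θ) 0 θ := fun θ => by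
      have := ((hΦd (θ + 2 * π)).comp_add_const θ (2 * π)).sub (hΦd θ)
      refine this.congr_deriv ?_
      rw [hfper θ]
      ring
    intro θ
    exact is_const_of_deriv_eq_zero (fun θ => (hd θ).differentiableAt)
      (fun θ => (hd θ).deriv) θ x
  apply hmono.injective
  have a1 := c1 θ
  have a2 := c1 (τ c θ)
  have a3 := c1 (τ c (τ c θ))
  have b2 := c1 (τ c x)
  have b3 := c1 (τ c (τ c x))
  have d1 := c2 θ
  rw [h0] at b3
  linarith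

/-- the rigidity theorem, with the origin inside and centred -/
lemma Fam.rigid_centred {h k ρ : ℝ → ℝ} {r τ : ℝ → ℝ → ℝ} (B : Fam h k ρ r τ)
    (hpos : ∀ θ, 0 < h θ)
    (hcc : ∫ θ in (0:ℝ)..(2 * π), (h θ ^ 3)⁻¹ * cos θ = 0)
    (hcs : ∫ θ in (0:ℝ)..(2 * π), (h θ ^ 3)⁻¹ * sin θ = 0) {c₀ : ℝ} (hc₀ : c₀ ∈ Ioo (0:ℝ) 1)
    (h3 : ∀ θ, τ c₀ (τ c₀ (τ c₀ θ)) = θ + 2 * π) :
    ∃ A : ℝ, 0 < A ∧ ∀ θ, h θ ^ 3 * ρ θ = A := by
  have L := B.leaf hc₀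
  obtain ⟨ch, ck, -, -⟩ := L.conts
  have cρ := B.ρ_cont
  have two_pi_pos : (0:ℝ) < 2 * π := by positivity
  have hprod := santalo_product B.h_deriv B.k_deriv B.ρ_cont B.ρ_pos B.h_per hpos hcc hcs
  have cinv : Continuous fun θ => (h θ ^ 2)⁻¹ :=
    Continuous.inv₀ (by fun_prop) fun s => by have := hpos s; positivity
  have crq : Continuous fun s => √(ρ s / h s) :=
    (Continuous.div (by fun_prop) (by fun_prop) fun s => (hpos s).ne').sqrt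
  have hI2 : 0 < ∫ θ in (0:ℝ)..(2 * π), (h θ ^ 2)⁻¹ :=
    intervalIntegral.intervalIntegral_pos_of_pos (cinv.intervalIntegrable _ _)
      (fun θ => by have := hpos θ; positivity) two_pi_pos
  obtain ⟨I2, hI2d⟩ : ∃ x, x = ∫ θ in (0:ℝ)..(2 * π), (h θ ^ 2)⁻¹ := ⟨_, rfl⟩
  obtain ⟨I1, hI1d⟩ : ∃ x, x = ∫ θ in (0:ℝ)..(2 * π), h θ * ρ θ := ⟨_, rfl⟩
  rw [← hI2d] at hI2 hprod
  rw [← hI1d] at hprod
  obtain ⟨κ, hκd⟩ : ∃ x, x = I2 / (2 * π) := ⟨_, rfl⟩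
  have hκ : 0 < κ := by rw [hκd]; positivity
  have e1 : κ⁻¹ * I2 = 2 * π := by
    rw [hκd, inv_div]
    field_simp
  have e2 : κ * I1 ≤ 2 * π := by
    rw [hκd, div_mul_eq_mul_div, div_le_iff₀ two_pi_pos]
    linarith
  have hup := L.upper hpos h3 hκ
  rw [← hI1d, ← hI2d] at hup
  have hlow := B.hopf_nonneg hpos hc₀
  -- the pointwise comparison
  have hpt : ∀ θ, √(ρ θ / h θ) ≤ (κ * (h θ * ρ θ) + κ⁻¹ * (h θ ^ 2)⁻¹) / 2 := by
    intro θ
    have h1 := hpos θ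
    have h2 := B.ρ_pos θ
    rw [show ρ θ / h θ = (κ * (h θ * ρ θ)) * (κ⁻¹ * (h θ ^ 2)⁻¹) by field_simp]
    rw [Real.sqrt_mul (by positivity)]
    have h3 := sq_nonneg (√(κ * (h θ * ρ θ)) - √(κ⁻¹ * (h θ ^ 2)⁻¹))
    have h4 := Real.sq_sqrt (show 0 ≤ κ * (h θ * ρ θ) by positivity)
    have h5 := Real.sq_sqrt (show 0 ≤ κ⁻¹ * (h θ ^ 2)⁻¹ by positivity)
    nlinarith
  have cR : Continuous fun θ => (κ * (h θ * ρ θ) + κ⁻¹ * (h θ ^ 2)⁻¹) / 2 := by fun_prop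
  have hR : ∫ θ in (0:ℝ)..(2 * π), (κ * (h θ * ρ θ) + κ⁻¹ * (h θ ^ 2)⁻¹) / 2 =
      (κ * I1 + κ⁻¹ * I2) / 2 := by
    rw [intervalIntegral.integral_div, intervalIntegral.integral_add
      (Continuous.intervalIntegrable (by fun_prop) _ _)
      (Continuous.intervalIntegrable (by fun_prop) _ _), intervalIntegral.integral_const_mul,
      intervalIntegral.integral_const_mul, hI1d, hI2d]
  have hle : ∫ θ in (0:ℝ)..(2 * π), √(ρ θ / h θ) ≤ (κ * I1 + κ⁻¹ * I2) / 2 := by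
    rw [← hR]
    exact intervalIntegral.integral_mono_on two_pi_pos.le (crq.intervalIntegrable _ _)
      (cR.intervalIntegrable _ _) fun θ _ => hpt θ
  have hc1 : 0 < 2 * π / 3 - √3 / 2 := by
    have h1 : √3 < 2 := by
      rw [Real.sqrt_lt' (by norm_num)]
      norm_num
    linarith [pi_gt_three]
  have hge : (κ * I1 + κ⁻¹ * I2) / 2 ≤ ∫ θ in (0:ℝ)..(2 * π), √(ρ θ / h θ) := by
    by_contra hcon
    have hcon := not_le.1 hcon
    have h1 := mul_lt_mul_of_pos_left hcon hc1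
    have h2 : (2 * π / 3 - √3 / 2) * ((κ * I1 + κ⁻¹ * I2) / 2) + √3 / 4 * (κ * I1 + κ⁻¹ * I2) -
        4 * π ^ 2 / 3 ≤ 0 := by
      have : (2 * π / 3 - √3 / 2) * ((κ * I1 + κ⁻¹ * I2) / 2) + √3 / 4 * (κ * I1 + κ⁻¹ * I2) -
        4 * π ^ 2 / 3 = π / 3 * (κ * I1 + κ⁻¹ * I2) - 4 * π ^ 2 / 3 := by ring
      rw [this]
      have := mul_le_mul_of_nonneg_left (show κ * I1 + κ⁻¹ * I2 ≤ 4 * π by linarith)
        (show 0 ≤ π / 3 by positivity)
      linarith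
    linarith
  have hzero : ∀ θ, √(ρ θ / h θ) = (κ * (h θ * ρ θ) + κ⁻¹ * (h θ ^ 2)⁻¹) / 2 := by
    have hint : ∫ θ in (0:ℝ)..(2 * π), ((κ * (h θ * ρ θ) + κ⁻¹ * (h θ ^ 2)⁻¹) / 2 -
        √(ρ θ / h θ)) = 0 := by
      rw [intervalIntegral.integral_sub (cR.intervalIntegrable _ _) (crq.intervalIntegrable _ _),
        hR]
      linarith
    have hnn : ∀ θ, 0 ≤ (κ * (h θ * ρ θ) + κ⁻¹ * (h θ ^ 2)⁻¹) / 2 - √(ρ θ / h θ) :=
      fun θ => by linarith [hpt θ]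
    have hc' : Continuous fun θ => (κ * (h θ * ρ θ) + κ⁻¹ * (h θ ^ 2)⁻¹) / 2 - √(ρ θ / h θ) :=
      cR.sub crq
    have hper : Function.Periodic (fun θ => (κ * (h θ * ρ θ) + κ⁻¹ * (h θ ^ 2)⁻¹) / 2 -
        √(ρ θ / h θ)) (2 * π) := fun θ => by simp only [L.h_per, L.ρ_per]
    intro θ
    obtain ⟨y, hy, he⟩ := hper.exists_mem_Ico₀ two_pi_pos θ
    have h1 : (κ * (h y * ρ y) + κ⁻¹ * (h y ^ 2)⁻¹) / 2 - √(ρ y / h y) = 0 := by
      by_contra hne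
      have hpos' := lt_of_le_of_ne (hnn y) (Ne.symm hne)
      have := intervalIntegral.integral_pos two_pi_pos hc'.continuousOn
        (fun x _ => hnn x) ⟨y, ⟨hy.1, hy.2.le⟩, hpos'⟩
      linarith
    linarith
  refine ⟨(κ⁻¹) ^ 2, by positivity, fun θ => ?_⟩
  have h1 := hpos θ
  have h2 := B.ρ_pos θ
  have h4 := hzero θ
  rw [show ρ θ / h θ = (κ * (h θ * ρ θ)) * (κ⁻¹ * (h θ ^ 2)⁻¹) by field_simp,
    Real.sqrt_mul (by positivity)] at h4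
  have h5 := Real.sq_sqrt (show 0 ≤ κ * (h θ * ρ θ) by positivity)
  have h6 := Real.sq_sqrt (show 0 ≤ κ⁻¹ * (h θ ^ 2)⁻¹ by positivity)
  have h7 : (√(κ * (h θ * ρ θ)) - √(κ⁻¹ * (h θ ^ 2)⁻¹)) ^ 2 = 0 := by
    linear_combination h5 + h6 - 2 * h4
  have h8 : √(κ * (h θ * ρ θ)) = √(κ⁻¹ * (h θ ^ 2)⁻¹) := by
    have := pow_eq_zero_iff (two_ne_zero) |>.1 h7
    linarith
  have h9 : κ * (h θ * ρ θ) = κ⁻¹ * (h θ ^ 2)⁻¹ := by rw [← h5, ← h6, h8]
  have h10 : h θ ^ 3 * ρ θ = κ⁻¹ * h θ ^ 2 * (κ * (h θ * ρ θ)) := by field_simp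
  rw [h10, h9]
  field_simp

/-- the rigidity theorem -/
theorem Fam.rigid {h k ρ : ℝ → ℝ} {r τ : ℝ → ℝ → ℝ} (B : Fam h k ρ r τ) {c₀ : ℝ}
    (hc₀ : c₀ ∈ Ioo (0:ℝ) 1) {x : ℝ} (h3 : τ c₀ (τ c₀ (τ c₀ x)) = x + 2 * π) :
    ∃ o1 o2 A : ℝ, 0 < A ∧ (∀ θ, 0 < h θ - (o1 * cos θ + o2 * sin θ)) ∧
      (∀ θ, (h θ - (o1 * cos θ + o2 * sin θ)) ^ 3 * ρ θ = A) ∧
      Fam (fun θ => h θ - (o1 * cos θ + o2 * sin θ))
        (fun θ => k θ - (-(o1 * sin θ) + o2 * cos θ)) ρ r τ := by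
  have C : Cur h k ρ := ⟨B.h_deriv, B.k_deriv, B.ρ_cont, B.ρ_pos, B.h_per⟩
  obtain ⟨p1, p2, hp⟩ := C.exists_inside
  have B1 := B.translate p1 p2
  obtain ⟨q1, q2, hq, hq1, hq2⟩ := exists_centre B1.h_deriv B1.k_deriv B1.ρ_cont B1.h_per hp
  have B2 := B1.translate q1 q2
  have h3' : ∀ θ, τ c₀ (τ c₀ (τ c₀ θ)) = θ + 2 * π := fun θ => B.all_periodic_at hc₀ h3 θ
  obtain ⟨A, hA, hAe⟩ := B2.rigid_centred hq hq1 hq2 hc₀ h3'
  have e1 : ∀ θ, h θ - (p1 * cos θ + p2 * sin θ) - (q1 * cos θ + q2 * sin θ) =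
      h θ - ((p1 + q1) * cos θ + (p2 + q2) * sin θ) := fun θ => by ring
  refine ⟨p1 + q1, p2 + q2, A, hA, fun θ => ?_, fun θ => ?_, B.translate _ _⟩
  · rw [← e1]; exact hq θ
  · rw [← e1]; exact hAe θ

/-- the conic `a (x - o₁)² + 2 b (x - o₁) (y - o₂) + d (y - o₂)² = R` -/
def conic (o1 o2 a b d R : ℝ) : Set (ℝ × ℝ) :=
  {z | a * (z.1 - o1) ^ 2 + 2 * b * ((z.1 - o1) * (z.2 - o2)) + d * (z.2 - o2) ^ 2 = R}

lemma exists_angle {p q : ℝ} (h : p ^ 2 + q ^ 2 = 1) : ∃ φ, cos φ = p ∧ sin φ = q := by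
  refine ⟨Complex.arg ⟨p, q⟩, ?_, ?_⟩
  · have hn : ‖(⟨p, q⟩ : ℂ)‖ = 1 := by
      rw [Complex.norm_def, Complex.normSq_mk, ← sq, ← sq, h, Real.sqrt_one]
    have hne : (⟨p, q⟩ : ℂ) ≠ 0 := by
      intro h0
      rw [h0] at hn
      simp at hn
    rw [Complex.cos_arg hne, hn, div_one]
  · have hn : ‖(⟨p, q⟩ : ℂ)‖ = 1 := by
      rw [Complex.norm_def, Complex.normSq_mk, ← sq, ← sq, h, Real.sqrt_one]
    rw [Complex.sin_arg, hn, div_one]

lemma ellipse_set {h k ρ : ℝ → ℝ} (C : Cur h k ρ) (hpos : ∀ θ, 0 < h θ) {A : ℝ} (hA : 0 < A)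
    (hell : ∀ θ, h θ ^ 3 * ρ θ = A) {s : ℝ → ℝ} {lam : ℝ} (hs : ∀ θ, h θ * s θ = lam) :
    (range fun θ => pt h k θ (s θ)) =
      {z | (1 / h 0 ^ 2 + k 0 ^ 2 / A) * z.1 ^ 2 + 2 * (-(h 0 * k 0 / A)) * (z.1 * z.2) +
        h 0 ^ 2 / A * z.2 ^ 2 = 1 + lam ^ 2 / A} := by
  obtain ⟨φ, hφ, hφπ, hc, hsn⟩ := ellipse_angle C.h_deriv C.k_deriv C.h_per hpos hA hell
  obtain ⟨w, hw⟩ : ∃ w, w = √A := ⟨_, rfl⟩
  have hw0 : 0 < w := by rw [hw]; exact Real.sqrt_pos.2 hA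
  have hA' : A = w ^ 2 := by rw [hw, Real.sq_sqrt hA.le]
  rw [← hw] at hφ hsn
  have p0 := hpos 0
  -- the differentiated relations
  have hc' : ∀ θ, k θ * cos (φ θ) - w / h θ * sin (φ θ) = -(h 0 * sin θ) + k 0 * cos θ := by
    intro θ
    have h1 := ((C.h_deriv θ).mul ((hφ θ).cos))
    have h2 := ((Real.hasDerivAt_cos θ).const_mul (h 0)).add
      ((Real.hasDerivAt_sin θ).const_mul (k 0))
    have h3 : (h * fun x => cos (φ x)) = (fun x => h 0 * cos x) + fun x => k 0 * sin x :=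
      funext hc
    rw [h3] at h1
    have h4 := h1.unique h2
    have := hpos θ
    field_simp at h4 ⊢
    linarith
  have hs' : ∀ θ, k θ * sin (φ θ) + w / h θ * cos (φ θ) = w / h 0 * cos θ := by
    intro θ
    have h1 := ((C.h_deriv θ).mul ((hφ θ).sin))
    have h2 := ((Real.hasDerivAt_sin θ).const_mul (w / h 0))
    have h3 : (h * fun x => sin (φ x)) = (fun x => w / h 0 * sin x) := funext hsn
    rw [h3] at h1
    have h4 := h1.unique h2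
    have := hpos θ
    field_simp at h4 ⊢
    linarith
  -- the coordinates
  have k1 : ∀ θ, (pt h k θ (s θ)).1 = h 0 * (cos (φ θ) - lam / w * sin (φ θ)) := by
    intro θ
    have := hpos θ
    have e1 := hc θ
    have e2 := hsn θ
    have e3 := hc' θ
    have e4 := hs' θ
    have e5 := hs θ
    have hcosθ : cos θ = h 0 / w * (k θ * sin (φ θ) + w / h θ * cos (φ θ)) := by
      rw [e4]; field_simp
    have hsinθ : sin θ = h 0 / w * (h θ * sin (φ θ)) := by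
      rw [e2]; field_simp
    simp only [pt]
    rw [hcosθ, hsinθ, ← e5]
    field_simp
    ring
  have k2 : ∀ θ, h 0 * (pt h k θ (s θ)).2 - k 0 * (pt h k θ (s θ)).1 =
      w * (sin (φ θ) + lam / w * cos (φ θ)) := by
    intro θ
    have := hpos θ
    have e1 := hc θ
    have e3 := hc' θ
    have e5 := hs θ
    simp only [pt]
    have : h 0 * (h θ * sin θ + (k θ + s θ) * cos θ) - k 0 * (h θ * cos θ - (k θ + s θ) * sin θ) =
        -(h θ * (-(h 0 * sin θ) + k 0 * cos θ)) + (k θ + s θ) * (h 0 * cos θ + k 0 * sin θ) := by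
      ring
    rw [this, ← e3, ← e1, ← e5]
    field_simp
    ring
  ext z
  simp only [mem_range, Set.mem_ofPred_eq]
  have hq : (1 / h 0 ^ 2 + k 0 ^ 2 / A) * z.1 ^ 2 + 2 * (-(h 0 * k 0 / A)) * (z.1 * z.2) +
        h 0 ^ 2 / A * z.2 ^ 2 = (z.1 / h 0) ^ 2 + ((h 0 * z.2 - k 0 * z.1) / w) ^ 2 := by
    rw [hA']
    field_simp
    ring
  rw [hq]
  constructor
  · rintro ⟨θ, rfl⟩
    rw [k2, k1, hA']
    have s1 := sin_sq_add_cos_sq (φ θ)
    field_simp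
    linear_combination (w ^ 2 + lam ^ 2) * s1
  · intro hz
    obtain ⟨X, hX⟩ : ∃ X, X = z.1 / h 0 := ⟨_, rfl⟩
    obtain ⟨Y, hY⟩ : ∃ Y, Y = (h 0 * z.2 - k 0 * z.1) / w := ⟨_, rfl⟩
    obtain ⟨μ, hμ⟩ : ∃ μ, μ = lam / w := ⟨_, rfl⟩
    rw [← hX, ← hY, hA'] at hz
    have hz' : X ^ 2 + Y ^ 2 = 1 + μ ^ 2 := by rw [hz, hμ]; field_simp
    have hμ0 : 0 < 1 + μ ^ 2 := by positivity
    obtain ⟨ψ, hψ1, hψ2⟩ := exists_angle (p := (X + μ * Y) / (1 + μ ^ 2))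
      (q := (Y - μ * X) / (1 + μ ^ 2)) (by
        field_simp
        linear_combination (1 + μ ^ 2) * hz')
    -- the angle is attained
    have cφ : Continuous φ := continuous_iff_continuousAt.2 fun t => (hφ t).continuousAt
    have hper : Function.Periodic (fun x => (cos x, sin x)) (2 * π) := fun x => by
      simp only [cos_add_two_pi, sin_add_two_pi]
    obtain ⟨y, hy, he⟩ := hper.exists_mem_Ico (by positivity) ψ (φ 0)
    simp only [Prod.mk.injEq] at he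
    have hφ2 : φ (2 * π) = φ 0 + 2 * π := by
      have a1 := hφπ 0
      have a2 := hφπ (0 + π)
      rw [show (0:ℝ) + π + π = 2 * π by ring] at a2
      linarith
    obtain ⟨θ, -, hθ⟩ := intermediate_value_Icc (show (0:ℝ) ≤ 2 * π by positivity)
      cφ.continuousOn (show y ∈ Icc (φ 0) (φ (2 * π)) from ⟨hy.1, by rw [hφ2]; exact hy.2.le⟩)
    refine ⟨θ, ?_⟩
    have g1 := k1 θ
    have g2 := k2 θ
    rw [hθ, ← he.1, ← he.2, hψ1, hψ2, ← hμ] at g1 g2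
    have t1 : (pt h k θ (s θ)).1 = z.1 := by
      rw [g1]
      have : z.1 = h 0 * X := by rw [hX]; field_simp
      rw [this]
      field_simp
      ring
    have t2 : h 0 * (pt h k θ (s θ)).2 - k 0 * (pt h k θ (s θ)).1 = h 0 * z.2 - k 0 * z.1 := by
      rw [g2]
      have : h 0 * z.2 - k 0 * z.1 = w * Y := by rw [hY]; field_simp
      rw [this]
      field_simp
      ring
    rw [t1] at t2
    have t3 : h 0 * (pt h k θ (s θ)).2 = h 0 * z.2 := by linarith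
    exact Prod.ext t1 (mul_left_cancel₀ p0.ne' t3)

/-- the main theorem -/
theorem main {h k ρ : ℝ → ℝ} (C : Cur h k ρ) {L : ℝ → Set (ℝ × ℝ)} {r : ℝ → ℝ → ℝ}
    (r_smooth : ContDiffOn ℝ 1 (fun q : ℝ × ℝ => r q.1 q.2) (Ioo 0 1 ×ˢ univ))
    (r_pos : ∀ c ∈ Ioo (0:ℝ) 1, ∀ θ, 0 < r c θ)
    (r_mono : ∀ c ∈ Ioo (0:ℝ) 1, ∀ θ, 0 < deriv (fun x => r x θ) c)
    (r_lim : ∀ θ, Tendsto (fun c => r c θ) (𝓝[>] 0) (𝓝 0))
    (meets : ∀ c ∈ Ioo (0:ℝ) 1, ∀ θ s, pt h k θ s ∈ L c ↔ s = r c θ ∨ s = -(r c θ))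
    (outside : ∀ c ∈ Ioo (0:ℝ) 1, ∀ z ∈ L c, ∃ θ s, pt h k θ s = z)
    (triangle : ∃ c ∈ Ioo (0:ℝ) 1, ∃ t₁ t₂ t₃, t₁ < t₂ ∧ t₂ < t₃ ∧ t₃ < t₁ + 2 * π ∧
      pt h k t₁ (r c t₁) = pt h k t₂ (-(r c t₂)) ∧
      pt h k t₂ (r c t₂) = pt h k t₃ (-(r c t₃)) ∧
      pt h k t₃ (r c t₃) = pt h k t₁ (-(r c t₁))) :
    ∃ o1 o2 a b d : ℝ, 0 < a ∧ b ^ 2 < a * d ∧ (range fun θ => pt h k θ 0) =
      conic o1 o2 a b d 1 ∧ ∀ c ∈ Ioo (0:ℝ) 1, ∃ R, 1 < R ∧ L c = conic o1 o2 a b d R := by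
  have B := C.fam r_smooth r_pos r_mono r_lim meets
  obtain ⟨c₀, hc₀, t₁, t₂, t₃, h12, h23, h31, hA, hB, hC⟩ := triangle
  have n1 := C.next_unique (r_pos c₀ hc₀ t₁) h12 (by linarith) hA
  have n2 := C.next_unique (r_pos c₀ hc₀ t₂) h23 (by linarith) hB
  rw [← C.pt_per t₁] at hC
  have n3 := C.next_unique (r_pos c₀ hc₀ t₃) (show t₃ < t₁ + 2 * π from h31) (by linarith) hC
  obtain ⟨o1, o2, A, hA0, hpos, hell, B'⟩ := B.rigid hc₀ (x := t₁) (by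
    rw [n1, n2, n3])
  have hall := fun c hc θ => B'.all_leaves hpos hA0 hell (c := c) hc θ
  have C' : Cur (fun θ => h θ - (o1 * cos θ + o2 * sin θ))
      (fun θ => k θ - (-(o1 * sin θ) + o2 * cos θ)) ρ :=
    ⟨B'.h_deriv, B'.k_deriv, B'.ρ_cont, B'.ρ_pos, B'.h_per⟩
  obtain ⟨ho, hho⟩ : ∃ f : ℝ → ℝ, f = fun θ => h θ - (o1 * cos θ + o2 * sin θ) := ⟨_, rfl⟩
  obtain ⟨ko, hko⟩ : ∃ f : ℝ → ℝ, f = fun θ => k θ - (-(o1 * sin θ) + o2 * cos θ) := ⟨_, rfl⟩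
  rw [← hho, ← hko] at C'
  have hoe : ∀ θ, ho θ = h θ - (o1 * cos θ + o2 * sin θ) := fun θ => by rw [hho]
  have hpos' : ∀ θ, 0 < ho θ := fun θ => by rw [hoe]; exact hpos θ
  have hell' : ∀ θ, ho θ ^ 3 * ρ θ = A := fun θ => by rw [hoe]; exact hell θ
  have hpt : ∀ θ s, pt h k θ s = pt ho ko θ s + (o1, o2) := by
    intro θ s
    rw [hho, hko]
    have s1 := sin_sq_add_cos_sq θ
    unfold pt
    ext
    · simp only [Prod.fst_add]
      linear_combination o1 * s1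
    · simp only [Prod.snd_add]
      linear_combination o2 * s1
  have p0 := hpos' 0
  have hset : ∀ (s : ℝ → ℝ) (lam : ℝ), (∀ θ, ho θ * s θ = lam) →
      (range fun θ => pt h k θ (s θ)) =
        conic o1 o2 (1 / ho 0 ^ 2 + ko 0 ^ 2 / A) (-(ho 0 * ko 0 / A)) (ho 0 ^ 2 / A)
          (1 + lam ^ 2 / A) := by
    intro s lam hs
    have h1 := ellipse_set C' hpos' hA0 hell' hs
    ext z
    have h2 := Set.ext_iff.1 h1 (z - (o1, o2))
    simp only [mem_range, Set.mem_ofPred_eq, Prod.fst_sub, Prod.snd_sub] at h2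
    simp only [mem_range, conic, Set.mem_ofPred_eq]
    rw [← h2]
    refine exists_congr fun θ => ?_
    rw [hpt, eq_sub_iff_add_eq]
  refine ⟨o1, o2, 1 / ho 0 ^ 2 + ko 0 ^ 2 / A, -(ho 0 * ko 0 / A), ho 0 ^ 2 / A, by positivity,
    ?_, ?_, ?_⟩
  · have : (1 / ho 0 ^ 2 + ko 0 ^ 2 / A) * (ho 0 ^ 2 / A) - (-(ho 0 * ko 0 / A)) ^ 2 = 1 / A := by
      field_simp
      ring
    have h2 : 0 < 1 / A := by positivity
    linarith
  · have := hset (fun _ => 0) 0 (fun θ => by ring)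
    rw [this]
    norm_num
  · intro c hc
    have hlam : 0 < ho 0 * r c 0 := mul_pos p0 (r_pos c hc 0)
    refine ⟨1 + (ho 0 * r c 0) ^ 2 / A, ?_, ?_⟩
    · have : 0 < (ho 0 * r c 0) ^ 2 / A := by positivity
      linarith
    · rw [← hset (r c) (ho 0 * r c 0) fun θ => by rw [hoe, hoe]; exact hall c hc θ]
      ext z
      simp only [mem_range]
      constructor
      · intro hz
        obtain ⟨θ, s, rfl⟩ := outside c hc z hz
        rcases (meets c hc θ s).1 hz with h1 | h1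
        · exact ⟨θ, by rw [h1]⟩
        · have Lf := B.leaf hc
          obtain ⟨y, hy⟩ := Lf.τ_surj θ
          refine ⟨y, ?_⟩
          have e1 := B.eq_x c hc y
          have e2 := B.eq_y c hc y
          change y + Cur.Dfun h k y (r c y) = θ at hy
          rw [hy] at e1 e2
          rw [h1]
          unfold pt
          rw [e1, e2, sub_eq_add_neg (k θ) (r c θ)]
      · rintro ⟨θ, rfl⟩
        exact (meets c hc θ _).2 (Or.inl rfl)

end Pool.Agent.MP_ae5b4e_an.Out
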