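import Mathlib
import Pool.Agent.Lib.MP_ae5b4e_an_NB5.FinC

/-!
# MP_ae5b4e_an: foliations near a conic, the projective parameter is entire or has a natural boundary

After a projective map the conic `γ` is the unit circle.  The leaves are closed curves of the
projective plane, `0 < c < 1`, which converge to `γ` for `c → 0`; they are only continuous.  On the
tangent line to `γ` at the point with angle `θ` we use the coordinate `u` (`u = ∞` at the tangency
point, `1/u` is the signed distance from it); a projective involution fixing the tangency point is
`u ↦ κ θ - u`.  We assume that `κ` is smooth (automatic for a smooth foliation).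

The field has a canonical projective parameter `t`: an increasing solution `θ = θ (t)` of
`θ'' = - κ (θ) θ' ^ 2 / 2` with `θ (t + 1) = θ (t) + 2 π` (structure `Param`), and the developing
map `f = exp (i θ)`.  Let `h ≤ ∞` be the maximal height such that `f` extends meromorphically to the
strip `|Im t| < h`.

If `h = ∞` nothing else is assumed: the leaves are conics of a pencil.

If `h` is finite we assume that the field is uniformly locally finitely branched along the
parameter: `fld f = 2 i (1 - f f'' / f' ^ 2)` is the continuation of `κ (θ (t))`, and among `N + 1`
regular points of a disc `B (t, ε min (1, h - |Im t|))` at which `f` has the same value `x`, there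
are two which carry the same branch of the field near `x`.  This holds with `ε = 1` if the
meromorphic continuation of `κ` from the circle to the complex domain has at most `N` branches over
every point, and it holds, with infinitely many branches allowed, if the Schwarzian derivative of
`f` is bounded by `C / (h - |Im t|) ^ 2`.  Nothing else is assumed: no analyticity of the foliation,
no first integral, no symmetry and nothing about periodic orbits, and the foliated neighbourhood
may be arbitrarily thin.

Idea of the proof.  (0) `κ` is real-analytic.  Let `z` be a complex coordinate of the conic.  The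
tangent lines through the vertices of a polygon inscribed in a leaf satisfy
`1/(z⁺ - z) + 1/(z⁻ - z) = k z`, and there is `F (t, ρ)`, holomorphic near `ℝ × {0}` and
`1`-periodic in `t`, such that `F (t + j ρ, ρ)`, `j ∈ ℤ`, are the vertices and `f = F (·, 0)`
satisfies `k (f) = - f'' / f' ^ 2`.
(1) Let `h` be the maximal height such that `F` is meromorphic near `{|Im t| < h} × {0}`.  If `h` is
finite, then `F` is regular at no point of the line `Im t = h`, so `h` is the maximal height of `f`;
`f` is locally univalent in the strip, without affine symmetries except the period, and by the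
hypothesis the Schwarzian `2 Q` of `f` satisfies `|Q| (h - |Im t|) ^ 2 ≤ C`.  This is impossible:
for `ρ = 1 / q` the closed chains of labels (preimages of the vertices under `f`) form an analytic
set, on which a plurisubharmonic function built from the bound shows that one label comes to the
boundary line separately from all others; the limits of the rescaled curves satisfy an algebraic
differential equation, and a curve of this kind is constant.
(2) Let `h` be infinite.  If `f` has a critical point or an affine symmetry besides the period, or
if `Q` is constant, then `f` is rational in `exp (2 π i t)` or elliptic, `k` is algebraic, hence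
rational, and the leaves are conics of a pencil.  Otherwise `f` is locally univalent, `Q` is entire,
not constant, with period one, and grows exponentially.  Choose `H` and the maximum point `l` of
`|Q| (H - |Im t|) ^ B`, `B` large.  On the scale `1 / N`, `N = B / (H - Im l)`, the potential is
close to `c ^ (-2) exp (- i z)`, `c N` very small.  For `ρ = c γ` the label `z (u, γ)` of `F` exists
in the zone `|γ| ^ 2 exp (Im u) < κ`: it is constructed for imaginary `γ` along vertical chains and
for the other `γ` by its Fourier series in `t` and the Phragmén-Lindelöf principle in `γ`.  For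
imaginary `γ` the chains go on beyond the zone, with the almost conserved quantities `Ψ (ϑ) a` and
`z + i Λ (ϑ)`; a two-constants argument in `log γ` gives the label for `γ = 1` on a thin vertical
strip through the whole critical region, to a place where it moves with a very small velocity.
From there the horizontal chains to the right and to the left give two labels at the same point.
(3) For small real `ρ` the height of `F (·, ρ)` is infinite, or its top line contains no regular
segment of length `2 ρ`; so `F (·, ρ)` is meromorphic in the whole strip below the crossing, the two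
labels belong to the same point of the polygon, and they differ by an affine symmetry of `f`, i.e.
by an integer.  But the values show that the difference is not a period of `Q`.
-/

noncomputable section

namespace Pool.Agent.Lib.MP_ae5b4e_an.Out.MaximalHeightConicVariant

open Real Set Filter Topology Metric
open scoped ContDiff
open Pool.Agent.MP_ae5b4e_an_hopf
open Pool.Agent.MP_ae5b4e_an_MET (conic)
open Pool.Agent.MP_ae5b4e_an_RG (circ1)
open Pool.Agent.MP_ae5b4e_an_BS (Param fld)

/-- Continuous families of closed curves around the unit circle with projective involutions on the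
tangent lines and a smooth field consist of conics of a pencil, if the developing map extends
meromorphically to the plane, or if it has a finite maximal height and the field is uniformly
locally finitely branched along its projective parameter up to this height. -/
theorem result (U : ℝ → ℝ → ℝ) (κ : ℝ → ℝ) (N : ℕ) (ε : ℝ) (hε : 0 < ε)
    (hbr : ∀ (θ : ℝ → ℝ) (f : ℂ → ℂ) (h : ℝ), Param κ θ → 0 < h →
      (∀ t : ℝ, f t = Complex.exp (θ t * Complex.I)) → MeromorphicOn f {t : ℂ | |t.im| < h} →
      (∀ h' > h, ∀ g : ℂ → ℂ, MeromorphicOn g {t : ℂ | |t.im| < h'} → ¬ ∀ t : ℝ, g t = f t) →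
      ∀ t : ℂ, |t.im| < h → ∀ u : Fin (N + 1) → ℂ,
        (∀ i, u i ∈ ball t (ε * min 1 (h - |t.im|)) ∧ AnalyticAt ℂ f (u i) ∧
          deriv f (u i) ≠ 0 ∧ f (u i) = f (u 0)) →
        ∃ i j, i ≠ j ∧ ∃ g : ℂ → ℂ, (∀ᶠ s in 𝓝 (u i), g (f s) = fld f s) ∧
          ∀ᶠ s in 𝓝 (u j), g (f s) = fld f s)
    (hcont : ContinuousOn (fun z : ℝ × ℝ => U z.1 z.2) (Ioo 0 1 ×ˢ univ))
    (hper : ∀ c ∈ Ioo (0:ℝ) 1, ∀ θ, U c (θ + 2 * π) = U c θ)
    (hsimple : ∀ c ∈ Ioo (0:ℝ) 1, ∀ θ θ', circ1.pt θ (U c θ) = circ1.pt θ' (U c θ') →
      ∃ n : ℤ, θ' = θ + n * (2 * π))
    (hanti : ∀ θ, StrictAntiOn (fun c => U c θ) (Ioo 0 1))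
    (hlim : ∀ θ, Tendsto (fun c => U c θ) (𝓝[>] 0) atTop)
    (hreg : ContDiff ℝ ∞ κ ∨ (ContDiffOn ℝ ∞ (fun z : ℝ × ℝ => U z.1 z.2) (Ioo 0 1 ×ˢ univ) ∧
      ∀ c ∈ Ioo (0:ℝ) 1, ∀ θ, deriv (fun r => U r θ) c < 0))
    (hproj : ∀ c ∈ Ioo (0:ℝ) 1, ∀ θ u v, u ≠ v → circ1.pt θ u ∈ circ1.leaf U c →
      circ1.pt θ v ∈ circ1.leaf U c → u + v = κ θ) :
    ∃ Q E : QuadraticForm ℝ (Fin 3 → ℝ), E.Nondegenerate ∧ circ1.trace = conic E ∧
      (∀ θ, 0 < Q (circ1.Γ θ)) ∧
      ∀ c ∈ Ioo (0:ℝ) 1, ∃ ρ : ℝ, (Q - ρ • E).Nondegenerate ∧
        circ1.leaf U c = conic (Q - ρ • E) :=
  Pool.Agent.MP_ae5b4e_an_NB5.circle_en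
    ⟨hcont, hper, hsimple, fun _ hc _ hc' hlt t => hanti t hc hc' hlt, hlim, hproj⟩ hreg hε hbr

end Pool.Agent.Lib.MP_ae5b4e_an.Out.MaximalHeightConicVariant
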