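import Mathlib
import Pool.Agent.Lib.MP_ae5b4e_an_LOC.FinL
import Pool.Agent.Lib.MP_ae5b4e_an_LOC.CircC
import Pool.Agent.Lib.MP_ae5b4e_an_LOC.Rch
import Pool.Agent.Lib.MP_ae5b4e_an_LOC.Nuq

/-!
# MP_ae5b4e_an: every solution near a pencil of conics is a pencil of conics

A solution (`Sol`) is a smooth closed convex curve `γ` of positive curvature together with closed
curves `L_c`, `0 < c < 1`, which fill a one-sided neighbourhood of `γ` of any thickness, such that
all the involutions of the tangent lines are projective: in the coordinate `u` of the point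
`γ t + γ' t / u` of the tangent line at `t` (`u = ∞` is the tangency point) they are the maps
`u ↦ κ t - u`.  There is no first integral, no symmetry and no assumption of analyticity.

Every solution has a normal form (`Normal`), unique up to a translation of the parameter: a parameter
`x` of period one and a lift `P = lam (γ, 1)` with `det (P, P', P'') = 1` for which the involution of
the tangent line at `x` exchanges `P' + v P` and `P' - v P`.  The periodic functions `r`, `m` with
`P''' + r P' + m P = 0` determine the curve and the field of involutions up to projective maps, and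
they are projective invariants.  `Reach δ`: some leaf is at the distance `≥ δ` from the curve.

THEOREM.  Let `(γ₀, U₀, κ₀)` be a solution for which `γ₀` and all leaves are conics of one pencil.
For all `K`, `δ > 0` (if the pencil is projectively equivalent to concentric circles: `δ > 3 / 7`)
there is `ε > 0` such that every solution with `|r - r₀| ≤ ε`, `|m - m₀| ≤ ε`,
`|r|, …, |r'''|, |m|, …, |m''| ≤ K` and reach `δ` is a pencil of conics.

Idea of the proof.  (0) By the estimates for the closed polygons with `q` vertices, `q → ∞`, the
functions `r`, `m` are real-analytic, with a width of the strip which depends only on `K` and `δ`;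
so the curve is close to `γ₀` in an analytic norm.

(1) Let `E = 0`, `Q` be the forms of the pencil, `Q (P₀) = 1`.  For forms `E`, `Q`, `G` near
`(E, Q, 0)`, `G` a quartic form in a fixed complement of the ideal `(E, Q)` (four parameters; eight
more for a projective frame), the function `Ψ = E / Q + G / Q ^ 2` takes opposite values at the
vertices of the polygons in the following sense: the values at the two ends `P ± τ P'` of a tangent
segment differ by `2 τ (e₀ + ..) + O (τ ^ 3)`, an EXACT rational expression in two periodic functions
`e₀`, `e₁` (the defects), `κ`-like and source terms; the sum over a polygon telescopes to zero.  If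
`e₀ = e₁ = 0` and `G = 0` then the curve lies on a conic.  The twelve parameters are chosen such that
`(e₀, e₁)` is orthogonal to the twelve kernel elements of the linear theory.

(2) High Fourier modes of `(e₀, e₁)` are controlled by two leaves for each mode, uniformly.  By
compactness it remains to show that the exact limit equations on the pencil, for all leaves with
rational rotation number `p / q < δ`, have only the trivial solution.  There is a limit equation of
first order (`G = 0`) and, because the source terms are quadratic, one of second order with a source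
`- 2 G ^ 2`.

(3) The linear theory (non-circular pencils).  For the Jacobi elliptic time map `φ (ω, x)` of the
pencil, the laws for all `p / q < r` say that certain Fourier coefficients `∫ f exp (-2 π i m φ)`
vanish; they are analytic in `ω` and this gives a functional equation for `F (ω, ·)`,
`f₀ + λ f₁ + λ ² f₂`, under the translation by `ω`; the functions extend to the whole strip below the
line `Im x = h` of the base points, are continued across this line, the jump at the base points is
studied by a local analysis at `ω → 0`; they are rational functions on the conic with poles of small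
order at the four base points, hence the twelve kernel elements; the source leads to a pole of order
`7` in `N = z ^ 2 - ω ^ 2 / 4` which is excluded by a determinant (`105 ≠ 0`).

(4) Circular pencils.  The modes of order three and four of the quartic form are killed by the
leaves `3 / 7`, `3 / 8`, `3 / 9`, together with those for `p = 1, 2`, by an exact computation of
second and third order: `|c| ^ 3 + |c| (|c₄| + |q| |c₃|)` bounds the defects.

(5) A curve which lies on a conic belongs to a pencil: theorem `PencilConic`.
-/

noncomputable section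

namespace Pool.Agent.MP_ae5b4e_an_Out.NearPencilVariant

open Real Set Filter Topology
open scoped ContDiff
open Pool.Agent.MP_ae5b4e_an_hopf (ConvexCurve circ)
open Pool.Agent.MP_ae5b4e_an_RG (Pencil)
open Pool.Agent.MP_ae5b4e_an_RIG (Sol Normal Bnd Reach)

/-- Existence and uniqueness of the normal form, positivity of the reach, and the theorem: every
solution near a pencil of conics is a pencil of conics. -/
theorem result :
    (∀ (γ : ConvexCurve) (U : ℝ → ℝ → ℝ) (κ : ℝ → ℝ), Sol γ U κ →
      ∃ σ lam r m : ℝ → ℝ, Normal γ κ σ lam r m ∧ ∃ δ > 0, Reach γ U σ δ) ∧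
    (∀ (γ : ConvexCurve) (κ σ lam r m σ' lam' r' m' : ℝ → ℝ), Normal γ κ σ lam r m →
      Normal γ κ σ' lam' r' m' → ∃ s : ℝ, ∀ x, σ' x = σ (x + s) ∧ lam' x = lam (x + s) ∧
        r' x = r (x + s) ∧ m' x = m (x + s)) ∧
    ∀ (γ₀ : ConvexCurve) (U₀ : ℝ → ℝ → ℝ) (κ₀ σ₀ lam₀ r₀ m₀ : ℝ → ℝ), Sol γ₀ U₀ κ₀ →
      Normal γ₀ κ₀ σ₀ lam₀ r₀ m₀ → Pencil γ₀ U₀ → ∀ K δ : ℝ, 0 < δ →
      ((∃ g : (Fin 3 → ℝ) ≃ₗ[ℝ] (Fin 3 → ℝ), γ₀.trace = circ g 1 ∧
        ∀ c ∈ Ioo (0:ℝ) 1, ∃ R : ℝ, 0 < R ∧ γ₀.leaf U₀ c = circ g R) → 3 / 7 < δ) →
      ∃ ε > 0, ∀ (γ : ConvexCurve) (U : ℝ → ℝ → ℝ) (κ σ lam r m : ℝ → ℝ), Sol γ U κ →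
        Normal γ κ σ lam r m → Bnd K r m → Reach γ U σ δ → (∀ x, |r x - r₀ x| ≤ ε) →
        (∀ x, |m x - m₀ x| ≤ ε) → Pencil γ U := by
  refine ⟨fun γ U κ h => ?_, fun γ κ σ lam r m σ' lam' r' m' h h' => ?_, ?_⟩
  · obtain ⟨σ, lam, r, m, hN⟩ := h.exists_normal
    exact ⟨σ, lam, r, m, hN, Pool.Agent.MP_ae5b4e_an_LOC.exists_reach h hN⟩
  · obtain ⟨s, h1, h2, h3, h4⟩ := Pool.Agent.MP_ae5b4e_an_LOC.normal_unique h h'
    exact ⟨s, fun x => ⟨h1 x, h2 x, h3 x, h4 x⟩⟩
  · intro γ₀ U₀ κ₀ σ₀ lam₀ r₀ m₀ h₀ hN₀ hP₀ K δ hδ hc
    exact Pool.Agent.MP_ae5b4e_an_LOC.near_pencil h₀ hN₀ hP₀ hδ fun hr =>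
      hc (Pool.Agent.MP_ae5b4e_an_LOC.circ_of_const h₀ hN₀ hP₀ hr)

end Pool.Agent.MP_ae5b4e_an_Out.NearPencilVariant
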