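import Mathlib
import Pool.Agent.Lib.MP_ae5b4e_an.Out.Final

/-!
# MP_ae5b4e_an: outer billiards, foliated up to a leaf through a circumscribed triangle

`γ` is a closed convex curve of positive curvature with the `C²` support function `h` (no
normalisation of the origin): its point with the outer normal `(cos t, sin t)` is
`tangentPoint h t 0`, and the tangent line there consists of the points `tangentPoint h t s`, where
`s` is the signed distance from the tangency point.

The leaves are sets `L c`, `0 < c < 1`, outside of `γ`; the tangent line of `γ` at the angle `t`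
meets `L c` exactly in the two points at the distance `r c t > 0` from the tangency point, so that
all involutions `σ_p` are the point reflections of the tangent lines (`L c` is an invariant curve of
the outer billiard map of `γ`).  `r` is `C¹`, increases with `c` and tends to `0` for `c → 0`, so
that the leaves form a `C¹` foliation of a one-sided neighbourhood of `γ`.

Assume that some leaf contains the vertices of one triangle circumscribed about `γ` (then `γ`
touches its sides at their midpoints; such triangles always exist in the exterior of `γ`, e.g. the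
circumscribed triangle of least area, so the assumption says that the foliated neighbourhood is
large enough, namely that it contains an invariant curve of rotation number `1/3`).  Then `γ` is an
ellipse, and all the leaves are ellipses of one pencil (homothetic to `γ`).  No symmetry is assumed.
-/

noncomputable section

namespace Pool.Agent.MP_ae5b4e_an_Out.OuterBilliardVariant

open Real Set Filter Topology

/-- The point at the signed distance `s` from the tangency point on the tangent line at the angle
`t` of the curve with the support function `h`. -/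
def tangentPoint (h : ℝ → ℝ) (t s : ℝ) : ℝ × ℝ :=
  (h t * cos t - (deriv h t + s) * sin t, h t * sin t + (deriv h t + s) * cos t)

/-- The conic `a (x - o₁)² + 2 b (x - o₁) (y - o₂) + d (y - o₂)² = R`. -/
def conic (o1 o2 a b d R : ℝ) : Set (ℝ × ℝ) :=
  {z | a * (z.1 - o1) ^ 2 + 2 * b * ((z.1 - o1) * (z.2 - o2)) + d * (z.2 - o2) ^ 2 = R}

theorem result (h : ℝ → ℝ) (L : ℝ → Set (ℝ × ℝ)) (r : ℝ → ℝ → ℝ)
    -- the curve `γ`
    (h_smooth : ContDiff ℝ 2 h)
    (h_periodic : ∀ t, h (t + 2 * π) = h t)
    (h_convex : ∀ t, 0 < h t + deriv (deriv h) t)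
    -- the leaves: the tangent line at the angle `t` meets `L c` in the two points at the distance
    -- `r c t` from the tangency point
    (meets : ∀ c ∈ Ioo (0 : ℝ) 1, ∀ t s, tangentPoint h t s ∈ L c ↔ s = r c t ∨ s = -r c t)
    (outside : ∀ c ∈ Ioo (0 : ℝ) 1, ∀ z ∈ L c, ∃ t s, tangentPoint h t s = z)
    -- the foliation
    (r_smooth : ContDiffOn ℝ 1 (fun q : ℝ × ℝ => r q.1 q.2) (Ioo 0 1 ×ˢ univ))
    (r_pos : ∀ c ∈ Ioo (0 : ℝ) 1, ∀ t, 0 < r c t)
    (r_increasing : ∀ c ∈ Ioo (0 : ℝ) 1, ∀ t, 0 < deriv (fun x => r x t) c)
    (r_limit : ∀ t, Tendsto (fun c => r c t) (𝓝[>] 0) (𝓝 0))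
    -- one triangle with the sides on the tangent lines at `t₁ < t₂ < t₃` has its vertices on a leaf
    (triangle : ∃ c ∈ Ioo (0 : ℝ) 1, ∃ t₁ t₂ t₃, t₁ < t₂ ∧ t₂ < t₃ ∧ t₃ < t₁ + 2 * π ∧
      tangentPoint h t₁ (r c t₁) = tangentPoint h t₂ (-r c t₂) ∧
      tangentPoint h t₂ (r c t₂) = tangentPoint h t₃ (-r c t₃) ∧
      tangentPoint h t₃ (r c t₃) = tangentPoint h t₁ (-r c t₁)) :
    ∃ o1 o2 a b d : ℝ, 0 < a ∧ b ^ 2 < a * d ∧
      (range fun t => tangentPoint h t 0) = conic o1 o2 a b d 1 ∧
      ∀ c ∈ Ioo (0 : ℝ) 1, ∃ R, 1 < R ∧ L c = conic o1 o2 a b d R := by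
  have hd1 : ContDiff ℝ 1 (deriv h) := by
    have := ContDiff.iterate_deriv' 1 1 h_smooth
    simpa using this
  have C : Pool.Agent.MP_ae5b4e_an.Out.Cur h (deriv h) (fun t => h t + deriv (deriv h) t) :=
    { h_deriv := fun t => (h_smooth.differentiable two_ne_zero t).hasDerivAt
      k_deriv := fun t => by
        have := (hd1.differentiable one_ne_zero t).hasDerivAt
        simpa using this
      ρ_cont := h_smooth.continuous.add (hd1.continuous_deriv le_rfl)
      ρ_pos := h_convex
      h_per := h_periodic }
  exact Pool.Agent.MP_ae5b4e_an.Out.main C r_smooth r_pos r_increasing r_limit meets outside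
    triangle

end Pool.Agent.MP_ae5b4e_an_Out.OuterBilliardVariant
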