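import Mathlib
import Pool.Agent.Lib.MP_ae5b4e_an.Birk.Hopf
import Pool.Agent.Lib.MP_ae5b4e_an.Out.Defs
import Pool.Agent.Lib.MP_ae5b4e_an.Out.Rel

/-!
MP_ae5b4e_an, theorem on outer billiards: existence of the leaf of 3-periodic orbits.
-/

noncomputable section

namespace Pool.Agent.MP_ae5b4e_an.Out

open Real Set Filter Topology MeasureTheory
open Pool.Agent.MP_ae5b4e_an.Birk.Hopf

section support

variable {h k ρ : ℝ → ℝ}

/-- Taylor comparison for the support function, lower bound. -/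
lemma support_lower (hh : ∀ θ, HasDerivAt h (k θ) θ) (hk : ∀ θ, HasDerivAt k (ρ θ - h θ) θ)
    {m : ℝ} (hm : ∀ θ, m ≤ ρ θ) (x : ℝ) {D : ℝ} (h0 : 0 ≤ D) (hD : D ≤ π) :
    m * (1 - cos D) ≤ h (x + D) - h x * cos D - k x * sin D := by
  have hd : ∀ u, HasDerivAt (fun u => k (x + u) * sin (D - u) + h (x + u) * cos (D - u) -
      m * cos (D - u)) ((ρ (x + u) - m) * sin (D - u)) u := by
    intro u
    have a1 : HasDerivAt (fun u => k (x + u)) (ρ (x + u) - h (x + u)) u :=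
      (hk (x + u)).comp_const_add x u
    have a2 : HasDerivAt (fun u => h (x + u)) (k (x + u)) u := (hh (x + u)).comp_const_add x u
    have a3 : HasDerivAt (fun u => D - u) (-1) u := by
      simpa using (hasDerivAt_id' u).const_sub D
    have a4 := a3.sin
    have a5 := a3.cos
    refine (((a1.mul a4).add (a2.mul a5)).sub (a5.const_mul m)).congr_deriv ?_
    ring
  have hmono : MonotoneOn (fun u => k (x + u) * sin (D - u) + h (x + u) * cos (D - u) -
      m * cos (D - u)) (Icc 0 D) := by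
    refine monotoneOn_of_deriv_nonneg (convex_Icc 0 D)
      (fun u _ => (hd u).continuousAt.continuousWithinAt)
      (fun u _ => (hd u).differentiableAt.differentiableWithinAt) fun u hu => ?_
    rw [(hd u).deriv]
    rw [interior_Icc] at hu
    refine mul_nonneg (by linarith [hm (x + u)]) (sin_nonneg_of_nonneg_of_le_pi ?_ ?_)
    · linarith [hu.2]
    · linarith [hu.1]
  have := hmono (left_mem_Icc.2 h0) (right_mem_Icc.2 h0) h0
  simp only [add_zero, sub_zero, sub_self, sin_zero, cos_zero, mul_zero, zero_add, mul_one] at this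
  linarith

/-- Taylor comparison for the support function, upper bound seen from the other end. -/
lemma support_upper (hh : ∀ θ, HasDerivAt h (k θ) θ) (hk : ∀ θ, HasDerivAt k (ρ θ - h θ) θ)
    {M : ℝ} (hM : ∀ θ, ρ θ ≤ M) (x : ℝ) {D : ℝ} (h0 : 0 ≤ D) (hD : D ≤ π) :
    h x - h (x + D) * cos D + k (x + D) * sin D ≤ M * (1 - cos D) := by
  have hd : ∀ u, HasDerivAt (fun u => h (x + u) * cos u - k (x + u) * sin u -
      M * cos u) ((M - ρ (x + u)) * sin u) u := by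
    intro u
    have a1 : HasDerivAt (fun u => k (x + u)) (ρ (x + u) - h (x + u)) u :=
      (hk (x + u)).comp_const_add x u
    have a2 : HasDerivAt (fun u => h (x + u)) (k (x + u)) u := (hh (x + u)).comp_const_add x u
    have a4 := hasDerivAt_sin u
    have a5 := hasDerivAt_cos u
    refine (((a2.mul a5).sub (a1.mul a4)).sub (a5.const_mul M)).congr_deriv ?_
    ring
  have hmono : MonotoneOn (fun u => h (x + u) * cos u - k (x + u) * sin u -
      M * cos u) (Icc 0 D) := by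
    refine monotoneOn_of_deriv_nonneg (convex_Icc 0 D)
      (fun u _ => (hd u).continuousAt.continuousWithinAt)
      (fun u _ => (hd u).differentiableAt.differentiableWithinAt) fun u hu => ?_
    rw [(hd u).deriv]
    rw [interior_Icc] at hu
    refine mul_nonneg (by linarith [hM (x + u)]) (sin_nonneg_of_nonneg_of_le_pi ?_ ?_)
    · exact hu.1.le
    · linarith [hu.2]
  have := hmono (left_mem_Icc.2 h0) (right_mem_Icc.2 h0) h0
  simp only [add_zero, sin_zero, cos_zero, mul_zero, sub_zero, mul_one] at this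
  linarith

end support

namespace Leaf
variable {h k ρ r r' τ τ' : ℝ → ℝ}

/-- the tangent segments of one vertex are comparable -/
lemma r_tau_le (L : Leaf h k ρ r r' τ τ') {m M : ℝ} (hm0 : 0 < m) (hm : ∀ θ, m ≤ ρ θ)
    (hM : ∀ θ, ρ θ ≤ M) (θ : ℝ) : r (τ θ) ≤ M / m * r θ := by
  have hs := L.sin_pos θ
  have hτ := L.τ_mem θ
  have e1 := L.h_tau θ
  have e2 := L.k_tau θ
  have l1 := support_lower L.h_deriv L.k_deriv hm θ (D := τ θ - θ) (by linarith [hτ.1])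
    (by linarith [hτ.2])
  have l2 := support_upper L.h_deriv L.k_deriv hM θ (D := τ θ - θ) (by linarith [hτ.1])
    (by linarith [hτ.2])
  rw [add_sub_cancel] at l1 l2
  have l3 : m * (1 - cos (τ θ - θ)) ≤ r θ * sin (τ θ - θ) := by linarith
  have l4 : r (τ θ) * sin (τ θ - θ) ≤ M * (1 - cos (τ θ - θ)) := by
    have e3 := sin_sq_add_cos_sq (τ θ - θ)
    have e4 : h θ - h (τ θ) * cos (τ θ - θ) + k (τ θ) * sin (τ θ - θ) =
        r (τ θ) * sin (τ θ - θ) := by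
      have e5 : k (τ θ) = r (τ θ) - h θ * sin (τ θ - θ) + (k θ + r θ) * cos (τ θ - θ) := by
        linarith
      rw [e5, e1]
      linear_combination (-h θ) * e3
    linarith
  have hM0 : 0 < M := lt_of_lt_of_le hm0 ((hm 0).trans (hM 0))
  have l5 : M * (1 - cos (τ θ - θ)) ≤ M / m * (r θ * sin (τ θ - θ)) := by
    calc M * (1 - cos (τ θ - θ)) = M / m * (m * (1 - cos (τ θ - θ))) := by field_simp
      _ ≤ _ := mul_le_mul_of_nonneg_left l3 (by positivity)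
  have l6 : r (τ θ) * sin (τ θ - θ) ≤ (M / m * r θ) * sin (τ θ - θ) := by linarith
  exact le_of_mul_le_mul_right l6 hs

/-- the angle is small when the tangent segment is short -/
lemma tau_sub_le (L : Leaf h k ρ r r' τ τ') {m : ℝ} (hm0 : 0 < m) (hm : ∀ θ, m ≤ ρ θ)
    (θ : ℝ) : τ θ - θ ≤ 2 / m * r θ := by
  have hτ := L.τ_mem θ
  have e1 := L.h_tau θ
  have l1 := support_lower L.h_deriv L.k_deriv hm θ (D := τ θ - θ) (by linarith [hτ.1])
    (by linarith [hτ.2])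
  rw [add_sub_cancel] at l1
  have l3 : m * (1 - cos (τ θ - θ)) ≤ r θ * sin (τ θ - θ) := by linarith
  obtain ⟨y, hy⟩ : ∃ y, y = (τ θ - θ) / 2 := ⟨_, rfl⟩
  have hy2 : τ θ - θ = 2 * y := by rw [hy]; ring
  have y0 : 0 < y := by rw [hy]; linarith [hτ.1]
  have y1 : y < π / 2 := by rw [hy]; linarith [hτ.2]
  rw [hy2, cos_two_mul, sin_two_mul] at l3
  have hsy : 0 < sin y := sin_pos_of_pos_of_lt_pi y0 (by linarith [pi_pos])
  have hcy : 0 < cos y := cos_pos_of_mem_Ioo ⟨by linarith, y1⟩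
  have e3 := sin_sq_add_cos_sq y
  have l4 : (m * sin y) * sin y ≤ (r θ * cos y) * sin y := by nlinarith
  have l5 : m * sin y ≤ r θ * cos y := le_of_mul_le_mul_right l4 hsy
  have l6 : y ≤ tan y := (lt_tan y0 y1).le
  rw [tan_eq_sin_div_cos, le_div_iff₀ hcy] at l6
  have l7 : m * y * cos y ≤ r θ * cos y := by nlinarith
  have l8 : m * y ≤ r θ := le_of_mul_le_mul_right l7 hcy
  rw [hy2]
  calc 2 * y = 2 / m * (m * y) := by field_simp
    _ ≤ _ := mul_le_mul_of_nonneg_left l8 (by positivity)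

end Leaf

namespace Fam
variable {h k ρ : ℝ → ℝ} {r τ : ℝ → ℝ → ℝ}

lemma ρ_bounds (B : Fam h k ρ r τ) : ∃ m M : ℝ, 0 < m ∧ (∀ θ, m ≤ ρ θ) ∧ ∀ θ, ρ θ ≤ M := by
  have hc : (1 / 2 : ℝ) ∈ Ioo (0:ℝ) 1 := by constructor <;> norm_num
  have hper : Function.Periodic ρ (2 * π) := fun θ => (B.leaf hc).ρ_per θ
  have hp : (0:ℝ) < 2 * π := by positivity
  obtain ⟨a, -, ha⟩ := (isCompact_Icc (a := (0:ℝ)) (b := 2 * π)).exists_isMinOn
    ⟨0, left_mem_Icc.2 hp.le⟩ B.ρ_cont.continuousOn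
  obtain ⟨b, -, hb⟩ := (isCompact_Icc (a := (0:ℝ)) (b := 2 * π)).exists_isMaxOn
    ⟨0, left_mem_Icc.2 hp.le⟩ B.ρ_cont.continuousOn
  refine ⟨ρ a, ρ b, B.ρ_pos a, fun θ => ?_, fun θ => ?_⟩
  · obtain ⟨s, hs, hse⟩ := hper.exists_mem_Ico₀ hp θ
    rw [hse]
    exact ha ⟨hs.1, hs.2.le⟩
  · obtain ⟨s, hs, hse⟩ := hper.exists_mem_Ico₀ hp θ
    rw [hse]
    exact hb ⟨hs.1, hs.2.le⟩

lemma continuousOn_tau_comp (B : Fam h k ρ r τ) {g : ℝ → ℝ} (hg : ContinuousOn g (Ioo 0 1)) :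
    ContinuousOn (fun c => τ c (g c)) (Ioo 0 1) := by
  refine B.τ_smooth.continuousOn.comp (f := fun c : ℝ => (c, g c))
    (continuousOn_id.prodMk hg) fun c hc => ⟨hc, mem_univ _⟩

/-- The invariant measure: one `3`-periodic orbit gives a leaf of `3`-periodic orbits. -/
lemma all_periodic (B : Fam h k ρ r τ) {c : ℝ} (hc : c ∈ Ioo (0:ℝ) 1)
    (h0 : τ c (τ c (τ c 0)) = 0 + 2 * π) (θ : ℝ) : τ c (τ c (τ c θ)) = θ + 2 * π := by
  have L := B.leaf hc
  obtain ⟨f, hf⟩ : ∃ f : ℝ → ℝ, f = fun θ => r c θ * pd1 r (c, θ) := ⟨_, rfl⟩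
  have hrc : Continuous (r c) :=
    continuous_iff_continuousAt.2 fun t => (L.r_deriv t).continuousAt
  have hfc : Continuous f := by
    rw [hf]
    exact hrc.mul (slice (contOn_pd1 B.r_smooth) hc)
  have hfpos : ∀ θ, 0 < f θ := fun θ => by
    rw [hf]
    exact mul_pos (B.r_pos c hc θ) (B.rc_pos hc θ)
  have hfper : ∀ θ, f (θ + 2 * π) = f θ := fun θ => by
    simp only [hf]
    rw [B.r_per c hc, pd1_per B.r_smooth B.r_per hc]
  have hfτ : ∀ θ, f (τ c θ) * pd2 τ (c, θ) = f θ := fun θ => by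
    simp only [hf]
    exact B.flux hc θ
  obtain ⟨Φ, hΦ⟩ : ∃ Φ : ℝ → ℝ, Φ = fun θ => ∫ u in (0:ℝ)..θ, f u := ⟨_, rfl⟩
  have hΦd : ∀ θ, HasDerivAt Φ (f θ) θ := fun θ => by
    rw [hΦ]
    exact intervalIntegral.integral_hasDerivAt_right (hfc.intervalIntegrable _ _)
      hfc.stronglyMeasurable.stronglyMeasurableAtFilter hfc.continuousAt
  have hmono : StrictMono Φ := strictMono_of_deriv_pos fun θ => by
    rw [(hΦd θ).deriv]
    exact hfpos θ
  have c1 : ∀ θ, Φ (τ c θ) - Φ θ = Φ (τ c 0) - Φ 0 := by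
    have hd : ∀ θ, HasDerivAt (fun θ => Φ (τ c θ) - Φ θ) 0 θ := fun θ => by
      have := ((hΦd (τ c θ)).comp θ (L.τ_deriv θ)).sub (hΦd θ)
      refine this.congr_deriv ?_
      rw [hfτ θ]
      ring
    intro θ
    exact is_const_of_deriv_eq_zero (fun θ => (hd θ).differentiableAt)
      (fun θ => (hd θ).deriv) θ 0
  have c2 : ∀ θ, Φ (θ + 2 * π) - Φ θ = Φ (0 + 2 * π) - Φ 0 := by
    have hd : ∀ θ, HasDerivAt (fun θ => Φ (θ + 2 * π) - Φ θ) 0 θ := fun θ => by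
      have := ((hΦd (θ + 2 * π)).comp_add_const θ (2 * π)).sub (hΦd θ)
      refine this.congr_deriv ?_
      rw [hfper θ]
      ring
    intro θ
    exact is_const_of_deriv_eq_zero (fun θ => (hd θ).differentiableAt)
      (fun θ => (hd θ).deriv) θ 0
  apply hmono.injective
  have a1 := c1 θ
  have a2 := c1 (τ c θ)
  have a3 := c1 (τ c (τ c θ))
  have b1 := c1 0
  have b2 := c1 (τ c 0)
  have b3 := c1 (τ c (τ c 0))
  have d1 := c2 θ
  rw [h0] at b3
  linarith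

theorem exists_third (B : Fam h k ρ r τ) {c₁ : ℝ} (hc₁ : c₁ ∈ Ioo (0:ℝ) 1)
    (hrot : ∀ θ, θ + 2 * π ≤ τ c₁ (τ c₁ (τ c₁ θ))) :
    ∃ c₀ ∈ Ioc 0 c₁, ∀ θ, τ c₀ (τ c₀ (τ c₀ θ)) = θ + 2 * π := by
  obtain ⟨m, M, hm0, hm, hM⟩ := B.ρ_bounds
  have hM0 : 0 < M := lt_of_lt_of_le hm0 ((hm 0).trans (hM 0))
  -- a leaf of small rotation number
  obtain ⟨c₂, hc₂, hsmall⟩ : ∃ c₂ ∈ Ioo 0 c₁, τ c₂ (τ c₂ (τ c₂ 0)) < 2 * π := by
    obtain ⟨K, hK⟩ : ∃ K, K = M / m := ⟨_, rfl⟩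
    have hK0 : 0 < K := by rw [hK]; positivity
    have hlim : Tendsto (fun c => 2 / m * ((1 + K + K * K) * r c 0)) (𝓝[>] 0) (𝓝 0) := by
      have := ((B.r_lim 0).const_mul (1 + K + K * K)).const_mul (2 / m)
      simpa using this
    have h2 : ∀ᶠ c in 𝓝[>] (0:ℝ), 2 / m * ((1 + K + K * K) * r c 0) < 2 * π :=
      hlim.eventually_lt_const (by positivity)
    obtain ⟨c, hc, hcI⟩ := (h2.and (Ioo_mem_nhdsGT hc₁.1)).exists
    refine ⟨c, hcI, ?_⟩
    have hc' : c ∈ Ioo (0:ℝ) 1 := ⟨hcI.1, hcI.2.trans hc₁.2⟩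
    have L := B.leaf hc'
    have t1 := L.tau_sub_le hm0 hm 0
    have t2 := L.tau_sub_le hm0 hm (τ c 0)
    have t3 := L.tau_sub_le hm0 hm (τ c (τ c 0))
    have s1 := L.r_tau_le hm0 hm hM 0
    have s2 := L.r_tau_le hm0 hm hM (τ c 0)
    rw [← hK] at s1 s2
    have s3 : r c (τ c (τ c 0)) ≤ K * (K * r c 0) :=
      s2.trans (mul_le_mul_of_nonneg_left s1 hK0.le)
    have hm2 : 0 < 2 / m := by positivity
    have t2' : 2 / m * r c (τ c 0) ≤ 2 / m * (K * r c 0) := mul_le_mul_of_nonneg_left s1 hm2.le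
    have t3' : 2 / m * r c (τ c (τ c 0)) ≤ 2 / m * (K * (K * r c 0)) :=
      mul_le_mul_of_nonneg_left s3 hm2.le
    have e : 2 / m * ((1 + K + K * K) * r c 0) =
        2 / m * r c 0 + 2 / m * (K * r c 0) + 2 / m * (K * (K * r c 0)) := by ring
    linarith
  -- the intermediate value theorem in the leaf
  have hcont : ContinuousOn (fun c => τ c (τ c (τ c 0))) (Ioo 0 1) :=
    B.continuousOn_tau_comp (B.continuousOn_tau_comp (B.continuousOn_tau_comp continuousOn_const))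
  have hsub : Icc c₂ c₁ ⊆ Ioo (0:ℝ) 1 := fun c hc =>
    ⟨lt_of_lt_of_le hc₂.1 hc.1, lt_of_le_of_lt hc.2 hc₁.2⟩
  have hmem : 0 + 2 * π ∈ Icc (τ c₂ (τ c₂ (τ c₂ 0))) (τ c₁ (τ c₁ (τ c₁ 0))) :=
    ⟨by linarith, hrot 0⟩
  obtain ⟨c₀, hc₀, he⟩ := intermediate_value_Icc hc₂.2.le (hcont.mono hsub) hmem
  exact ⟨c₀, ⟨lt_of_lt_of_le hc₂.1 hc₀.1, hc₀.2⟩, fun θ => B.all_periodic (hsub hc₀) he θ⟩

end Fam

end Pool.Agent.MP_ae5b4e_an.Out
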