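import Mathlib
import Pool.Agent.Lib.MP_ae5b4e_an_hopf.Plane

/-!
# MP_ae5b4e_an: foliations of the whole exterior of a convex curve

Let `γ` be a smooth closed convex curve with positive curvature in the plane.  The point with the
coordinate `u` of the tangent line `ℓ_t` of `γ` at the parameter `t` is
`γ(t) + γ'(t) / u` (`u = ∞` is the tangency point, `u = 0` the point at infinity); `u` is a
projective coordinate of `ℓ_t`, and the projective involutions of `ℓ_t` that fix the tangency
point and exchange the two sides of it are the maps `u ↦ κ - u`.  The leaves are the simple closed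
curves `leaf U c`, `0 < c < 1`, of the projective plane; they converge to `γ` for `c → 0` and fill
the exterior of `γ` (a Moebius band): for `c → 1` the two points of `leaf U c` on each tangent
line tend to each other.  If all the involutions of the tangent lines are projective then `γ` is
an ellipse and the leaves are conics of one pencil: there is a projective map that takes `γ` and
all the leaves to concentric circles.

Idea of the proof (Hopf rigidity).  Let `Γ(t) ∈ ℝ³` be a lift of `γ`, `D(x, y) = det(Γ x, Γ y, Γ' y)`.
After a change of the parameter and of the lift, `κ = 0` and `det(Γ, Γ', Γ'') = 1` (this uses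
`∫ κ = 0`, which follows from the total integrability), so that `Γ''' = -K Γ' - (K'/2 + g) Γ`.
Each leaf gives, by the Hopf argument, an inequality for the second derivatives of `log D` along
the orbits of the map; integrated with a suitable weight over all the leaves and with a suitable
null-Lagrangian (the boundary terms are computed), it becomes `∫ (..) ≥ 0` for an expression which
is pointwise `≤ 0` by an explicit certificate for quadratic forms; equality forces `K` to be
constant and `g = 0`, i.e. `γ` is a conic and the leaves are circles in the right coordinates.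
-/

noncomputable section

namespace Pool.Agent.MP_ae5b4e_an_Out.TotalIntegrableVariant

open Real Set Filter Topology
open scoped ContDiff
open Pool.Agent.MP_ae5b4e_an_hopf

/-- If the whole exterior of a convex curve is foliated by closed curves and all the induced
involutions of the tangent lines are projective, then the curve and the leaves are concentric
circles in suitable projective coordinates. -/
theorem result (γ : ConvexCurve) (U : ℝ → ℝ → ℝ) (κ : ℝ → ℝ)
    (hsmooth : ContDiffOn ℝ ∞ (fun q : ℝ × ℝ => U q.1 q.2) (Ioo 0 1 ×ˢ univ))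
    (hper : ∀ c ∈ Ioo (0:ℝ) 1, ∀ t, U c (t + γ.T) = U c t)
    (hsimple : ∀ c ∈ Ioo (0:ℝ) 1, ∀ t t', γ.pt t (U c t) = γ.pt t' (U c t') →
      ∃ n : ℤ, t' = t + n * γ.T)
    (hmono : ∀ c ∈ Ioo (0:ℝ) 1, ∀ t, deriv (fun r => U r t) c < 0)
    (hlim₀ : ∀ t, Tendsto (fun c => U c t) (𝓝[>] 0) atTop)
    (hlim₁ : ∀ t, Tendsto (fun c => U c t) (𝓝[<] 1) (𝓝 (κ t / 2)))
    (hproj : ∀ c ∈ Ioo (0:ℝ) 1, ∀ t u v, u ≠ v → γ.pt t u ∈ γ.leaf U c →
      γ.pt t v ∈ γ.leaf U c → u + v = κ t) :
    ∃ g : (Fin 3 → ℝ) ≃ₗ[ℝ] (Fin 3 → ℝ), γ.trace = circ g 1 ∧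
      ∀ c ∈ Ioo (0:ℝ) 1, ∃ R : ℝ, 1 < R ∧ γ.leaf U c = circ g R := by
  have h : Sys γ.T γ.Γ U κ :=
    { curve := γ.isCurve
      smooth := hsmooth
      per := hper
      mono := hmono
      lim0 := hlim₀
      lim1 := hlim₁
      feq := fun c hc t s h1 h2 h3 => γ.feq_of_proj (hsimple c hc) (hproj c hc) h1 h2 h3 }
  obtain ⟨g, hg, hleaf⟩ := h.conics
  refine ⟨g, ?_, fun c hc => ?_⟩
  · refine range_eq_circ γ.avec_ne fun P hP => ?_
    rw [one_pow, one_mul]
    exact hg P hP
  · obtain ⟨R, hR, hc'⟩ := hleaf c hc
    refine ⟨R, hR, range_eq_circ (fun t => γ.hvec_ne t (U c t)) fun P hP => ?_⟩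
    simp only [γ.hvec_eq]
    exact hc' P hP

end Pool.Agent.MP_ae5b4e_an_Out.TotalIntegrableVariant
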