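import Mathlib
import Pool.Agent.Lib.MP_ae5b4e_an_c3.Rational
import Pool.Agent.Lib.MP_ae5b4e_an_rat.Rational

/-!
# MP_ae5b4e_an: foliations by closed curves around a conic, up to a leaf with a Poncelet triangle

After a projective map the conic `γ` is the unit circle.  The leaves are the closed curves
`leaf S c`, `0 < c < 1`, which converge to `γ` for `c → 0`.  On the tangent line to `γ` at the
point with angle `θ` we use the signed coordinate `s` (`s = 0` at the tangency point); a projective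
involution fixing the tangency point is `1/s + 1/s' = κ θ`.  The involutions are arbitrary, no
symmetry and no first integral is assumed.  If some leaf contains the vertices of one triangle
circumscribed about `γ`, then all leaves are ellipses of one pencil of conics containing `γ`.

Idea of the proof.  Let `q = exp (-∫ κ)` be the potential of the involutions, a function on the
circle.  For two tangents at `t` and `s` put `x = cot ((s - t) / 2)`, and let
`w(x, t) = q (3 x² + 1) + 3 q' x + q''`, `m(x, t) = 2 q x + q'`, `Z = w(x, t) - w(-x, s)`.  The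
function `Z` vanishes for the pencils.  For a leaf with the map `t ↦ s = s(t)` put `m̂ = -m(-x, s)`,
`ŵ = w(-x, s)` and let `w₁` be the derivative of `w` in `t` for fixed `s`.  The functional
`B = ∫ ((1 + x²) (2 w - ŵ) m̂ - (2/3) w w₁) dt` of the leaf has the following properties.
(1) Its derivative in `c` is `∫ g (Z² + (3/2) ((1 + x²)/s') (m s' - m̂)²) dt` with a positive
weight `g`; (2) it tends to `0` for `c → 0`; (3) it is nonpositive on a leaf of triangles.  So
`Z = 0` between `γ` and that leaf, and this forces `q⁽⁵⁾ + 5 q''' + 4 q' = 0`.  Thus the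
involutions depend rationally on the point of the conic, and the theorem on foliations with a
rational field of involutions applies (`Pool.Agent.MP_ae5b4e_an_rat.rationalConic`).
-/

noncomputable section

namespace Pool.Agent.MP_ae5b4e_an.TriangleConicVariant

open Real Set Filter Topology
open Pool.Agent.MP_ae5b4e_an Pool.Agent.MP_ae5b4e_an_rat

/-- Foliations near the unit circle with projective involutions on the tangent lines are pencils of
conics if some leaf contains the vertices of a triangle circumscribed about the circle. -/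
theorem result (S : ℝ → ℝ → ℝ) (κ : ℝ → ℝ)
    (hsmooth : ContDiffOn ℝ 5 (fun q : ℝ × ℝ => S q.1 q.2) (Ioo 0 1 ×ˢ univ))
    (hpos : ∀ c ∈ Ioo (0:ℝ) 1, ∀ θ, 0 < S c θ)
    (hper : ∀ c ∈ Ioo (0:ℝ) 1, ∀ θ, S c (θ + 2 * π) = S c θ)
    (hmono : ∀ c ∈ Ioo (0:ℝ) 1, ∀ θ, 0 < deriv (fun t => S t θ) c)
    (hlim : ∀ θ, Tendsto (fun c => S c θ) (𝓝[>] 0) (𝓝 0))
    (hproj : ∀ c ∈ Ioo (0:ℝ) 1, ∀ θ s s', s < 0 → 0 < s' → tangentPoint θ s ∈ leaf S c →
      tangentPoint θ s' ∈ leaf S c → s⁻¹ + s'⁻¹ = κ θ)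
    (htri : ∃ c ∈ Ioo (0:ℝ) 1, ∃ P ∈ leaf S c, ∃ Q ∈ leaf S c, ∃ R ∈ leaf S c,
      P ≠ Q ∧ Q ≠ R ∧ R ≠ P ∧
      (∃ α : ℝ, P.1 * cos α + P.2 * sin α = 1 ∧ Q.1 * cos α + Q.2 * sin α = 1) ∧
      (∃ β : ℝ, Q.1 * cos β + Q.2 * sin β = 1 ∧ R.1 * cos β + R.2 * sin β = 1) ∧
      (∃ γ : ℝ, R.1 * cos γ + R.2 * sin γ = 1 ∧ P.1 * cos γ + P.2 * sin γ = 1)) :
    ∃ a₁ b₁ d₁ a₂ b₂ d₂ : ℝ, 0 < d₁ ∧ a₁ ^ 2 + b₁ ^ 2 < d₁ ^ 2 ∧ 0 < d₂ ∧
      a₂ ^ 2 + b₂ ^ 2 < d₂ ^ 2 ∧ ∀ c ∈ Ioo (0:ℝ) 1, ∃ l : ℝ, 0 < l ∧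
      (∀ x y : ℝ, (x, y) ≠ (0, 0) →
        (a₁ * x + b₁ * y) * (a₂ * x + b₂ * y) < l * (x ^ 2 + y ^ 2)) ∧
      leaf S c = {z : ℝ × ℝ | (a₁ * z.1 + b₁ * z.2 + d₁) * (a₂ * z.1 + b₂ * z.2 + d₂) =
        l * (z.1 ^ 2 + z.2 ^ 2 - 1)} := by
  have hsmooth1 : ContDiffOn ℝ 1 (fun q : ℝ × ℝ => S q.1 q.2) (Ioo 0 1 ×ˢ univ) :=
    hsmooth.of_le (by norm_num)
  set U : ℝ → ℝ → ℝ := fun c θ => (S c θ)⁻¹ with hU
  have h : LFam U κ := lfam_of hsmooth1 hpos hper hmono hlim hproj
  have hU5 : ContDiffOn ℝ 5 (Uf U) (Ioo 0 1 ×ˢ univ) :=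
    hsmooth.inv fun q hq => (hpos q.1 hq.1 q.2).ne'
  have hκ : ContDiff ℝ 5 κ := MP_ae5b4e_an_c3.contDiff_κ' h hU5
  obtain ⟨c, hc, P, ⟨a, rfl⟩, Q, ⟨b, rfl⟩, R, ⟨d, rfl⟩, hPQ, hQR, hRP, ⟨α, ha, hb⟩, ⟨β, hb', hd⟩,
    ⟨γ, hd', ha'⟩⟩ := htri
  have enx : ∀ θ, θ + 2 * arctan (S c θ) = nxt U c θ := by
    intro θ
    unfold nxt
    simp only [hU]
    rw [arctan_inv_of_pos (hpos c hc θ)]
    ring
  have ha := MP_ae5b4e_an_c3.tangent_angles ha
  have hb := MP_ae5b4e_an_c3.tangent_angles hb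
  have hb' := MP_ae5b4e_an_c3.tangent_angles hb'
  have hd := MP_ae5b4e_an_c3.tangent_angles hd
  have hd' := MP_ae5b4e_an_c3.tangent_angles hd'
  have ha' := MP_ae5b4e_an_c3.tangent_angles ha'
  rw [enx] at ha hb hb' hd hd' ha'
  -- the map of the leaf on the circle of angles
  have hSper : ∀ θ (k : ℤ), S c (θ + k * (2 * π)) = S c θ := by
    intro θ k
    have hp : Function.Periodic (S c) (2 * π) := hper c hc
    exact hp.int_mul k θ
  have hT : ∀ a b : ℝ, (a : Real.Angle) = (b : ℝ) →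
      tangentPoint a (S c a) = tangentPoint b (S c b) := by
    intro a b hab
    rw [Real.Angle.angle_eq_iff_two_pi_dvd_sub] at hab
    obtain ⟨k, hk⟩ := hab
    have e : a = b + k * (2 * π) := by linarith
    rw [e, hSper]
    unfold tangentPoint
    rw [cos_add_int_mul_two_pi, sin_add_int_mul_two_pi]
  have hout : ∀ v : Real.Angle, ((v.toReal : ℝ) : Real.Angle) = v := fun v => v.coe_toReal
  set N : Real.Angle → Real.Angle := fun v => ((nxt U c v.toReal : ℝ) : Real.Angle) with hN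
  have hNc : ∀ a : ℝ, N (a : Real.Angle) = ((nxt U c a : ℝ) : Real.Angle) := by
    intro a
    simp only [hN]
    rw [MP_ae5b4e_an_c3.nxt_angle h hc, hout]
  have hNi : Function.Injective N := by
    intro v v' hv
    simp only [hN] at hv
    rw [MP_ae5b4e_an_c3.nxt_angle h hc, hout, hout] at hv
    exact hv
  rw [← hNc] at ha hb hb' hd hd' ha'
  have key := MP_ae5b4e_an_c3.cyclic hNi ha hb hb' hd hd' ha' (fun h0 => hPQ (hT _ _ h0))
    (fun h0 => hQR (hT _ _ h0)) (fun h0 => hRP (hT _ _ h0))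
  rw [hNc a, hNc (nxt U c a), hNc (nxt U c (nxt U c a)),
    Real.Angle.angle_eq_iff_two_pi_dvd_sub] at key
  obtain ⟨k, hk⟩ := key
  have hlt : ∀ θ, θ < nxt U c θ ∧ nxt U c θ < θ + π := by
    intro θ
    have h1 := arctan_lt_pi_div_two (S c θ)
    have h2 : 0 < arctan (S c θ) := arctan_pos.2 (hpos c hc θ)
    rw [← enx θ]
    constructor <;> linarith
  have h3 : nxt U c (nxt U c (nxt U c a)) = a + 2 * π := by
    have l1 := hlt a
    have l2 := hlt (nxt U c a)
    have l3 := hlt (nxt U c (nxt U c a))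
    have hk1 : 0 < 2 * π * (k : ℝ) := by rw [← hk]; linarith
    have hk2 : 2 * π * (k : ℝ) < 3 * π := by rw [← hk]; linarith
    have hk3 : (0:ℝ) < k := by
      by_contra hneg
      push Not at hneg
      nlinarith [pi_pos]
    have hk4 : (k:ℝ) < 2 := by
      by_contra hneg
      push Not at hneg
      nlinarith [pi_pos]
    have hk5 : 0 < k := by exact_mod_cast hk3
    have hk6 : k < 2 := by exact_mod_cast hk4
    obtain rfl : k = 1 := by omega
    push_cast at hk
    linarith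
  obtain ⟨A, B, hB, hrat⟩ := MP_ae5b4e_an_c3.rational_κ h hκ hc
    (MP_ae5b4e_an_c3.three_of_one h hc h3)
  exact rationalConic S κ A B hB hrat hsmooth1 hpos hper hmono hlim hproj

end Pool.Agent.MP_ae5b4e_an.TriangleConicVariant
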